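import Pool.Agent.Lib.MP_887a05_al.FSAbs

/-! Open subgroups of finite index with trivial radical: a dense value group or an infinite residue
field forces all principal units into the subgroup. -/

namespace Pool.Agent.Lib.MP_887a05_al.FS

open scoped NNReal

universe u

variable {K : Type u} [Field K] {H : Set K}

theorem kr_climb (v : Valuation K ℝ≥0) {ε : ℝ≥0} (ε0 : 0 < ε) (hε : ∀ x, v x < ε → 1 + x ∈ H)
    (h : Good H) (nd : rad H ⊆ H) {γ θ : ℝ≥0} (γ1 : γ < 1) (θ1 : θ < 1)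
    (gen : ∀ t ≠ 0, v t ≤ θ → ∀ P : Set K, Gp P → t ∈ P →
      (∀ a, 1 - a ∈ H → v t ≤ γ * v a → -a ∈ P) → ∀ c ≠ 0, c ∈ P)
    {t : K} (ht : v t ≤ θ) : 1 - t ∈ H := by
  have : ∀ (k : ℕ) (t : K), v t ≤ θ → γ ^ k * v t < ε → 1 - t ∈ H := fun k => by
    induction k with
    | zero => exact fun t _ k => by simpa [sub_eq_add_neg] using hε (-t) (by simpa using k)
    | succ k ih =>
      intro t h1 h2
      by_cases t0 : t = 0
      · simpa [t0] using h.one
      have tp : 0 < v t := v.pos_iff.2 t0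
      have u0 : 1 - t ≠ 0 := fun e => by
        obtain rfl : t = 1 := by linear_combination -e
        exact (h1.trans_lt θ1).ne (map_one v)
      have g := h.gp u0
      have mk : ∀ {x y : K}, x ∈ H → y ≠ 0 → y = x - (1 - t) → y ∈ pp H (1 - t) :=
        fun {x y} hx y0 e => ⟨y0, x, 1, .inl hx, .inl h.one, .inl hx, by rw [e, mul_one]⟩
      have m : t ∈ pp H (1 - t) := mk h.one t0 (by ring)
      refine nd ⟨u0, fun c c0 => h.symm u0 (gen t t0 h1 _ g m (fun a ha le => ?_) c c0)⟩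
      have a0 : a ≠ 0 := by rintro rfl; simp [t0] at le
      have ap : 0 < v a := v.pos_iff.2 a0
      have lt : v t < v a := le.trans_lt (mul_lt_of_lt_one_left ap γ1)
      have d0 : t - a ≠ 0 := fun e => lt.ne (by rw [sub_eq_zero.1 e])
      have e1 : v (t * t / a) ≤ γ * v t := by
        rw [map_div₀, map_mul, div_le_iff₀ ap, mul_right_comm]
        gcongr
      have m1 := ih (t * t / a) (e1.trans ((mul_le_of_le_one_left' γ1.le).trans h1))
        (lt_of_le_of_lt (by rw [pow_succ, mul_assoc]; gcongr) h2)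
      have m2 : -(t * (t - a)) / a ∈ pp H (1 - t) :=
        mk m1 (div_ne_zero (neg_ne_zero.2 (mul_ne_zero t0 d0)) a0) (by field_simp; ring)
      have := g.div (g.mul m (mk ha d0 (by ring))) m2
      rwa [show t * (t - a) / (-(t * (t - a)) / a) = -a by field_simp] at this
  obtain ⟨k, hk⟩ := exists_pow_lt_of_lt_one ε0 γ1
  exact this k t ht ((mul_le_of_le_one_right' (ht.trans θ1.le)).trans_lt hk)

theorem kr_pigeon (v : Valuation K ℝ≥0) (h : Gp H) {n : ℕ} (hc : Cov H n) {P : Set K} (hP : Gp P)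
    {δ γ : ℝ≥0} (A : ∀ a, 1 - a ∈ H → δ ≤ γ * v a → -a ∈ P) {c : K} (s : ℕ → K)
    (s0 : ∀ i, s i ≠ 0) (h1 : ∀ i, v (1 - s i ^ 2 * c) = 1)
    (h2 : ∀ i j, i < j → δ ≤ γ * (v (s j ^ 2 - s i ^ 2) * v c))
    (h3 : ∀ i j, i < j → δ ≤ γ * (v (s j ^ 2 - s i ^ 2) / v (s j) ^ 2)) : c ∈ P := by
  obtain ⟨R, -, hR⟩ := hc
  have ne : ∀ i, 1 - s i ^ 2 * c ≠ 0 := fun i z => by simpa [z] using h1 i
  choose r hr hr' using fun i => hR _ (ne i)
  obtain ⟨i, j, ij, k⟩ := R.finite_toSet.exists_lt_map_eq_of_forall_mem hr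
  have m := h.div (hr' j) (hr' i)
  rw [k, mul_div_mul_right _ _ (right_ne_zero_of_mul (h.ne (hr' j)))] at m
  have m' := h.mul m (h.sq (div_ne_zero (s0 i) (s0 j)))
  have n1 := ne i
  have n2 := s0 j
  have b1 := A ((s j ^ 2 - s i ^ 2) * c / (1 - s i ^ 2 * c))
    (by convert m using 1; field_simp; ring)
    (by rw [map_div₀, h1, div_one, map_mul]; exact h2 i j ij)
  have b2 := A ((s j ^ 2 - s i ^ 2) / (s j ^ 2 * (1 - s i ^ 2 * c)))
    (by convert m' using 1; field_simp; ring)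
    (by rw [map_div₀, map_mul, h1, mul_one, map_pow]; exact h3 i j ij)
  have d0 : s j ^ 2 - s i ^ 2 ≠ 0 := fun e => hP.ne b2 (by simp [e])
  refine hP.of_sq (hP.div b1 b2) n2 ?_
  generalize 1 - s i ^ 2 * c = y at n1
  field_simp

theorem kr_dense (v : Valuation K ℝ≥0) {ε : ℝ≥0} (ε0 : 0 < ε) (hε : ∀ x, v x < ε → 1 + x ∈ H)
    (h : Good H) (nd : rad H ⊆ H) {n : ℕ} (hc : Cov H n)
    (dn : ∀ z ≠ 0, ∀ α β : ℝ≥0, α < β → ∃ s, α < v s ^ 2 * v z ∧ v s ^ 2 * v z < β)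
    {x : K} (hx : v x < 1) : 1 + x ∈ H := by
  have γ1 : NNReal.sqrt (v x) < 1 := by simpa using NNReal.sqrt_lt_sqrt.2 hx
  have e : v x = NNReal.sqrt (v x) * NNReal.sqrt (v x) := (NNReal.mul_self_sqrt _).symm
  rw [← sub_neg_eq_add]
  refine kr_climb v ε0 hε h nd γ1 hx (fun t t0 ht P hP _ A c c0 => ?_) (by simp)
  obtain ⟨θ, mono, hθ, -⟩ := exists_seq_strictMono_tendsto' γ1
  choose s h1 h2 using fun i => dn c c0 _ _ (mono (Nat.lt_succ_self i))
  have s0 : ∀ i, s i ≠ 0 := fun i z => by simpa [z] using h1 i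
  have df : ∀ i j, i < j → v (s j ^ 2 - s i ^ 2) = v (s j) ^ 2 := fun i j ij => by
    rw [← map_pow]
    refine v.map_sub_eq_of_lt_left ?_
    rw [map_pow, map_pow]
    exact lt_of_mul_lt_mul_right ((h2 i).trans ((mono.monotone ij).trans_lt (h1 j))) zero_le
  refine kr_pigeon v h.toGp hc hP A s s0 (fun i => ?_) (fun i j ij => ?_) fun i j ij => ?_
  · exact v.map_one_sub_of_lt (by simpa using (h2 i).trans (hθ _).2)
  · rw [df i j ij]
    refine ht.trans (e.le.trans ?_)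
    gcongr
    exact ((hθ j).1.trans (h1 j)).le
  · rw [df i j ij, div_self (pow_ne_zero 2 (v.pos_iff.2 (s0 j)).ne')]
    refine ht.trans (e.le.trans ?_)
    gcongr

theorem kr_disc (v : Valuation K ℝ≥0) {ε : ℝ≥0} (ε0 : 0 < ε) (hε : ∀ x, v x < ε → 1 + x ∈ H)
    (h : Good H) (nd : rad H ⊆ H) {n : ℕ} (hc : Cov H n) {π : K} (π0 : π ≠ 0) (π1 : v π < 1)
    (hπ : ∀ x ≠ 0, ∃ k : ℤ, v x = v π ^ k) {k : Type*} [Field k] [Infinite k] {ρ : K → k}
    (p : Pl v ρ) (k2 : (2 : k) = 0) {x : K} (hx : v x < 1) : 1 + x ∈ H := by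
  have πp : 0 < v π := v.pos_iff.2 π0
  have anti := zpow_right_strictAnti₀ πp π1
  have step : ∀ {y : K}, v y < 1 → v y ≤ v π := fun {y} hy => by
    by_cases y0 : y = 0
    · simp [y0]
    obtain ⟨j, hj⟩ := hπ y y0
    rw [hj, ← zpow_zero (v π), anti.lt_iff_gt] at hy
    simpa [hj] using anti.antitone (show 1 ≤ j by omega)
  have inj : ∀ {y z : k}, y ^ 2 = z ^ 2 → y = z := fun {y z} e => by
    have : (y - z) ^ 2 = 0 := by linear_combination e + (z ^ 2 - y * z) * k2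
    exact sub_eq_zero.1 (pow_eq_zero_iff two_ne_zero |>.1 this)
  rw [← sub_neg_eq_add]
  refine kr_climb v ε0 hε h nd π1 π1 (fun t t0 ht P hP tP A c c0 => ?_) (by simpa using step hx)
  have un : ∀ c, v c ≤ 1 → v t ≤ v π * v c → c ∈ P := fun c c1 le => by
    have inf : ({0} ∪ {z : k | z ^ 2 * ρ c = 1})ᶜ.Infinite :=
      ((Set.finite_singleton 0).union (Set.Subsingleton.finite fun y hy z hz => inj (by
        have a : y ^ 2 * ρ c = 1 := hy
        have b : z ^ 2 * ρ c = 1 := hz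
        linear_combination (-y ^ 2) * b + z ^ 2 * a))).infinite_compl
    let f := inf.natEmbedding
    have f1 : ∀ i, (f i : k) ≠ 0 ∧ (f i : k) ^ 2 * ρ c ≠ 1 := fun i =>
      ⟨fun e => (f i).2 (.inl e), fun e => (f i).2 (.inr e)⟩
    choose s s1 s2 using fun i => p.lift (f1 i).1
    have q1 : ∀ i, v (s i ^ 2) ≤ 1 := fun i => by simp [s1]
    have df : ∀ i j, i < j → v (s j ^ 2 - s i ^ 2) = 1 := fun i j ij =>
      p.unit (v.map_sub_le (q1 j) (q1 i)) (by
        rw [p.sub (q1 j) (q1 i), p.sq (s1 j).le, p.sq (s1 i).le, s2, s2, sub_ne_zero]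
        exact fun e => ij.ne' (f.injective (Subtype.ext (inj e))))
    refine kr_pigeon v h.toGp hc hP A s (fun i z => by simpa [z] using s1 i) (fun i => ?_)
      (fun i j ij => by simpa [df i j ij] using le) fun i j ij => by simpa [df i j ij, s1] using ht
    have q2 : v (s i ^ 2 * c) ≤ 1 := by simpa [s1] using c1
    refine p.unit (v.map_sub_le (by simp) q2) ?_
    rw [p.sub (by simp) q2, p.one, p.mul (q1 i) c1, p.sq (s1 i).le, s2, sub_ne_zero]
    exact (f1 i).2.symm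
  obtain ⟨j, hj⟩ := hπ c c0
  have z0 : ∀ i : ℤ, π ^ i ≠ 0 := fun i => zpow_ne_zero i π0
  obtain ⟨i, rfl | rfl⟩ := Int.even_or_odd' j
  · have e : v (c * (π ^ (-i)) ^ 2) = 1 := by
      rw [map_mul, hj, map_pow, map_zpow₀, ← zpow_natCast, ← zpow_mul, ← zpow_add₀ πp.ne']
      simp [mul_comm]
    exact hP.of_sq (un _ e.le (by simpa only [e, mul_one] using ht)) (z0 _) rfl
  · have e : v (c * (π ^ (-i)) ^ 2) = v π := by
      rw [map_mul, hj, map_pow, map_zpow₀, ← zpow_natCast, ← zpow_mul, ← zpow_add₀ πp.ne']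
      rw [show 2 * i + 1 + -i * ((2 : ℕ) : ℤ) = 1 by push_cast; ring, zpow_one]
    refine hP.of_sq (c := c) (s := π ^ (-i)) ?_ (z0 _) rfl
    generalize c * (π ^ (-i)) ^ 2 = d at e
    rcases ht.eq_or_lt with q | q
    · have e' : v (d / t) = 1 := by rw [map_div₀, e, q, div_self πp.ne']
      have := hP.mul (un _ e'.le (by simpa only [e', mul_one] using ht)) tP
      rwa [div_mul_cancel₀ _ t0] at this
    · refine un d (e ▸ π1.le) ?_
      have := step (y := t / π) (by rw [map_div₀]; exact (div_lt_one₀ πp).2 q)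
      rw [map_div₀, div_le_iff₀ πp] at this
      rwa [e]

theorem kr_abs {F : Type*} [Field F] [Algebra F K] [FiniteDimensional F K] (h : Good H) {m : ℕ}
    (hc : Cov H m) (nd : rad H ⊆ H) (nv : ∀ O : ValuationSubring K, (∀ x ∉ O, 1 + x⁻¹ ∈ H) → O = ⊤) {a : K}
    (a0 : a ≠ 0) (ha : a ∉ H) (g : AbsoluteValue K ℝ) {ε : ℝ} (ε0 : 0 < ε)
    (hε : ∀ x, g x < ε → 1 + x ∈ H) {t : K} (t0 : t ≠ 0) (ht : g t < 1) {l : List K}
    (hl : ∀ a ∈ l, a ≠ 0) (h0 : 0 ∉ N H l) : An F l.length := by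
  by_cases nb : ∀ n : ℕ, g n ≤ 1
  swap
  · exact an_of_add h.toGp (arch h.toGp g ε0 hε nb a0 ha) _
  obtain ⟨v, hv⟩ : ∃ v : Valuation K ℝ≥0, ∀ x, (v x : ℝ) = g x := by
    let _ := g.toNormedField
    have := IsUltrametricDist.isUltrametricDist_of_forall_norm_natCast_le_one (R := K) nb
    exact ⟨NormedField.valuation, fun _ => rfl⟩
  lift ε to ℝ≥0 using ε0.le
  simp only [← hv] at hε ht nb
  norm_cast at hε ht ε0 nb
  have pos : ∀ {x : K}, x ≠ 0 → 0 < v x := fun k => v.pos_iff.2 k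
  have key : ¬ ∀ x, v x < 1 → 1 + x ∈ H := fun k => by
    have := nv v.valuationSubring fun x hx => k _ (by
      rw [Valuation.mem_valuationSubring_iff, not_le] at hx
      rw [map_inv₀]; exact inv_lt_one_of_one_lt₀ hx)
    have : v t⁻¹ ≤ 1 := (v.mem_valuationSubring_iff _).1 (this ▸ ValuationSubring.mem_top _)
    rw [map_inv₀, inv_le_one₀ (pos t0)] at this
    exact this.not_gt ht
  have v2 : v 2 < 1 := (by simpa using nb 2 : v 2 ≤ 1).lt_of_ne fun v2 =>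
    key fun x hx => newton v ε0 hε h.toGp v2 hx
  let S : AddSubgroup ℝ :=
    { carrier := {r | ∃ x ≠ 0, r = Real.log (v x)}
      zero_mem' := ⟨1, one_ne_zero, by simp⟩
      add_mem' := fun ⟨x, a, b⟩ ⟨y, c, d⟩ => ⟨x * y, mul_ne_zero a c, by
        rw [map_mul, NNReal.coe_mul, Real.log_mul (by simpa) (by simpa), b, d]⟩
      neg_mem' := fun ⟨x, a, b⟩ => ⟨x⁻¹, inv_ne_zero a, by simp [b]⟩ }
  have sc : ∀ {z s w : K} (L : List K), s ≠ 0 → z = s ^ 2 * (1 + w) →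
      N H (z :: L) = N H ((1 + w) :: L) := fun L s0 e =>
    e ▸ h.scale (pow_ne_zero 2 s0) (h.toGp.sim (h.sq s0) L)
  rcases S.dense_or_cyclic with d | ⟨α, d⟩
  · refine (key fun x hx => kr_dense v ε0 hε h nd hc (fun z z0 α β lt => ?_) hx).elim
    obtain ⟨α', p, q⟩ := exists_between lt
    have α0 : (0 : ℝ) < α' := by exact_mod_cast zero_le.trans_lt p
    obtain ⟨_, ⟨s, s0, rfl⟩, k1, k2⟩ := d.exists_between
      (show (Real.log α' - Real.log (v z)) / 2 < (Real.log β - Real.log (v z)) / 2 by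
        have := Real.log_lt_log α0 (show (α' : ℝ) < β from q); linarith)
    have e : Real.log (v s ^ 2 * v z : ℝ≥0) = 2 * Real.log (v s) + Real.log (v z) := by
      rw [NNReal.coe_mul, Real.log_mul (by simpa) (by simpa)]; simp
    have p0 : (0 : ℝ) < (v s ^ 2 * v z : ℝ≥0) := by
      exact_mod_cast mul_pos (pow_pos (pos s0) 2) (pos z0)
    have β0 : (0 : ℝ) < β := α0.trans q
    exact ⟨s, p.trans (NNReal.coe_lt_coe.1 ((Real.log_lt_log_iff α0 p0).1 (by linarith))),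
      NNReal.coe_lt_coe.1 ((Real.log_lt_log_iff p0 β0).1 (by linarith))⟩
  obtain ⟨π, π0, π1, hπ⟩ : ∃ π ≠ 0, v π < 1 ∧ ∀ x ≠ 0, ∃ k : ℤ, v x = v π ^ k := by
    obtain ⟨π, π0, rfl⟩ : α ∈ S := d ▸ AddSubgroup.subset_closure rfl
    have k : ∀ x ≠ 0, ∃ k : ℤ, v x = v π ^ k := fun x x0 => by
      obtain ⟨k, hk⟩ := AddSubgroup.mem_closure_singleton.1
        (d.le (⟨x, x0, rfl⟩ : Real.log (v x) ∈ S))
      have : Real.log (v x) = Real.log (v π ^ k : ℝ≥0) := by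
        rw [← hk, NNReal.coe_zpow, Real.log_zpow, zsmul_eq_mul]
      exact ⟨k, NNReal.eq (Real.log_injOn_pos (pos x0) (zpow_pos (pos π0) k) this)⟩
    rcases lt_trichotomy (v π) 1 with c | c | c
    · exact ⟨π, π0, c, k⟩
    · obtain ⟨j, hj⟩ := k t t0
      simp [hj, c] at ht
    · exact ⟨π⁻¹, inv_ne_zero π0, by rw [map_inv₀]; exact inv_lt_one_of_one_lt₀ c, fun x x0 =>
        let ⟨j, hj⟩ := k x x0; ⟨-j, by simp [hj]⟩⟩
  have anti := zpow_right_strictAnti₀ (pos π0) π1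
  obtain ⟨k, _, ρ, p⟩ := exists_pl v
  by_cases len : l.length ≤ 2
  · obtain ⟨E, σ, q, -⟩ := p.exists_sub (F := F)
    obtain ⟨l', h1, h2, h3⟩ := q.fside (j := 1) (l := []) (by
      rw [idx_ev_comap, (gp_ev v).idx_ext π0 fun ⟨_, s, e⟩ => ?_]
      · simp
      obtain ⟨j, hj⟩ := hπ s (by rintro rfl; simp [π0] at e)
      rw [hj, ← zpow_natCast, ← zpow_mul, ← zpow_one (v π), ← zpow_mul] at e
      have := anti.injective e
      omega) (by simp) gp_sqs.zero
    exact ⟨l', h1, by simp [h2, len], h3⟩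
  have k2 : (2 : k) = 0 := by
    rw [← one_add_one_eq_two, ← p.one, ← p.add (by simp) (by simp), one_add_one_eq_two]
    exact (p.zero_iff v2.le).2 v2
  rcases finite_or_infinite k with _ | _
  swap
  · exact (key fun x hx => kr_disc v ε0 hε h nd hc π0 π1 hπ p k2 hx).elim
  have := Fintype.ofFinite k
  have hs : Cov (sqs k) _ := ⟨Finset.univ, le_rfl, fun a a0 => ⟨a, by simp, a, a0, (sq a).symm⟩⟩
  have evn : ∀ z ∈ ev v, ∃ s ≠ 0, ∃ w, v w ≤ v π ∧ z = s ^ 2 * (1 + w) := by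
    rintro z ⟨z0, s, e⟩
    have s0 : s ≠ 0 := by rintro rfl; simp [z0] at e
    have e1 : v (z / s ^ 2) = 1 := by simp [e, s0]
    obtain ⟨r, hr⟩ := sq_of_char_two k2 hs (ρ (z / s ^ 2))
    obtain ⟨r, r1, rfl⟩ := p.lift (z := r) (by rintro rfl; exact p.ne e1 (by simpa using hr))
    have r0 : r ≠ 0 := by rintro rfl; simp at r1
    have := p.close e1.le (y := r ^ 2) (by simp [r1]) (by rw [hr, p.sq r1.le])
    refine ⟨s * r, mul_ne_zero s0 r0, z / s ^ 2 / r ^ 2 - 1, ?_, by field_simp; ring⟩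
    generalize z / s ^ 2 / r ^ 2 - 1 = w at this
    by_cases w0 : w = 0
    · simp [w0]
    obtain ⟨j, hj⟩ := hπ w w0
    rw [hj, ← zpow_zero (v π), anti.lt_iff_gt] at this
    simpa [hj] using anti.antitone (show 1 ≤ j by omega)
  have par : ∀ x ≠ 0, x ∈ ev v ∨ x * π ∈ ev v := fun x x0 => by
    obtain ⟨j, hj⟩ := hπ x x0
    obtain ⟨i, rfl | rfl⟩ := Int.even_or_odd' j
    · exact .inl ⟨x0, π ^ i, by rw [hj, mul_comm, zpow_mul, map_zpow₀]; rfl⟩
    · refine .inr ⟨mul_ne_zero x0 π0, π ^ (i + 1), ?_⟩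
      rw [map_mul, hj, ← zpow_add_one₀ (pos π0).ne', map_zpow₀, ← zpow_natCast, ← zpow_mul]
      congr 1; push_cast; ring
  obtain _ | ⟨c, _ | ⟨z, _ | ⟨b, L⟩⟩⟩ := l
  · simp at len
  · simp at len
  · simp at len
  refine (h0 (depth v ε0 hε h π1 1 (c := [c]) (fun c z L len c0 z0 => ?_) rfl
    (by simpa using hl c (by simp)) (hl z (by simp)) (hl b (by simp)) L)).elim
  obtain ⟨c, rfl⟩ := List.length_eq_one_iff.1 len
  have c0 := c0 c (by simp)
  obtain ⟨c', z', c0', hz, e⟩ : ∃ c' z', c' ≠ 0 ∧ z' ∈ ev v ∧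
      N H (c :: z :: L) = N H (c' :: z' :: L) := by
    rcases par z z0 with k | k
    · exact ⟨c, z, c0, k, rfl⟩
    rcases par c c0 with k' | k'
    · exact ⟨z, c, z0, k', N_perm (.swap _ _ _)⟩
    refine ⟨c, -c * z, c0, (gp_ev v).of_sq ((gp_ev v).mul ((gp_ev v).mul k k')
      ⟨neg_ne_zero.2 one_ne_zero, 1, by simp⟩) π0 (by ring), ?_⟩
    rw [N_perm (.swap _ _ _), ← h.move (by simp) c0 (h.neg_pp c0), N_perm (.swap _ _ _)]
  obtain ⟨s, s0, w, hw, e'⟩ := evn z' hz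
  exact ⟨[c'], w, rfl, by simpa, hw, e.trans (N_cons_congr (sc L s0 e'))⟩

end Pool.Agent.Lib.MP_887a05_al.FS
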