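import Pool.Agent.Lib.MP_887a05_al.FSBasic

/-! Passing to the residue field of a valuation. -/

namespace Pool.Agent.Lib.MP_887a05_al.FS

universe u

variable {K k Γ : Type*} [Field K] [Field k] [LinearOrderedCommGroupWithZero Γ]

/-- `ρ` is a residue map for the valuation `v`. -/
structure Pl (v : Valuation K Γ) (ρ : K → k) : Prop where
  add : ∀ {x y}, v x ≤ 1 → v y ≤ 1 → ρ (x + y) = ρ x + ρ y
  mul : ∀ {x y}, v x ≤ 1 → v y ≤ 1 → ρ (x * y) = ρ x * ρ y
  one : ρ 1 = 1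
  zero_iff : ∀ {x}, v x ≤ 1 → (ρ x = 0 ↔ v x < 1)
  surj : ∀ z, ∃ x, v x ≤ 1 ∧ ρ x = z

theorem exists_pl {K : Type u} [Field K] (v : Valuation K Γ) :
    ∃ (k : Type u) (_ : Field k) (ρ : K → k), Pl v ρ := by
  classical
  let O := v.valuationSubring
  refine ⟨IsLocalRing.ResidueField O, inferInstance,
    fun x => if h : v x ≤ 1 then IsLocalRing.residue O ⟨x, h⟩ else 0, fun {x y} hx hy => ?_,
    fun {x y} hx hy => ?_, ?_, fun {x} hx => ?_, fun z => ?_⟩
  · rw [dif_pos hx, dif_pos hy, dif_pos (v.map_add_le hx hy), ← map_add]; rfl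
  · rw [dif_pos hx, dif_pos hy, dif_pos (by rw [map_mul]; exact mul_le_one' hx hy)]
    exact map_mul (IsLocalRing.residue O) ⟨x, hx⟩ ⟨y, hy⟩
  · rw [dif_pos (map_one v).le]; exact map_one _
  · rw [dif_pos hx, IsLocalRing.residue_eq_zero_iff, ValuationSubring.valuation_lt_one_iff]
    exact (v.isEquiv_valuation_valuationSubring.lt_one_iff_lt_one).symm
  · obtain ⟨x, rfl⟩ := IsLocalRing.residue_surjective z
    exact ⟨x, x.2, dif_pos x.2⟩

theorem N_mono {B B' : Set K} (h : B ⊆ B') (l : List K) : N B l ⊆ N B' l := by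
  induction l with
  | nil => exact h
  | cons a l ih => exact fun w ⟨x, y, hx, hy, hxy, e⟩ =>
      ⟨x, y, hx.imp_left (ih ·), hy.imp_left (ih ·), hxy.imp (ih ·) (ih ·), e⟩

theorem Cov.mono {H H' : Set K} {n : ℕ} (h : Cov H n) (k : H ⊆ H') : Cov H' n :=
  let ⟨R, a, b⟩ := h
  ⟨R, a, fun x hx => let ⟨r, c, d⟩ := b x hx; ⟨r, c, k d⟩⟩

theorem Gp.sub_N {H : Set K} (l : List K) : H ⊆ N H l := by
  simpa [N] using N_sub_append (B := H) l []

theorem Gp.iso_of_mem {H : Set K} (h : Gp H) {a : K} {l : List K} (ha : a ∈ l) (k : a ∈ H) :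
    0 ∈ N H l := by
  classical
  rw [N_perm (List.perm_cons_erase ha)]
  exact ⟨a, 1, .inl (Gp.sub_N _ k), .inl (Gp.sub_N _ h.one), .inl (Gp.sub_N _ k), by simp⟩

theorem Gp.sqs_sub {H : Set K} (h : Gp H) : sqs K ⊆ H := fun _ ⟨_, s, e⟩ => e ▸ h.sq s

theorem v_sq {v : Valuation K Γ} {s : K} (h : v (s ^ 2) = 1) : v s = 1 := by
  rwa [map_pow, pow_eq_one_iff_left two_ne_zero] at h

/-- The residues of the units of `H`. -/
def bar (v : Valuation K Γ) (ρ : K → k) (H : Set K) : Set k := {z | ∃ h ∈ H, v h = 1 ∧ ρ h = z}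

namespace Pl

variable {v : Valuation K Γ} {ρ : K → k} (p : Pl v ρ) {x y : K} {H : Set K}
include p

theorem zero : ρ 0 = 0 := (p.zero_iff (by simp)).2 (by simp)

theorem sub (hx : v x ≤ 1) (hy : v y ≤ 1) : ρ (x - y) = ρ x - ρ y := by
  rw [eq_sub_iff_add_eq, ← p.add (v.map_sub_le hx hy) hy, sub_add_cancel]

theorem ne (hx : v x = 1) : ρ x ≠ 0 := fun e => ((p.zero_iff hx.le).1 e).ne hx

theorem unit (hx : v x ≤ 1) (h : ρ x ≠ 0) : v x = 1 :=
  hx.eq_or_lt.resolve_right fun k => h ((p.zero_iff hx).2 k)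

theorem div (hx : v x ≤ 1) (hy : v y = 1) : ρ (x / y) = ρ x / ρ y := by
  have y0 : y ≠ 0 := by rintro rfl; simp at hy
  rw [eq_div_iff (p.ne hy), ← p.mul (by simpa [hy] using hx) hy.le, div_mul_cancel₀ _ y0]

theorem sq (hx : v x ≤ 1) : ρ (x ^ 2) = ρ x ^ 2 := by rw [_root_.sq, p.mul hx hx, _root_.sq]

theorem lift {z : k} (hz : z ≠ 0) : ∃ x, v x = 1 ∧ ρ x = z :=
  let ⟨x, a, b⟩ := p.surj z
  ⟨x, p.unit a (b ▸ hz), b⟩

theorem sum {ι : Type*} (s : Finset ι) (a : ι → K) (h : ∀ i ∈ s, v (a i) ≤ 1) :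
    ρ (∑ i ∈ s, a i) = ∑ i ∈ s, ρ (a i) := by
  classical
  induction s using Finset.induction_on with
  | empty => simpa using p.zero
  | insert j s hj ih =>
    have h' : ∀ i ∈ s, v (a i) ≤ 1 := fun i hi => h i (by simp [hi])
    rw [Finset.sum_insert hj, Finset.sum_insert hj, p.add (h j (by simp)) (v.map_sum_le h'), ih h']

theorem gp_bar (h : Gp H) : Gp (bar v ρ H) :=
  ⟨fun ⟨_, _, a, b⟩ => p.ne a b, fun ⟨x, a, b, c⟩ ⟨y, a', b', c'⟩ =>
    ⟨x * y, h.mul a a', by simp [b, b'], by rw [p.mul b.le b'.le, c, c']⟩, fun hz =>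
      let ⟨x, a, b⟩ := p.lift hz
      ⟨x ^ 2, h.sq (by rintro rfl; simp at a), by simp [a], by rw [p.sq a.le, b]⟩⟩

theorem cov_bar (h : Gp H) {n : ℕ} (hc : Cov H n) : Cov (bar v ρ H) n := by
  classical
  obtain ⟨R, hR, hc⟩ := hc
  have : ∀ r : K, ∃ u, (∃ u, v u = 1 ∧ u * r ∈ H) → v u = 1 ∧ u * r ∈ H := fun r => by
    by_cases k : ∃ u, v u = 1 ∧ u * r ∈ H
    exacts [k.imp fun _ k _ => k, ⟨0, fun k' => (k k').elim⟩]
  choose f hf using this
  refine ⟨R.image fun r => ρ (f r), Finset.card_image_le.trans hR, fun z hz => ?_⟩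
  obtain ⟨a, a1, rfl⟩ := p.lift hz
  obtain ⟨r, hr, q⟩ := hc a (by rintro rfl; simp at a1)
  obtain ⟨b1, b2⟩ := hf r ⟨a, a1, q⟩
  exact ⟨_, Finset.mem_image_of_mem _ hr, a * f r, h.of_sq (h.mul q b2)
    (right_ne_zero_of_mul (h.ne q)) (by ring), by simp [a1, b1], p.mul a1.le b1.le⟩

theorem cov_sqs {n : ℕ} (hc : Cov (sqs K) n) : Cov (sqs k) n :=
  (p.cov_bar gp_sqs hc).mono (by
    rintro _ ⟨_, ⟨s, -, rfl⟩, a, rfl⟩
    exact ⟨ρ s, p.ne (v_sq a), p.sq (v_sq a).le⟩)

theorem close (hx : v x ≤ 1) (hy : v y = 1) (e : ρ x = ρ y) : v (x / y - 1) < 1 := by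
  have : v (x / y) ≤ 1 := by simpa [hy] using hx
  rw [← p.zero_iff (v.map_sub_le this (by simp)), p.sub this (by simp), p.div hx hy, e,
    div_self (p.ne hy), p.one, sub_self]

theorem mem_of_bar (h : Gp H) (c : ∀ x, v x < 1 → 1 + x ∈ H) (hx : v x ≤ 1)
    (k : ρ x ∈ bar v ρ H) : x ∈ H := by
  obtain ⟨y, a, b, e⟩ := k
  have := h.mul a (c _ (p.close hx b e.symm))
  rwa [add_sub_cancel, mul_div_cancel₀ _ (h.ne a)] at this

theorem lift_N (h : Gp H) (c : ∀ x, v x < 1 → 1 + x ∈ H) {l : List K} (hl : ∀ a ∈ l, v a = 1)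
    {w : K} (hw : v w ≤ 1) (k : ρ w ∈ N (bar v ρ H) (l.map ρ)) : w ∈ N H l := by
  induction l generalizing w with
  | nil => exact p.mem_of_bar h c hw k
  | cons a l ih =>
    have a1 := hl a (by simp)
    have a0 : a ≠ 0 := by rintro rfl; simp at a1
    have ih := @ih fun b hb => hl b (by simp [hb])
    obtain ⟨x, y, hx, hy, hxy, e⟩ := k
    by_cases k : x ∈ N (bar v ρ H) (l.map ρ)
    · obtain ⟨y', b1, b2, b3⟩ : ∃ y', v y' ≤ 1 ∧ ρ y' = y ∧ (y' ∈ N H l ∨ y' = 0) := by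
        rcases hy with hy | rfl
        · obtain ⟨y', b1, rfl⟩ := p.surj y
          exact ⟨y', b1, rfl, .inl (ih b1 hy)⟩
        · exact ⟨0, by simp, p.zero, .inr rfl⟩
      have b4 : v (a * y') ≤ 1 := by simpa [a1] using b1
      have := ih (v.map_add_le hw b4) (by rwa [p.add hw b4, p.mul a1.le b1, b2, e, sub_add_cancel])
      exact ⟨_, y', .inl this, b3, .inl this, by ring⟩
    · have b : v (0 - w) ≤ 1 := by simpa using hw
      have := ih (w := (0 - w) / a) (by simpa [a1] using hw) (by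
        rw [p.div b a1, p.sub (by simp) hw, e, hx.resolve_left k, p.zero]
        simpa [p.ne a1] using hxy.resolve_left k)
      exact ⟨0, _, .inr rfl, .inl this, .inr this, by field_simp; ring⟩

theorem good_bar (h : Good H) (c : ∀ x, v x < 1 → 1 + x ∈ H) (h2 : (2 : k) ≠ 0) :
    Good (bar v ρ H) := by
  have g := p.gp_bar h.toGp
  refine ⟨g, h2, fun {a b c'} a0 hb hc => ?_⟩
  obtain ⟨a, a1, rfl⟩ := p.lift a0
  obtain ⟨b, b1, rfl⟩ := p.lift hb.1
  obtain ⟨d, d1, rfl⟩ := p.lift hc.1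
  have ne : ∀ {x : K}, v x = 1 → x ≠ 0 := by rintro _ k rfl; simp at k
  obtain ⟨-, x, y, hx, hy, -, e⟩ := h.pmul (ne a1)
    ⟨ne b1, p.lift_N (l := [a]) h.toGp c (by simpa using a1) b1.le hb.2⟩
    ⟨ne d1, p.lift_N (l := [a]) h.toGp c (by simpa using a1) d1.le hc.2⟩
  have w0 := mul_ne_zero hb.1 hc.1
  have w1 : v (x - a * y) = 1 := by rw [← e]; simp [b1, d1]
  by_cases k : v y ≤ 1
  · have k1 : v (a * y) ≤ 1 := by simpa [a1] using k
    have k2 : v x ≤ 1 := by simpa using v.map_add_le w1.le k1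
    have un : ∀ {z : K}, v z ≤ 1 → z ∈ N H [] ∨ z = 0 → ρ z ∈ N (bar v ρ H) [] ∨ ρ z = 0 :=
      fun {z} z1 hz => or_iff_not_imp_right.2 fun z0 => ⟨z, hz.resolve_right (by
        rintro rfl; exact z0 p.zero), p.unit z1 z0, rfl⟩
    have e' : ρ b * ρ d = ρ x - ρ a * ρ y := by
      rw [← p.mul b1.le d1.le, e, p.sub k2 k1, p.mul a1.le k]
    refine ⟨w0, _, _, un k2 hx, un k hy, ?_, e'⟩
    by_contra n
    push Not at n
    exact w0 (by rw [e', (un k2 hx).resolve_left n.1, (un k hy).resolve_left n.2]; simp)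
  · push Not at k
    have y0 : y ≠ 0 := by rintro rfl; simp at k
    have k1 : v (a - x / y) < 1 := by
      rw [show a - x / y = -(x - a * y) / y by field_simp; ring, map_div₀, v.map_neg, w1]
      exact (div_lt_one₀ (zero_lt_one.trans k)).2 k
    have k2 : v (x / y) = 1 := by
      rw [show x / y = a - (a - x / y) by ring, v.map_sub_eq_of_lt_left (a1 ▸ k1), a1]
    refine g.pp_of_mem h2 ⟨x / y, h.div (hx.resolve_right (by rintro rfl; simp at k2))
      (hy.resolve_right y0), k2, ?_⟩ w0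
    have := (p.zero_iff k1.le).2 k1
    rw [p.sub a1.le k2.le] at this
    linear_combination -this

theorem springer {l : List K} (hl : ∀ a ∈ l, v a = 1) (h0 : 0 ∉ N (sqs k) (l.map ρ)) {w : K}
    (hw : w ∈ N (sqs K) l) : ∃ s ≠ 0, ∃ ε, v ε = 1 ∧ ρ ε ∈ N (sqs k) (l.map ρ) ∧ w = s ^ 2 * ε := by
  induction l generalizing w with
  | nil =>
    obtain ⟨s, s0, e⟩ := hw
    exact ⟨s, s0, 1, map_one v, p.one ▸ gp_sqs.one, by simp [e]⟩
  | cons a l ih =>
    have a1 := hl a (by simp)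
    have ih := @ih (fun b hb => hl b (by simp [hb])) fun k => h0 (N_sub_cons k)
    obtain ⟨x, y, hx, hy, hxy, rfl⟩ := hw
    have un : ∀ {x : K}, x ∈ N (sqs K) l ∨ x = 0 → ∃ s ε, v ε = 1 ∧ ρ ε ∈ N (sqs k) (l.map ρ) ∧
        x = s ^ 2 * ε := by
      rintro x (hx | rfl)
      · obtain ⟨s, -, h⟩ := ih hx
        exact ⟨s, h⟩
      · exact ⟨0, 1, map_one v, p.one ▸ Gp.sub_N _ gp_sqs.one, by simp⟩
    have ne : ∀ {x : K}, x ∈ N (sqs K) l → x ≠ 0 := fun hx => by
      obtain ⟨s, s0, ε, e1, -, rfl⟩ := ih hx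
      exact mul_ne_zero (pow_ne_zero 2 s0) (by rintro rfl; simp at e1)
    obtain ⟨s, ε, e1, e2, rfl⟩ := un hx
    obtain ⟨t, δ, d1, d2, rfl⟩ := un hy
    have fin : ∀ {r α β : K}, r ≠ 0 → v α ≤ 1 → v β ≤ 1 → α = 1 ∨ β = 1 → s = r * α → t = r * β →
        ∃ r ≠ 0, ∃ η, v η = 1 ∧ ρ η ∈ N (sqs k) ((a :: l).map ρ) ∧
          s ^ 2 * ε - a * (t ^ 2 * δ) = r ^ 2 * η := fun {r α β} r0 b1 b2 b3 b4 b5 => by
      have c1 : v (α ^ 2) ≤ 1 := by simpa using pow_le_one' b1 2
      have c2 : v (β ^ 2) ≤ 1 := by simpa using pow_le_one' b2 2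
      have c3 : v (α ^ 2 * ε) ≤ 1 := by rwa [map_mul, e1, mul_one]
      have c4 : v (β ^ 2 * δ) ≤ 1 := by rwa [map_mul, d1, mul_one]
      have c5 : v (a * (β ^ 2 * δ)) ≤ 1 := by rwa [map_mul, a1, one_mul]
      have m : ρ (α ^ 2 * ε - a * (β ^ 2 * δ)) ∈ N (sqs k) ((a :: l).map ρ) :=
        ⟨_, _, gp_sqs.sq_mul (ρ α) (.inl e2), gp_sqs.sq_mul (ρ β) (.inl d2),
          b3.imp (fun e => by simpa [e, p.one] using e2) (fun e => by simpa [e, p.one] using d2), by
            rw [p.sub c3 c5, p.mul a1.le c4, p.mul c1 e1.le, p.mul c2 d1.le, p.sq b1, p.sq b2]⟩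
      exact ⟨r, r0, _, p.unit (v.map_sub_le c3 c5) fun e => h0 (e ▸ m), m, by rw [b4, b5]; ring⟩
    have z : s = 0 → t = 0 → False := fun h1 h2 => hxy.elim (ne · (by simp [h1])) (ne · (by simp [h2]))
    rcases le_total (v t) (v s) with k | k
    · have s0 : s ≠ 0 := fun e => z e (by simpa [e] using k)
      exact fin s0 (map_one v).le (β := t / s) (by
        rw [map_div₀]; exact div_le_one_of_le₀ k zero_le) (.inl rfl) (by simp) (by field_simp)
    · have t0 : t ≠ 0 := fun e => z (by simpa [e] using k) e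
      exact fin t0 (α := s / t) (by rw [map_div₀]; exact div_le_one_of_le₀ k zero_le) (map_one v).le
        (.inr rfl) (by field_simp) (by simp)

end Pl

/-- The index of a subgroup. -/
noncomputable def idx (P : Set K) : ℕ := (Subgroup.closure {u : Kˣ | (u : K) ∈ P}).index

theorem Gp.mem_closure {P : Set K} (h : Gp P) {u : Kˣ} :
    u ∈ Subgroup.closure {u : Kˣ | (u : K) ∈ P} ↔ (u : K) ∈ P :=
  ⟨fun k => Subgroup.closure_induction (fun _ => id) h.one (fun _ _ _ _ => h.mul)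
    (fun x _ k => by simpa using h.inv k) k, fun k => Subgroup.subset_closure k⟩

/-- The group generated by `P` and `a`. -/
def ext (P : Set K) (a : K) : Set K := {x | x ∈ P ∨ x * a ∈ P}

theorem Gp.ext {P : Set K} (h : Gp P) (a : K) : Gp (ext P a) :=
  ⟨fun k => h.zero (by simpa [FS.ext] using k), fun {x y} hx hy => by
    rcases hx with hx | hx <;> rcases hy with hy | hy
    · exact .inl (h.mul hx hy)
    · exact .inr (mul_assoc x y a ▸ h.mul hx hy)
    · exact .inr (mul_right_comm x a y ▸ h.mul hx hy)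
    · exact .inl (h.of_sq (h.mul hx hy) (right_ne_zero_of_mul (h.ne hx)) (by ring)),
    fun k => .inl (h.sq k)⟩

theorem Gp.idx_ext {P : Set K} (h : Gp P) {a : K} (a0 : a ≠ 0) (ha : a ∉ P) :
    idx P = 2 * idx (FS.ext P a) := by
  rw [idx, ← Subgroup.relIndex_mul_index (Subgroup.closure_mono
    (show {u : Kˣ | (u : K) ∈ P} ⊆ {u : Kˣ | (u : K) ∈ FS.ext P a} from fun _ => .inl)),
    Subgroup.relIndex_eq_two_iff_exists_notMem_and.2 ⟨Units.mk0 a a0, ?_, ?_, fun b hb => ?_⟩, idx]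
  · exact (h.ext a).mem_closure.2 (.inr (pow_two a ▸ h.sq a0))
  · exact fun k => ha (h.mem_closure.1 k)
  · rw [h.mem_closure, h.mem_closure]
    exact ((h.ext a).mem_closure.1 hb).symm

theorem Gp.exists_notMem {P : Set K} (h : Gp P) (k : 2 ∣ idx P) : ∃ a ≠ 0, a ∉ P := by
  by_contra n
  push Not at n
  rw [idx, Subgroup.index_eq_one.2 (eq_top_iff.2 fun u _ => h.mem_closure.2 (n u u.ne_zero))] at k
  omega

/-- The elements whose value is a square. -/
def ev (v : Valuation K Γ) : Set K := {x | x ≠ 0 ∧ ∃ s, v x = v s ^ 2}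

theorem gp_ev (v : Valuation K Γ) : Gp (ev v) :=
  ⟨fun k => k.1 rfl, fun ⟨a, s, e⟩ ⟨b, t, f⟩ => ⟨mul_ne_zero a b, s * t, by simp [e, f, mul_pow]⟩,
    fun {a} h => ⟨pow_ne_zero 2 h, a, by simp⟩⟩

theorem idx_ev (v : Valuation K Γ) : idx (ev v) = ((Units.map (v : K →* Γ)).range.map
    (powMonoidHom 2)).relIndex (Units.map (v : K →* Γ)).range := by
  rw [← Subgroup.index_comap, idx]
  congr 1
  ext u
  rw [(gp_ev v).mem_closure]
  constructor
  · rintro ⟨-, s, e⟩
    have s0 : s ≠ 0 := by rintro rfl; simp at e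
    exact ⟨_, ⟨Units.mk0 s s0, rfl⟩, Units.ext e.symm⟩
  · rintro ⟨_, ⟨s, rfl⟩, e⟩
    exact ⟨u.ne_zero, s, (congrArg Units.val e).symm⟩

section

variable {F : Type*} [Field F] [Algebra F K] [FiniteDimensional F K]

theorem idx_ev_comap (v : Valuation K Γ) : idx (ev (v.comap (algebraMap F K))) = idx (ev v) := by
  classical
  rw [idx_ev, idx_ev]
  set A := (Units.map (v : K →* Γ)).range
  set B := (Units.map (v.comap (algebraMap F K) : F →* Γ)).range
  have BA : B ≤ A := by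
    rintro _ ⟨x, rfl⟩
    exact ⟨Units.map (algebraMap F K : F →* K) x, rfl⟩
  have le : ∀ C : Subgroup Γˣ, C.map (powMonoidHom 2) ≤ C := by
    rintro C _ ⟨x, h, rfl⟩
    exact pow_mem h 2
  have inj : Function.Injective (powMonoidHom 2 : Γˣ →* Γˣ) := (injective_iff_map_eq_one _).2
    fun a h => Units.ext ((pow_eq_one_iff_left two_ne_zero).1 (congrArg Units.val h))
  have e0 : B.relIndex A ≠ 0 := by
    rw [← Subgroup.index_comap]
    have : LinearIndependent F fun q : Kˣ ⧸ B.comap (Units.map (v : K →* Γ)) => (q.out : K) := by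
      refine linearIndependent_iff'.2 fun s g e i hi => by_contra fun gi => ?_
      obtain ⟨j, hj, mx⟩ := s.exists_max_image (fun q => v (g q • (q.out : K))) ⟨i, hi⟩
      have j0 : v (g j • (j.out : K)) ≠ 0 := fun k => by simpa [k, gi] using mx i hi
      refine j0 ?_
      rw [← v.map_sum_eq_of_lt hj (f := fun q => g q • (q.out : K)) fun q hq => ?_, e, map_zero]
      rw [Finset.mem_sdiff, Finset.mem_singleton] at hq
      refine (mx q hq.1).lt_of_ne fun k => hq.2 ?_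
      have q0 : g q ≠ 0 := fun z => j0 (by simp [← k, z])
      have g0 : g j ≠ 0 := fun z => j0 (by simp [z])
      rw [← q.out_eq, ← j.out_eq]
      refine QuotientGroup.eq.2 ⟨Units.mk0 (g q / g j) (div_ne_zero q0 g0), Units.ext ?_⟩
      simp only [Algebra.smul_def, map_mul] at k
      simp only [Units.coe_map, Units.val_mk0, MonoidHom.coe_coe, Valuation.comap_apply, map_div₀,
        map_mul, map_inv, Units.val_mul, Units.val_inv_eq_inv_val]
      have : v (algebraMap F K (g j)) ≠ 0 := by simpa using g0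
      have : v (q.out : K) ≠ 0 := by simp
      field_simp
      exact k
    have := this.finite
    exact Subgroup.index_ne_zero_of_finite
  have h1 := Subgroup.relIndex_mul_relIndex _ _ _ (le B) BA
  have h2 := Subgroup.relIndex_mul_relIndex _ _ _ (Subgroup.map_mono (f := powMonoidHom 2) BA) (le A)
  rw [Subgroup.relIndex_map_map_of_injective _ _ inj, ← h1, mul_comm] at h2
  exact (mul_right_cancel₀ e0 h2).symm

theorem Pl.exists_sub {v : Valuation K Γ} {ρ : K → k} (p : Pl v ρ) :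
    ∃ (E : Subfield k) (σ : F → E), Pl (v.comap (algebraMap F K)) σ ∧ FiniteDimensional E k := by
  classical
  let E : Subfield k :=
    { carrier := {z | ∃ y, v (algebraMap F K y) ≤ 1 ∧ ρ (algebraMap F K y) = z}
      zero_mem' := ⟨0, by simp, by simp [p.zero]⟩
      one_mem' := ⟨1, by simp, by simp [p.one]⟩
      add_mem' := fun ⟨x, a, b⟩ ⟨y, c, d⟩ => ⟨x + y, by
        rw [map_add]; exact ⟨v.map_add_le a c, by rw [p.add a c, b, d]⟩⟩
      mul_mem' := fun ⟨x, a, b⟩ ⟨y, c, d⟩ => ⟨x * y, by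
        rw [map_mul]; exact ⟨map_mul v _ _ ▸ mul_le_one' a c, by rw [p.mul a c, b, d]⟩⟩
      neg_mem' := fun ⟨x, a, b⟩ => ⟨0 - x, by
        rw [map_sub, map_zero]
        exact ⟨by simpa using a, by rw [p.sub (by simp) a, b, p.zero, zero_sub]⟩⟩
      inv_mem' := fun z ⟨x, a, b⟩ => by
        by_cases z0 : z = 0
        · exact ⟨x, a, by simp [b, z0]⟩
        have := p.unit a (b ▸ z0)
        exact ⟨1 / x, by simp [this], by rw [map_div₀, map_one, p.div (by simp) this, p.one, b,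
          one_div]⟩ }
  let σ : F → E := fun y => if h : v (algebraMap F K y) ≤ 1 then ⟨_, y, h, rfl⟩ else 0
  have hσ : ∀ {y}, v (algebraMap F K y) ≤ 1 → (σ y : k) = ρ (algebraMap F K y) := fun h => by
    simp only [σ, dif_pos h]
  refine ⟨E, σ, ⟨fun {x y} hx hy => Subtype.ext ?_, fun {x y} hx hy => Subtype.ext ?_,
    Subtype.ext ?_, fun {x} hx => ?_, fun ⟨_, y, h, e⟩ => ⟨y, h, Subtype.ext ((hσ h).trans e)⟩⟩, ?_⟩
  · rw [Subfield.coe_add, hσ hx, hσ hy, hσ ((v.comap _).map_add_le hx hy), map_add, p.add hx hy]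
  · rw [Subfield.coe_mul, hσ hx, hσ hy, hσ (by rw [map_mul, map_mul]; exact mul_le_one' hx hy),
      map_mul, p.mul hx hy]
  · rw [hσ (by simp), map_one, p.one, Subfield.coe_one]
  · rw [Subtype.ext_iff, hσ hx]; exact p.zero_iff hx
  let b := Module.Basis.ofVectorSpace E k
  choose y y1 y2 using fun i => p.surj (b i)
  have : LinearIndependent F y := by
    refine linearIndependent_iff'.2 fun s g e i hi => by_contra fun gi => ?_
    obtain ⟨j, hj, mx⟩ := s.exists_max_image (fun q => v (algebraMap F K (g q))) ⟨i, hi⟩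
    have j0 : g j ≠ 0 := fun k => by simpa [k, gi] using mx i hi
    have le : ∀ q ∈ s, v (algebraMap F K (g q / g j)) ≤ 1 := fun q hq => by
      rw [map_div₀, map_div₀]; exact div_le_one_of_le₀ (mx q hq) zero_le
    have := linearIndependent_iff'.1 b.linearIndependent s (fun q => σ (g q / g j)) (by
      rw [← p.zero, ← smul_zero (g j)⁻¹, ← e, Finset.smul_sum, p.sum]
      · refine Finset.sum_congr rfl fun q hq => ?_
        rw [smul_smul, inv_mul_eq_div, Algebra.smul_def (g q / g j), p.mul (le q hq) (y1 q), y2,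
          ← hσ (le q hq)]
        rfl
      · intro q hq
        rw [smul_smul, inv_mul_eq_div, Algebra.smul_def, map_mul]
        exact mul_le_one' (le q hq) (y1 q)) j hj
    have := congrArg Subtype.val this
    simp [j0, hσ, p.one] at this
  have := this.finite
  exact Module.Finite.of_basis b

end

theorem greedy (v : Valuation K Γ) (j : ℕ) : ∀ (P : Set K) (l : List K), Gp P → ev v ⊆ P →
    2 ^ j ∣ idx P → (∀ a ∈ l, a ≠ 0) → N (sqs K) l ⊆ P →
      ∃ l' : List K, (∀ a ∈ l', a ≠ 0) ∧ l'.length = l.length + j ∧ 0 ∉ N (sqs K) l' := by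
  induction j with
  | zero => exact fun P l h _ _ hl k => ⟨l, hl, rfl, fun z => h.zero (k z)⟩
  | succ j ih =>
    intro P l h s d hl k
    obtain ⟨a, a0, ha⟩ := h.exists_notMem ((dvd_pow_self 2 j.succ_ne_zero).trans d)
    rw [h.idx_ext a0 ha, pow_succ', Nat.mul_dvd_mul_iff_left two_pos] at d
    have same : ∀ {x y : K}, y ≠ 0 → v x = v y → x / y ∈ P := fun {x y} y0 e =>
      s ⟨div_ne_zero (by rintro rfl; exact y0 (by simpa using e.symm)) y0, 1, by simp [e, y0]⟩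
    obtain ⟨l', h1, h2, h3⟩ := ih _ (a :: l) (h.ext a) (s.trans fun _ => .inl) d
      (by simpa [a0] using hl) (by
      rintro _ ⟨x, y, hx, hy, hxy, rfl⟩
      rcases lt_trichotomy (v x) (v (a * y)) with c | c | c
      · have y0 : a * y ≠ 0 := by rintro z; simp [z] at c
        have := h.mul (same y0 (v.map_sub_eq_of_lt_right c))
          (h.mul (h.sq a0) (k (hy.resolve_right (right_ne_zero_of_mul y0))))
        refine .inr (by convert this using 1; field_simp [right_ne_zero_of_mul y0])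
      · by_cases y0 : y = 0
        · obtain rfl : x = 0 := by simpa [y0] using c
          exact (h.zero (k (by simpa [y0] using hxy))).elim
        have x0 : x ≠ 0 := by rintro rfl; simpa [a0, y0] using c.symm
        have := h.div (h.mul (same x0 c.symm) (k (hx.resolve_right x0))) (k (hy.resolve_right y0))
        exact (ha (by convert this using 1; field_simp)).elim
      · have x0 : x ≠ 0 := by rintro rfl; simp at c
        have := h.mul (same x0 (v.map_sub_eq_of_lt_left c)) (k (hx.resolve_right x0))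
        exact .inl (by rwa [div_mul_cancel₀ _ x0] at this))
    exact ⟨l', h1, by simp [h2]; ring, h3⟩

theorem Pl.fside {v : Valuation K Γ} {ρ : K → k} (p : Pl v ρ) {j : ℕ} (d : 2 ^ j ∣ idx (ev v))
    {l : List k} (hl : ∀ a ∈ l, a ≠ 0) (h0 : 0 ∉ N (sqs k) l) :
    ∃ l' : List K, (∀ a ∈ l', a ≠ 0) ∧ l'.length = l.length + j ∧ 0 ∉ N (sqs K) l' := by
  obtain ⟨u, hu, rfl⟩ : ∃ u : List K, (∀ a ∈ u, v a = 1) ∧ u.map ρ = l := by
    clear h0
    induction l with
    | nil => exact ⟨[], by simp, rfl⟩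
    | cons a l ih =>
      obtain ⟨u, hu, rfl⟩ := ih fun b hb => hl b (by simp [hb])
      obtain ⟨x, hx, rfl⟩ := p.lift (hl a (by simp))
      exact ⟨x :: u, by simpa [hx] using hu, rfl⟩
  rw [List.length_map]
  refine greedy v j _ u (gp_ev v) subset_rfl d (fun a ha e => by simpa [e] using hu a ha)
    fun w hw => ?_
  obtain ⟨s, s0, ε, e1, -, rfl⟩ := p.springer hu h0 hw
  exact ⟨mul_ne_zero (pow_ne_zero 2 s0) (by rintro rfl; simp at e1), s, by simp [e1]⟩

theorem Good.knorm {H : Set K} (h : Good H) (v : Valuation K Γ) {l : List K}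
    (hl : ∀ a ∈ l, a ≠ 0) : ∃ (u : List K) (j : ℕ), (∀ a ∈ u, v a = 1) ∧
      l.length = u.length + j ∧ 2 ^ j ∣ idx (ev v) ∧ N H u ⊆ N H l := by
  suffices ∃ (u q : List K) (P : Set K), Gp P ∧ (∀ a ∈ u, v a = 1) ∧
      l.length = u.length + q.length ∧ idx (ev v) = 2 ^ q.length * idx P ∧ N H l = N H (q ++ u) ∧
      ∀ x ∈ P, ∃ t ≠ 0, ∃ ε, v ε = 1 ∧ Sim (N H l) t ∧ x = t * ε by
    obtain ⟨u, q, P, -, h1, h2, h3, h4, -⟩ := this
    exact ⟨u, _, h1, h2, ⟨_, h3⟩, h4 ▸ N_sub_append q u⟩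
  induction l with
  | nil =>
    refine ⟨[], [], _, gp_ev v, by simp, rfl, by simp, rfl, ?_⟩
    rintro x ⟨x0, s, e⟩
    have s0 : s ≠ 0 := by rintro rfl; simp [x0] at e
    exact ⟨s ^ 2, pow_ne_zero 2 s0, x / s ^ 2, by simp [e, s0], h.toGp.sim (h.sq s0) _,
      by field_simp⟩
  | cons a l ih =>
    obtain ⟨u, q, P, g, h1, h2, h3, h4, h5⟩ := ih fun b hb => hl b (by simp [hb])
    have a0 := hl a (by simp)
    have h6 : ∀ x ∈ P, ∃ t ≠ 0, ∃ ε, v ε = 1 ∧ Sim (N H (a :: l)) t ∧ x = t * ε := fun x hx =>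
      let ⟨t, t0, ε, a, b, c⟩ := h5 x hx
      ⟨t, t0, ε, a, b.cons, c⟩
    by_cases k : a ∈ P
    · obtain ⟨t, t0, ε, e1, e2, rfl⟩ := h5 a k
      refine ⟨ε :: u, q, P, g, by simpa [e1] using h1, by simp [h2]; ring, h3, ?_, h6⟩
      rw [h.scale t0 e2, N_cons_congr h4, N_perm List.perm_middle]
    · refine ⟨u, a :: q, _, g.ext a, h1, by simp [h2]; ring, ?_, N_cons_congr h4, ?_⟩
      · rw [h3, g.idx_ext a0 k, List.length_cons]; ring
      rintro x (hx | hx)
      · exact h6 x hx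
      obtain ⟨t, t0, ε, e1, e2, e3⟩ := h6 _ hx
      refine ⟨t * (-a * a⁻¹ ^ 2), by simp [t0, a0], -ε, by simp [e1], e2.mul ((h.sim (by simp) a0
        (h.neg_pp a0)).mul (h.toGp.sim (h.sq (inv_ne_zero a0)) _)), ?_⟩
      field_simp
      exact e3

end Pool.Agent.Lib.MP_887a05_al.FS
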