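import Pool.Agent.Lib.MP_887a05_al.FSRes

/-! Subgroups that are open for an absolute value. -/

namespace Pool.Agent.Lib.MP_887a05_al.FS

open scoped NNReal

universe u

variable {K : Type u} [Field K] {H : Set K}

theorem arch (h : Gp H) (g : AbsoluteValue K ℝ) {ε : ℝ} (ε0 : 0 < ε)
    (hε : ∀ x, g x < ε → 1 + x ∈ H) (nb : ¬ ∀ n : ℕ, g n ≤ 1) {a : K} (a0 : a ≠ 0) (ha : a ∉ H)
    {x y : K} (hx : x ∈ H) (hy : y ∈ H) : x + y ∈ H := by
  obtain ⟨n, hn⟩ : ∃ n : ℕ, 1 < g n := by simpa using nb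
  have : CharZero K := by
    obtain ⟨p, hp⟩ := CharP.exists K
    rcases CharP.char_is_prime_or_zero K p with pp | rfl
    · have := Fact.mk pp
      have e : (n : K) ^ p = n := map_natCast (frobenius K p) n
      have := congrArg g e
      rw [map_pow] at this
      exact absurd this (by simpa using (pow_lt_pow_right₀ hn pp.one_lt).ne')
    · exact CharP.charP_to_charZero K
  have mono : ∀ p q : ℚ, |p| ≤ |q| → g p ≤ g q := fun p q k =>
    (Rat.AbsoluteValue.equiv_real_of_unbounded (f := g.comp (Rat.castHom K).injective)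
      (by simpa [AbsoluteValue.comp] using ⟨n, hn⟩) p q).2 (by simpa using mod_cast k)
  have L : ∀ a ∉ H, ∀ δ > 0, ∃ q : ℚ, 0 ≤ q ∧ g (a + q) < δ := fun a ha δ δ0 => by
    by_contra k
    push Not at k
    obtain ⟨j, hj⟩ := pow_unbounded_of_one_lt (max (g a / ε) (1 / (ε * δ))) hn
    have h1 := one_le_pow₀ (n := j) hn.le
    rw [← map_pow, ← Nat.cast_pow] at hj h1
    generalize n ^ j = M at hj h1
    have G0 : 0 < g M := by linarith
    have M0 : (M : K) ≠ 0 := g.pos_iff.1 G0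
    rw [max_lt_iff, div_lt_iff₀ ε0, div_lt_iff₀ (by positivity)] at hj
    have : ∀ i : ℕ, a + i / M ∉ H := fun i => by
      induction i with
      | zero => simpa using ha
      | succ i ih =>
        have k := k (i / M) (by positivity)
        push_cast at k ⊢
        have b0 : a + i / M ≠ 0 := g.pos_iff.1 (δ0.trans_le k)
        refine fun m => ih (h.cancel (hε ((M : K)⁻¹ / (a + i / M)) ?_) ?_)
        · rw [map_div₀, map_inv₀, div_lt_iff₀ (g.pos b0), inv_lt_iff_one_lt_mul₀ G0]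
          nlinarith [mul_le_mul_of_nonneg_left k (mul_pos ε0 G0).le]
        · rwa [add_mul, one_mul, div_mul_cancel₀ _ b0, add_assoc, inv_eq_one_div, ← add_div]
    refine this (M ^ 3) ?_
    have := h.mul (h.sq M0) (hε (a / M ^ 2) (by
      rw [map_div₀, map_pow, div_lt_iff₀ (by positivity)]
      nlinarith [mul_le_mul_of_nonneg_left h1 (mul_pos ε0 G0).le]))
    convert this using 1
    push_cast
    field_simp
    ring
  have m1 : -1 ∉ H := fun m => by
    obtain ⟨p, p0, hp⟩ := L a ha (g a / 2) (half_pos (g.pos a0))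
    obtain ⟨q, q0, hq⟩ := L (-a) (fun k => ha (by simpa using h.mul m k)) (g a / 2)
      (half_pos (g.pos a0))
    by_cases z : p + q = 0
    · obtain rfl : p = 0 := by linarith
      rw [Rat.cast_zero, add_zero] at hp
      linarith [g.pos a0]
    have z' : 0 < p + q := lt_of_le_of_ne (by positivity) (Ne.symm z)
    have e : a = (q / (p + q) : ℚ) * (a + p) - (p / (p + q) : ℚ) * (-a + q) := by
      have : (p : K) + q ≠ 0 := by exact_mod_cast z
      push_cast
      field_simp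
      ring
    have b : ∀ r : ℚ, 0 ≤ r → r ≤ p + q → g (r / (p + q) : ℚ) ≤ 1 := fun r r0 r1 => by
      simpa using mono (r / (p + q)) 1 (by
        rw [abs_one, abs_of_nonneg (by positivity)]; exact div_le_one_of_le₀ r1 z'.le)
    have := g.sub_le_add ((q / (p + q) : ℚ) * (a + p)) ((p / (p + q) : ℚ) * (-a + q))
    rw [← e, map_mul, map_mul] at this
    linarith [mul_le_of_le_one_left (g.nonneg (a + p)) (b q q0 (by linarith)),
      mul_le_of_le_one_left (g.nonneg (-a + q)) (b p p0 (by linarith))]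
  by_contra k
  have x0 := h.ne hx
  obtain ⟨p, p0, hp⟩ := L ((x + y) / x) (fun m => k (by simpa [x0] using h.mul m hx)) (1 / 2)
    (by norm_num)
  obtain ⟨q, q0, hq⟩ := L (-(y / x)) (fun m => m1 (h.cancel (h.div hy hx) (by simpa using m)))
    (1 / 2) (by norm_num)
  have := g.add_le ((x + y) / x + p) (-(y / x) + q)
  rw [show (x + y) / x + p + (-(y / x) + q) = (1 + p + q : ℚ) by push_cast; field_simp; ring] at this
  have := mono 1 (1 + p + q) (by rw [abs_one, abs_of_nonneg (by positivity)]; linarith)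
  rw [Rat.cast_one, map_one] at this
  linarith

/-- There is an anisotropic Pfister form with at least `m - 1` slots. -/
def An (F : Type*) [Field F] (m : ℕ) : Prop :=
  ∃ l : List F, (∀ a ∈ l, a ≠ 0) ∧ m ≤ l.length + 1 ∧ 0 ∉ N (sqs F) l

theorem an_of_add {F : Type*} [Field F] [Algebra F K] (h : Gp H)
    (add : ∀ {x y}, x ∈ H → y ∈ H → x + y ∈ H) (m : ℕ) : An F m := by
  have : ∀ m, ∀ w ∈ N (sqs F) (List.replicate m (-1)), algebraMap F K w ∈ H := fun m => by
    induction m with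
    | zero =>
      rintro _ ⟨s, s0, rfl⟩
      exact map_pow (algebraMap F K) s 2 ▸ h.sq (by simpa using s0)
    | succ m ih =>
      rintro _ ⟨x, y, hx | rfl, hy | rfl, hxy, rfl⟩
      · simpa using add (ih x hx) (ih y hy)
      · simpa using ih x hx
      · simpa using ih y hy
      · simpa using ih 0 (hxy.elim id id)
  exact ⟨List.replicate m (-1), by simp, by simp, fun k => h.zero (by simpa using this m 0 k)⟩

section

variable (v : Valuation K ℝ≥0) {ε : ℝ≥0} (ε0 : 0 < ε) (hε : ∀ x, v x < ε → 1 + x ∈ H)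
include ε0 hε

theorem newton (h : Gp H) (v2 : v 2 = 1) {x : K} (hx : v x < 1) : 1 + x ∈ H := by
  have : ∀ (k : ℕ) (y : K), v y ≤ v x → v x ^ k * v y < ε → 1 + y ∈ H := fun k => by
    induction k with
    | zero => exact fun y _ k => hε y (by simpa using k)
    | succ k ih =>
      intro y h1 h2
      have e : v (1 + y / 2) = 1 := v.map_one_add_of_lt (by simpa [v2] using h1.trans_lt hx)
      have n0 : 1 + y / 2 ≠ 0 := fun z => by simp [z] at e
      have t0 : (2 : K) ≠ 0 := fun z => by simp [z] at v2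
      have e' : v (-(y / 2) ^ 2 / (1 + y / 2) ^ 2) = v y * v y := by simp [e, v2, sq]
      have := h.mul (h.sq n0) (ih (-(y / 2) ^ 2 / (1 + y / 2) ^ 2)
        (e' ▸ (mul_le_of_le_one_left' (h1.trans hx.le)).trans h1)
        (lt_of_le_of_lt (by rw [e', pow_succ, mul_assoc]; gcongr) h2))
      convert this using 1
      rw [mul_add, mul_div_cancel₀ _ (pow_ne_zero 2 n0)]
      field_simp
      ring
  obtain ⟨k, hk⟩ := exists_pow_lt_of_lt_one ε0 hx
  exact this k x le_rfl ((mul_le_of_le_one_right' hx.le).trans_lt hk)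

theorem depth (h : Good H) {γ : ℝ≥0} (γ1 : γ < 1) (j : ℕ)
    (R : ∀ (c : List K) (z : K) (L : List K), c.length = j → (∀ a ∈ c, a ≠ 0) → z ≠ 0 →
      ∃ (c' : List K) (w : K), c'.length = j ∧ (∀ a ∈ c', a ≠ 0) ∧ v w ≤ γ ∧
        N H (c ++ z :: L) = N H (c' ++ (1 + w) :: L))
    {c : List K} {z b : K} (len : c.length = j) (c0 : ∀ a ∈ c, a ≠ 0) (z0 : z ≠ 0) (b0 : b ≠ 0)
    (L : List K) : 0 ∈ N H (c ++ [z, b] ++ L) := by
  have ne : ∀ {y : K}, v y < 1 → 1 + y ≠ 0 := fun k z => by simpa [z] using v.map_one_add_of_lt k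
  have : ∀ (k : ℕ) (y : K), v y < 1 → γ ^ k * v y < ε → ∀ (c : List K) (z : K), c.length = j →
      (∀ a ∈ c, a ≠ 0) → z ≠ 0 → 0 ∈ N H (c ++ [z, 1 + y]) := fun k => by
    induction k with
    | zero => exact fun y _ k _ _ _ _ _ => h.iso_of_mem (by simp) (hε y (by simpa using k))
    | succ k ih =>
      intro y h1 h2 c z len c0 z0
      by_cases y0 : y = 0
      · exact h.iso_of_mem (a := 1) (by simp [y0]) h.one
      obtain ⟨c', w, len', c0', hw, e⟩ := R c z [1 + y] len c0 z0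
      have u0 := ne h1
      have z0' : -y * (1 + w) ≠ 0 := mul_ne_zero (neg_ne_zero.2 y0) (ne (hw.trans_lt γ1))
      have e1 : v (y * w / (1 + y)) ≤ γ * v y := by
        rw [map_div₀, v.map_one_add_of_lt h1, div_one, map_mul, mul_comm]; gcongr
      have h3 : v (y * w / (1 + y)) < 1 := e1.trans_lt (mul_lt_one_of_lt_of_le γ1 h1.le)
      have e2 : 1 - -y * (1 + w) = (1 + y) * (1 + y * w / (1 + y)) := by field_simp; ring
      have e3 : N H [1 + w, 1 + y] = N H [-y * (1 + w), 1 + y * w / (1 + y)] := by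
        rw [← h.move (l := [1 + y]) (by simp) u0 (t := -y) (by
          simpa using h.one_sub_pp (a := 1 + y) (by simpa using y0)), N_perm (.swap _ _ _),
          ← h.move (by simp) z0' ((h.gp z0').div (h.one_sub_pp (e2 ▸ mul_ne_zero u0 (ne h3)))
            ((h.gp z0').sq u0)), N_perm (.swap _ _ _), e2]
        congr 3
        field_simp
      rw [e, N_append, e3, ← N_append]
      exact ih _ h3 (lt_of_le_of_lt (by rw [pow_succ, mul_assoc]; gcongr) h2) _ _ len' c0' z0'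
  obtain ⟨c', w, len', c0', hw, e⟩ := R c z [b] len c0 z0
  obtain ⟨k, hk⟩ := exists_pow_lt_of_lt_one ε0 γ1
  rw [N_perm List.perm_append_comm]
  refine N_sub_append _ _ ?_
  rw [e, N_perm ((List.Perm.swap _ _ _).append_left _)]
  exact this k w (hw.trans_lt γ1) ((mul_le_of_le_one_right' (hw.trans γ1.le)).trans_lt hk) _ _
    len' c0' b0

end

theorem approx (v : Valuation K ℝ≥0) {m : ℕ} (hs : Cov (sqs K) m) (v2 : v 2 < 1) {x : K}
    (dense : ∀ α β : ℝ≥0, α < β → ∃ s, α < v s ^ 2 * v x ∧ v s ^ 2 * v x < β) :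
    ∃ s ≠ 0, ∃ w, v w ^ 2 ≤ v 2 ∧ x = s ^ 2 * (1 + w) := by
  obtain ⟨θ, mono, hθ, -⟩ := exists_seq_strictMono_tendsto' v2
  choose s h1 h2 using fun i => dense _ _ (mono (Nat.lt_succ_self i))
  obtain ⟨R, -, hR⟩ := hs
  have e : ∀ i, v (1 + s i ^ 2 * x) = 1 := fun i =>
    v.map_one_add_of_lt (by simpa using (h2 i).trans (hθ _).2)
  have ne : ∀ i, 1 + s i ^ 2 * x ≠ 0 := fun i z => by simpa [z] using e i
  choose r hr hr' using fun i => hR _ (ne i)
  obtain ⟨i, j, ij, k⟩ := R.finite_toSet.exists_lt_map_eq_of_forall_mem hr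
  obtain ⟨w, w0, hw⟩ := gp_sqs.div (hr' j) (hr' i)
  rw [k, mul_div_mul_right _ _ (right_ne_zero_of_mul (gp_sqs.ne (hr' j)))] at hw
  have w1 : v w = 1 := v_sq (by rw [← hw, map_div₀, e, e, div_one])
  rw [div_eq_iff (ne i)] at hw
  have lt : v (s i) < v (s j) := lt_of_pow_lt_pow_left₀ 2 zero_le (lt_of_mul_lt_mul_right
    ((h2 i).trans ((mono.monotone ij).trans_lt (h1 j))) zero_le)
  have lo := (hθ j).1.trans (h1 j)
  generalize s i = μ, s j = τ at hw lt lo
  have lt' : v (w * μ) < v τ := by simpa [w1] using lt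
  have B := v.map_add_eq_of_lt_left lt'
  have B' := v.map_sub_eq_of_lt_left lt'
  have τ0 : 0 < v τ := zero_le.trans_lt lt
  have id : x * ((τ + w * μ) * (τ - w * μ)) = (w + 1) * (w + 1 - 2) := by linear_combination hw
  have lo' : v 2 < v (w + 1) * v (w + 1 - 2) := by
    rwa [← map_mul, ← id, map_mul, map_mul, B, B', mul_comm, ← sq]
  have A : v 2 < v (w + 1) := not_le.1 fun k => lo'.not_ge
    ((mul_le_of_le_one_right' ((v.map_sub_le k le_rfl).trans v2.le)).trans k)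
  rw [v.map_sub_eq_of_lt_left A, ← sq] at lo'
  have A0 : 0 < v (w + 1) := zero_le.trans_lt A
  have a0 : w + 1 ≠ 0 := by simpa using A0.ne'
  have b0 : τ + w * μ ≠ 0 := v.ne_zero_iff.1 (B ▸ τ0).ne'
  have b0' : τ - w * μ ≠ 0 := v.ne_zero_iff.1 (B' ▸ τ0).ne'
  refine ⟨(w + 1) / (τ + w * μ), div_ne_zero a0 b0,
    2 * (w * μ) / (τ - w * μ) - 2 / (w + 1) * ((τ + w * μ) / (τ - w * μ)), ?_, ?_⟩
  · have p : v (2 * (w * μ) / (τ - w * μ)) ^ 2 ≤ v 2 := by
      rw [map_div₀, map_mul, B', mul_div_assoc]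
      have := (mul_le_of_le_one_right' (div_le_one_of_le₀ lt'.le zero_le) : v 2 * _ ≤ _)
      exact (pow_le_pow_left' this 2).trans (by rw [sq]; exact mul_le_of_le_one_right' v2.le)
    have q : v (2 / (w + 1) * ((τ + w * μ) / (τ - w * μ))) ^ 2 ≤ v 2 := by
      rw [map_mul, map_div₀, map_div₀, B, B', div_self τ0.ne', mul_one, div_pow,
        div_le_iff₀ (pow_pos A0 2), sq]
      gcongr
    rcases le_max_iff.1 (v.map_sub _ _) with k | k
    exacts [(pow_le_pow_left' k 2).trans p, (pow_le_pow_left' k 2).trans q]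
  · rw [← eq_div_iff (mul_ne_zero b0 b0')] at id
    rw [id]
    field_simp
    ring

theorem an_of_le_one (F : Type*) [Field F] {m : ℕ} (h : m ≤ 1) : An F m :=
  ⟨[], by simp, h, gp_sqs.zero⟩

theorem abs_case {F : Type*} [Field F] [Algebra F K] [FiniteDimensional F K] (h : Good H) {m : ℕ}
    (hs : Cov (sqs K) m) (nv : ∀ O : ValuationSubring K, (∀ x ∉ O, 1 + x⁻¹ ∈ H) → O = ⊤) {a : K}
    (a0 : a ≠ 0) (ha : a ∉ H) (g : AbsoluteValue K ℝ) {ε : ℝ} (ε0 : 0 < ε)
    (hε : ∀ x, g x < ε → 1 + x ∈ H) {t : K} (t0 : t ≠ 0) (ht : g t < 1) {l : List K}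
    (hl : ∀ a ∈ l, a ≠ 0) (h0 : 0 ∉ N H l) : An F l.length := by
  by_cases nb : ∀ n : ℕ, g n ≤ 1
  swap
  · exact an_of_add h.toGp (arch h.toGp g ε0 hε nb a0 ha) _
  obtain ⟨v, hv⟩ : ∃ v : Valuation K ℝ≥0, ∀ x, (v x : ℝ) = g x := by
    let _ := g.toNormedField
    have := IsUltrametricDist.isUltrametricDist_of_forall_norm_natCast_le_one (R := K) nb
    exact ⟨NormedField.valuation, fun _ => rfl⟩
  lift ε to ℝ≥0 using ε0.le
  simp only [← hv] at hε ht nb
  norm_cast at hε ht ε0 nb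
  have pos : ∀ {x : K}, x ≠ 0 → 0 < v x := fun k => v.pos_iff.2 k
  have v2 : v 2 < 1 := (by simpa using nb 2 : v 2 ≤ 1).lt_of_ne fun v2 => by
    have := nv v.valuationSubring fun x hx => newton v ε0 hε h.toGp v2 (by
      rw [Valuation.mem_valuationSubring_iff, not_le] at hx
      rw [map_inv₀]; exact inv_lt_one_of_one_lt₀ hx)
    have : v t⁻¹ ≤ 1 := (v.mem_valuationSubring_iff _).1 (this ▸ ValuationSubring.mem_top _)
    rw [map_inv₀, inv_le_one₀ (pos t0)] at this
    exact this.not_gt ht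
  let S : AddSubgroup ℝ :=
    { carrier := {r | ∃ x ≠ 0, r = Real.log (v x)}
      zero_mem' := ⟨1, one_ne_zero, by simp⟩
      add_mem' := fun ⟨x, a, b⟩ ⟨y, c, d⟩ => ⟨x * y, mul_ne_zero a c, by
        rw [map_mul, NNReal.coe_mul, Real.log_mul (by simpa) (by simpa), b, d]⟩
      neg_mem' := fun ⟨x, a, b⟩ => ⟨x⁻¹, inv_ne_zero a, by simp [b]⟩ }
  have sc : ∀ {z s w : K} (L : List K), s ≠ 0 → z = s ^ 2 * (1 + w) →
      N H (z :: L) = N H ((1 + w) :: L) := fun L s0 e =>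
    e ▸ h.scale (pow_ne_zero 2 s0) (h.toGp.sim (h.sq s0) L)
  rcases S.dense_or_cyclic with d | ⟨α, d⟩
  · refine an_of_le_one F (not_lt.1 fun len => h0 ?_)
    obtain _ | ⟨z, _ | ⟨b, L⟩⟩ := l
    · simp at len
    · simp at len
    refine depth v ε0 hε h (γ := NNReal.sqrt (v 2)) (by
      simpa using NNReal.sqrt_lt_sqrt.2 v2) 0 (c := [])
      (fun c z L len _ z0 => ?_) rfl (by simp) (hl z (by simp)) (hl b (by simp)) L
    obtain ⟨s, s0, w, hw, e⟩ := approx (x := z) v hs v2 fun α β lt => by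
      obtain ⟨α', p, q⟩ := exists_between lt
      have α0 : (0 : ℝ) < α' := by exact_mod_cast zero_le.trans_lt p
      obtain ⟨_, ⟨s, s0, rfl⟩, k1, k2⟩ := d.exists_between
        (show (Real.log α' - Real.log (v z)) / 2 < (Real.log β - Real.log (v z)) / 2 by
          have := Real.log_lt_log α0 (show (α' : ℝ) < β from q); linarith)
      have e : Real.log (v s ^ 2 * v z : ℝ≥0) = 2 * Real.log (v s) + Real.log (v z) := by
        rw [NNReal.coe_mul, Real.log_mul (by simpa) (by simpa)]; simp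
      have p0 : (0 : ℝ) < (v s ^ 2 * v z : ℝ≥0) := by
        exact_mod_cast mul_pos (pow_pos (pos s0) 2) (pos z0)
      have β0 : (0 : ℝ) < β := α0.trans q
      exact ⟨s, p.trans (NNReal.coe_lt_coe.1 ((Real.log_lt_log_iff α0 p0).1 (by linarith))),
        NNReal.coe_lt_coe.1 ((Real.log_lt_log_iff p0 β0).1 (by linarith))⟩
    obtain rfl := List.length_eq_zero_iff.1 len
    exact ⟨[], w, rfl, by simp, NNReal.le_sqrt_iff_sq_le.2 hw, sc L s0 e⟩
  obtain ⟨π, π0, π1, hπ⟩ : ∃ π ≠ 0, v π < 1 ∧ ∀ x ≠ 0, ∃ k : ℤ, v x = v π ^ k := by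
    obtain ⟨π, π0, rfl⟩ : α ∈ S := d ▸ AddSubgroup.subset_closure rfl
    have k : ∀ x ≠ 0, ∃ k : ℤ, v x = v π ^ k := fun x x0 => by
      obtain ⟨k, hk⟩ := AddSubgroup.mem_closure_singleton.1
        (d.le (⟨x, x0, rfl⟩ : Real.log (v x) ∈ S))
      have : Real.log (v x) = Real.log (v π ^ k : ℝ≥0) := by
        rw [← hk, NNReal.coe_zpow, Real.log_zpow, zsmul_eq_mul]
      exact ⟨k, NNReal.eq (Real.log_injOn_pos (pos x0) (zpow_pos (pos π0) k) this)⟩
    rcases lt_trichotomy (v π) 1 with c | c | c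
    · exact ⟨π, π0, c, k⟩
    · obtain ⟨j, hj⟩ := k t t0
      simp [hj, c] at ht
    · exact ⟨π⁻¹, inv_ne_zero π0, by rw [map_inv₀]; exact inv_lt_one_of_one_lt₀ c, fun x x0 =>
        let ⟨j, hj⟩ := k x x0; ⟨-j, by simp [hj]⟩⟩
  have anti := zpow_right_strictAnti₀ (pos π0) π1
  obtain ⟨k, _, ρ, p⟩ := exists_pl v
  by_cases len : l.length ≤ 2
  · obtain ⟨E, σ, q, -⟩ := p.exists_sub (F := F)
    obtain ⟨l', h1, h2, h3⟩ := q.fside (j := 1) (l := []) (by
      rw [idx_ev_comap, (gp_ev v).idx_ext π0 fun ⟨_, s, e⟩ => ?_]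
      · simp
      obtain ⟨j, hj⟩ := hπ s (by rintro rfl; simp [π0] at e)
      rw [hj, ← zpow_natCast, ← zpow_mul, ← zpow_one (v π), ← zpow_mul] at e
      have := anti.injective e
      omega) (by simp) gp_sqs.zero
    exact ⟨l', h1, by simp [h2, len], h3⟩
  have k2 : (2 : k) = 0 := by
    rw [← one_add_one_eq_two, ← p.one, ← p.add (by simp) (by simp), one_add_one_eq_two]
    exact (p.zero_iff v2.le).2 v2
  have evn : ∀ z ∈ ev v, ∃ s ≠ 0, ∃ w, v w ≤ v π ∧ z = s ^ 2 * (1 + w) := by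
    rintro z ⟨z0, s, e⟩
    have s0 : s ≠ 0 := by rintro rfl; simp [z0] at e
    have e1 : v (z / s ^ 2) = 1 := by simp [e, s0]
    obtain ⟨r, hr⟩ := sq_of_char_two k2 (p.cov_sqs hs) (ρ (z / s ^ 2))
    obtain ⟨r, r1, rfl⟩ := p.lift (z := r) (by rintro rfl; exact p.ne e1 (by simpa using hr))
    have r0 : r ≠ 0 := by rintro rfl; simp at r1
    have := p.close e1.le (y := r ^ 2) (by simp [r1]) (by rw [hr, p.sq r1.le])
    refine ⟨s * r, mul_ne_zero s0 r0, z / s ^ 2 / r ^ 2 - 1, ?_, by field_simp; ring⟩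
    generalize z / s ^ 2 / r ^ 2 - 1 = w at this
    by_cases w0 : w = 0
    · simp [w0]
    obtain ⟨j, hj⟩ := hπ w w0
    rw [hj, ← zpow_zero (v π), anti.lt_iff_gt] at this
    simpa [hj] using anti.antitone (show 1 ≤ j by omega)
  have par : ∀ x ≠ 0, x ∈ ev v ∨ x * π ∈ ev v := fun x x0 => by
    obtain ⟨j, hj⟩ := hπ x x0
    obtain ⟨i, rfl | rfl⟩ := Int.even_or_odd' j
    · exact .inl ⟨x0, π ^ i, by rw [hj, mul_comm, zpow_mul, map_zpow₀]; rfl⟩
    · refine .inr ⟨mul_ne_zero x0 π0, π ^ (i + 1), ?_⟩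
      rw [map_mul, hj, ← zpow_add_one₀ (pos π0).ne', map_zpow₀, ← zpow_natCast, ← zpow_mul]
      congr 1; push_cast; ring
  obtain _ | ⟨c, _ | ⟨z, _ | ⟨b, L⟩⟩⟩ := l
  · simp at len
  · simp at len
  · simp at len
  refine (h0 (depth v ε0 hε h π1 1 (c := [c]) (fun c z L len c0 z0 => ?_) rfl
    (by simpa using hl c (by simp)) (hl z (by simp)) (hl b (by simp)) L)).elim
  obtain ⟨c, rfl⟩ := List.length_eq_one_iff.1 len
  have c0 := c0 c (by simp)
  obtain ⟨c', z', c0', hz, e⟩ : ∃ c' z', c' ≠ 0 ∧ z' ∈ ev v ∧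
      N H (c :: z :: L) = N H (c' :: z' :: L) := by
    rcases par z z0 with k | k
    · exact ⟨c, z, c0, k, rfl⟩
    rcases par c c0 with k' | k'
    · exact ⟨z, c, z0, k', N_perm (.swap _ _ _)⟩
    refine ⟨c, -c * z, c0, (gp_ev v).of_sq ((gp_ev v).mul ((gp_ev v).mul k k')
      ⟨neg_ne_zero.2 one_ne_zero, 1, by simp⟩) π0 (by ring), ?_⟩
    rw [N_perm (.swap _ _ _), ← h.move (by simp) c0 (h.neg_pp c0), N_perm (.swap _ _ _)]
  obtain ⟨s, s0, w, hw, e'⟩ := evn z' hz
  exact ⟨[c'], w, rfl, by simpa, hw, e.trans (N_cons_congr (sc L s0 e'))⟩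

end Pool.Agent.Lib.MP_887a05_al.FS
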