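import Pool.Agent.Lib.MP_887a05_al.FSTop
import Pool.Agent.Lib.MP_887a05_al.FSAbs

/-! The main induction: an anisotropic Pfister form descends, up to one slot, along a finite
extension when the upper field has finitely many square classes. -/

namespace Pool.Agent.Lib.MP_887a05_al.FS

universe u

theorem finite_case {K : Type*} [Field K] [Finite K] {H : Set K} (h : Good H) {a b : K}
    (a0 : a ≠ 0) (b0 : b ≠ 0) : a ∈ pp H b := by
  have := Fintype.ofFinite K
  obtain ⟨x, y, e⟩ := FiniteField.exists_root_sum_quadratic (R := K)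
    (f := Polynomial.X ^ 2 - Polynomial.C a) (g := Polynomial.C (-b) * Polynomial.X ^ 2)
    (Polynomial.degree_X_pow_sub_C two_pos a) (Polynomial.degree_C_mul_X_pow 2 (neg_ne_zero.2 b0))
    (FiniteField.odd_card_of_char_ne_two fun k => h.two (by
      simpa [k] using ringChar.Nat.cast_ringChar (R := K)))
  have e : a = x ^ 2 - b * y ^ 2 := by simp at e; linear_combination -e
  have mk : ∀ s : K, s ^ 2 ∈ N H [] ∨ s ^ 2 = 0 := fun s => by
    simpa using h.toGp.sq_mul (l := []) s (.inl h.one)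
  refine ⟨a0, _, _, mk x, mk y, ?_, e⟩
  by_contra k
  push Not at k
  exact a0 (by rw [e, (mk x).resolve_left k.1, (mk y).resolve_left k.2]; simp)

/-- The statement proved by induction on the index. -/
def Main (n : ℕ) (Q : ∀ (K : Type u) [Field K], Set K → Prop) : Prop :=
  ∀ (K F : Type u) [Field K] [Field F] [Algebra F K] [FiniteDimensional F K] (H : Set K) (m : ℕ),
    Cov (sqs K) m → Good H → Cov H n → Q K H → ∀ l : List K, (∀ a ∈ l, a ≠ 0) → 0 ∉ N H l →
      An F l.length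

theorem step_val {n : ℕ}
    (ih : Main.{u} n fun K _ H => ∀ O : ValuationSubring K, (∀ x ∉ O, 1 + x⁻¹ ∈ H) → O = ⊤) :
    Main.{u} n fun _ _ _ => True := by
  intro K F _ _ _ _ H m hs h hc _ l hl h0
  obtain ⟨_, ⟨O, hO, rfl⟩, min⟩ := zorn_superset
    {s : Set K | ∃ O : ValuationSubring K, (∀ x ∉ O, 1 + x⁻¹ ∈ H) ∧ s = O} fun c sub ch => by
      choose! f f1 f2 using sub
      let R : Subring K := ⨅ s ∈ c, (@f s).toSubring
      have mem : ∀ x, x ∈ R ↔ ∀ s ∈ c, x ∈ s := fun x => by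
        simp only [R, Subring.mem_iInf]
        exact forall₂_congr fun s hs => (Set.ext_iff.1 (f2 hs) x).symm
      refine ⟨_, ⟨.ofSubring R fun x => ?_, fun x hx => ?_, rfl⟩, fun s hs x hx => (mem x).1 hx s hs⟩
      · by_contra k
        simp only [mem, not_or, not_forall] at k
        obtain ⟨⟨s, hs, p⟩, t, ht, q⟩ := k
        have k : ∀ s ∈ c, x ∈ s ∨ x⁻¹ ∈ s := fun s hs => f2 hs ▸ (@f s).mem_or_inv_mem x
        rcases ch.total hs ht with e | e
        exacts [q (e ((k s hs).resolve_left p)), p (e ((k t ht).resolve_right q))]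
      · rw [ValuationSubring.mem_ofSubring, mem] at hx
        push Not at hx
        obtain ⟨s, hs, p⟩ := hx
        exact f1 hs x fun k => p (f2 hs ▸ k)
  set v := O.valuation
  have c : ∀ x, v x < 1 → 1 + x ∈ H := fun x hx => by
    rcases (O.mem_nonunits_iff_or).1 (O.mem_nonunits_iff.2 hx) with rfl | k
    · simpa using h.one
    · simpa using hO _ k
  obtain ⟨k, _, ρ, p⟩ := exists_pl v
  obtain ⟨E, σ, q, _⟩ := p.exists_sub (F := F)
  obtain ⟨u, j, u1, len, dv, sub⟩ := h.knorm v hl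
  have h1 : 0 ∉ N (bar v ρ H) (u.map ρ) := fun z =>
    h0 (sub (p.lift_N h.toGp c u1 (by simp) (p.zero ▸ z)))
  have u0 : ∀ a ∈ u.map ρ, a ≠ 0 := by simpa using fun a ha => p.ne (u1 a ha)
  obtain ⟨l', a1, a2, a3⟩ : An E (u.map ρ).length := by
    by_cases k2 : (2 : k) = 0
    · obtain _ | ⟨a, u⟩ := u
      · exact an_of_le_one E (by simp)
      obtain ⟨s, e⟩ := sq_of_char_two k2 (p.cov_sqs hs) (ρ a)
      have g := p.gp_bar h.toGp
      exact (h1 (g.iso_of_mem (a := ρ a) (by simp) (e ▸ g.sq (by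
        rintro rfl; exact u0 (ρ a) (by simp) (by simpa using e))))).elim
    refine ih k E _ m (p.cov_sqs hs) (p.good_bar h c k2) (p.cov_bar h.toGp hc) (fun O' hO' => ?_)
      _ u0 h1
    let R : Subring K :=
      { carrier := {x | v x ≤ 1 ∧ ρ x ∈ O'}
        zero_mem' := ⟨by simp, p.zero ▸ zero_mem _⟩
        one_mem' := ⟨by simp, p.one ▸ one_mem _⟩
        add_mem' := fun ⟨a, b⟩ ⟨c, d⟩ => ⟨v.map_add_le a c, p.add a c ▸ O'.add_mem _ _ b d⟩
        mul_mem' := fun ⟨a, b⟩ ⟨c, d⟩ => ⟨map_mul v _ _ ▸ mul_le_one' a c, p.mul a c ▸ mul_mem b d⟩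
        neg_mem' := fun {x} ⟨a, b⟩ => ⟨by simpa using a, by
          rw [← zero_sub, p.sub (by simp) a, p.zero, zero_sub]; exact neg_mem b⟩ }
    have inv : ∀ {x}, v x = 1 → ρ x⁻¹ = (ρ x)⁻¹ := fun k => by
      rw [← one_div, p.div (by simp) k, p.one, one_div]
    have z : ∀ {x}, v x < 1 → x ∈ R := fun k => ⟨k.le, (p.zero_iff k.le).2 k ▸ zero_mem _⟩
    refine eq_top_iff.2 fun y _ => ?_
    obtain ⟨x, x1, rfl⟩ := p.surj y
    refine (min (y := ValuationSubring.ofSubring R fun x => ?_) ⟨_, fun x hx => ?_, rfl⟩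
      (fun x hx => (O.valuation_le_one_iff x).1 hx.1) ((O.valuation_le_one_iff x).1 x1)).2
    · rcases lt_trichotomy (v x) 1 with k | k | k
      · exact .inl (z k)
      · exact (O'.mem_or_inv_mem (ρ x)).imp (fun m => ⟨k.le, m⟩) fun m =>
          ⟨by simp [k], inv k ▸ m⟩
      · exact .inr (z (by rw [map_inv₀]; exact inv_lt_one_of_one_lt₀ k))
    · rcases lt_trichotomy (v x) 1 with k | k | k
      · exact (hx (z k)).elim
      · have k' : v x⁻¹ ≤ 1 := by simp [k]
        refine p.mem_of_bar h.toGp c (v.map_add_le (by simp) k') ?_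
        rw [p.add (by simp) k', p.one, inv k]
        exact hO' _ fun m => hx ⟨k.le, m⟩
      · exact c _ (by rw [map_inv₀]; exact inv_lt_one_of_one_lt₀ k)
  obtain ⟨l'', b1, b2, b3⟩ := q.fside (idx_ev_comap (F := F) v ▸ dv) a1 a3
  exact ⟨l'', b1, by rw [List.length_map] at a2; omega, b3⟩

theorem step_top {n : ℕ} (ih : Main.{u} n fun _ _ _ => True) :
    Main.{u} (n + 1) fun K _ H => ∀ O : ValuationSubring K, (∀ x ∉ O, 1 + x⁻¹ ∈ H) → O = ⊤ := by
  intro K F _ _ _ _ H m hs h hc nv l hl h0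
  by_cases len : l.length ≤ 1
  · exact an_of_le_one F len
  by_cases nd : rad H ⊆ H
  swap
  · exact ih K F _ m hs h.good_rad (hc.lt h.toGp h.gp_rad h.sub_rad nd) trivial l hl
      fun k => h0 (h.iso_of_rad hl (by omega) k)
  obtain _ | ⟨a, l⟩ := l
  · simp at len
  have a0 := hl a (by simp)
  have ha : a ∉ H := fun k => h0 (h.iso_of_mem (by simp) k)
  rcases finite_or_infinite K with _ | _
  · exact (ha (nd ⟨a0, fun b b0 => finite_case h a0 b0⟩)).elim
  by_cases ind : ∀ T G, Dec H T G → T ⊆ H ∨ G ⊆ H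
  · rcases dichotomy h hc nd ind a0 ha with ⟨O, p, q⟩ | ⟨g, ⟨ε, ε0, hε⟩, t, t0, ht⟩
    · exact (p (nv O q)).elim
    · exact abs_case h hs nv a0 ha g ε0 hε t0 ht hl h0
  push Not at ind
  obtain ⟨T, G, d, p, q⟩ := ind
  by_cases k : 0 ∈ N T (a :: l)
  · exact ih K F _ m hs ((d.symm h).good h) (hc.lt h.toGp d.gG d.sG q) trivial _ hl
      fun k' => h0 (d.N_inter h hl k k')
  · exact ih K F _ m hs (d.good h) (hc.lt h.toGp d.gT d.sT p) trivial _ hl k

theorem main (n : ℕ) : Main.{u} n fun _ _ _ => True := by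
  induction n with
  | zero =>
    intro K F _ _ _ _ H m _ _ ⟨R, hR, hc⟩
    obtain ⟨r, hr, -⟩ := hc 1 one_ne_zero
    simp [Finset.card_eq_zero.1 (Nat.le_zero.1 hR)] at hr
  | succ n ih => exact step_val (step_top ih)

theorem cov_of_finiteIndex {K : Type*} [Field K] (h : (Subgroup.square Kˣ).FiniteIndex) :
    ∃ m, Cov (sqs K) m := by
  classical
  have := Fintype.ofFinite (Kˣ ⧸ Subgroup.square Kˣ)
  refine ⟨_, Finset.univ.image fun q : Kˣ ⧸ Subgroup.square Kˣ => (q.out : K), le_rfl,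
    fun a a0 => ⟨_, Finset.mem_image_of_mem _ (Finset.mem_univ
      (QuotientGroup.mk (Units.mk0 a a0)⁻¹)), ?_⟩⟩
  obtain ⟨⟨_, s, rfl⟩, e⟩ := QuotientGroup.mk_out_eq_mul (Subgroup.square Kˣ) (Units.mk0 a a0)⁻¹
  exact ⟨s, s.ne_zero, by rw [e]; simp [a0, sq]⟩

end Pool.Agent.Lib.MP_887a05_al.FS
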