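import Mathlib

/-! From an approximately multiplicative size function to an absolute value. -/

namespace Pool.Agent.Lib.MP_887a05_al.FS

open Filter Topology Finset

variable {K : Type*} [Field K]

theorem artin (f : K → ℝ) (f0 : f 0 = 0) (pos : ∀ x ≠ 0, 0 < f x) (mul : ∀ x y, f (x * y) = f x * f y)
    (add : ∀ x y, f (x + y) ≤ 2 * max (f x) (f y)) : ∃ g : AbsoluteValue K ℝ, ∀ x, g x = f x := by
  have nn : ∀ x, 0 ≤ f x := fun x => by
    by_cases h : x = 0
    exacts [by rw [h, f0], (pos x h).le]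
  have f1 : f 1 = 1 := by
    have := mul 1 1
    rw [mul_one] at this
    exact (mul_eq_left₀ (pos 1 one_ne_zero).ne').1 this.symm
  have fp : ∀ x (n : ℕ), f (x ^ n) = f x ^ n := fun x n => by
    induction n with
    | zero => simp [f1]
    | succ n ih => rw [pow_succ, mul, ih, pow_succ]
  have s1 : ∀ (r : ℕ) (x : ℕ → K) (M : ℝ), (∀ i, f (x i) ≤ M) →
      f (∑ i ∈ range (2 ^ r), x i) ≤ 2 ^ r * M := fun r => by
    induction r with
    | zero => intro x M h; simpa using h 0
    | succ r ih =>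
      intro x M h
      rw [pow_succ, mul_two, sum_range_add]
      refine (add _ _).trans ?_
      have := max_le (ih x M h) (ih (fun i => x (2 ^ r + i)) M fun i => h _)
      rw [pow_succ]; linarith
  have s2 : ∀ (n : ℕ) (x : ℕ → K) (M : ℝ), 0 ≤ M → (∀ i < n, f (x i) ≤ M) →
      f (∑ i ∈ range n, x i) ≤ 2 * n * M := fun n x M hM h => by
    rcases n.eq_zero_or_pos with rfl | hn
    · simp [f0]
    have a := Nat.lt_pow_succ_log_self one_lt_two n
    have b := Nat.pow_log_le_self 2 hn.ne'
    have := s1 (Nat.log 2 n + 1) (fun i => if i < n then x i else 0) M fun i => by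
      split_ifs with k
      exacts [h i k, f0 ▸ hM]
    rw [← sum_filter, show (range (2 ^ (Nat.log 2 n + 1))).filter (· < n) = range n by
      ext i; simp; omega] at this
    refine this.trans (mul_le_mul_of_nonneg_right ?_ hM)
    rw [pow_succ, mul_comm]
    gcongr
    exact_mod_cast b
  have s3 : ∀ n : ℕ, f n ≤ 2 * n := fun n => by
    simpa using s2 n (fun _ => 1) 1 zero_le_one fun _ _ => f1.le
  refine ⟨⟨⟨f, mul⟩, nn, fun x => ⟨fun h => by_contra fun k => (pos x k).ne' h, fun h => h ▸ f0⟩,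
    fun x y => ?_⟩, fun _ => rfl⟩
  change f (x + y) ≤ f x + f y
  have key : ∀ n : ℕ, f (x + y) ^ n ≤ 2 * (n + 1 : ℕ) * (2 * (f x + f y) ^ n) := fun n => by
    rw [← fp, add_pow]
    refine s2 _ _ _ (by have := nn x; have := nn y; positivity) fun i hi => ?_
    rw [mul, mul, fp, fp, add_pow]
    have h1 : f x ^ i * f y ^ (n - i) * (n.choose i : ℝ) ≤
        ∑ m ∈ range (n + 1), f x ^ m * f y ^ (n - m) * (n.choose m : ℝ) :=
      single_le_sum (f := fun m => f x ^ m * f y ^ (n - m) * (n.choose m : ℝ))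
        (fun m _ => by have := nn x; have := nn y; positivity) (mem_range.2 hi)
    have h2 := mul_le_mul_of_nonneg_left (s3 (n.choose i))
      (show 0 ≤ f x ^ i * f y ^ (n - i) by have := nn x; have := nn y; positivity)
    linarith
  by_contra k
  push Not at k
  have p : 0 < f (x + y) := (add_nonneg (nn x) (nn y)).trans_lt k
  have r0 : 0 ≤ (f x + f y) / f (x + y) := div_nonneg (add_nonneg (nn x) (nn y)) p.le
  have r1 : (f x + f y) / f (x + y) < 1 := (div_lt_one p).2 k
  have t := ((tendsto_self_mul_const_pow_of_lt_one r0 r1).add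
    (tendsto_pow_atTop_nhds_zero_of_lt_one r0 r1)).const_mul 4
  obtain ⟨n, hn⟩ := (t.eventually (gt_mem_nhds (show 4 * (0 + 0 : ℝ) < 1 by norm_num))).exists
  have := (one_le_div (pow_pos p n)).2 (key n)
  rw [div_pow] at hn
  push_cast at this
  have e : 2 * ((n : ℝ) + 1) * (2 * (f x + f y) ^ n) / f (x + y) ^ n =
      4 * (n * ((f x + f y) ^ n / f (x + y) ^ n) + (f x + f y) ^ n / f (x + y) ^ n) := by ring
  linarith

theorem abs_of_quasi (ν : K → ℝ) (D : ℝ) (hD : 0 < D)
    (mul : ∀ x ≠ 0, ∀ y ≠ 0, |ν (x * y) - ν x - ν y| ≤ D)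
    (add : ∀ x ≠ 0, ∀ y ≠ 0, x + y ≠ 0 → ν (x + y) ≤ max (ν x) (ν y) + D) :
    ∃ g : AbsoluteValue K ℝ, ∃ α > 0, ∀ x ≠ 0, |Real.log (g x) - α * ν x| ≤ α * D := by
  have step : ∀ x ≠ 0, ∀ k : ℕ, dist (ν (x ^ 2 ^ k) / 2 ^ k) (ν (x ^ 2 ^ (k + 1)) / 2 ^ (k + 1)) ≤
      D / 2 / 2 ^ k := fun x hx k => by
    have := mul _ (pow_ne_zero (2 ^ k) hx) _ (pow_ne_zero (2 ^ k) hx)
    rw [dist_comm, Real.dist_eq, pow_succ 2 k, pow_mul, sq,
      show ∀ a b : ℝ, a / 2 ^ (k + 1) - b / 2 ^ k = (a - b - b) / 2 / 2 ^ k from fun a b => by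
        field_simp; ring, abs_div, abs_div, abs_two, abs_of_pos (pow_pos (two_pos : (0 : ℝ) < 2) k)]
    gcongr
  have ex : ∀ x : K, ∃ p : ℝ, x ≠ 0 → Tendsto (fun k : ℕ => ν (x ^ 2 ^ k) / 2 ^ k) atTop (𝓝 p) :=
    fun x => by
      by_cases hx : x = 0
      · exact ⟨0, fun h => (h hx).elim⟩
      · obtain ⟨p, hp⟩ := cauchySeq_tendsto_of_complete (cauchySeq_of_le_geometric_two (step x hx))
        exact ⟨p, fun _ => hp⟩
  choose φ hφ using ex
  have near : ∀ x ≠ 0, |φ x - ν x| ≤ D := fun x hx => by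
    have := dist_le_of_le_geometric_two_of_tendsto₀ (step x hx) (hφ x hx)
    rwa [dist_comm, Real.dist_eq, pow_zero, pow_one, pow_zero, div_one] at this
  have hom : ∀ x ≠ 0, ∀ y ≠ 0, φ (x * y) = φ x + φ y := fun x hx y hy => by
    have t1 := (((hφ _ (mul_ne_zero hx hy)).sub (hφ x hx)).sub (hφ y hy)).abs
    have t2 : Tendsto (fun k : ℕ => D * (1 / 2) ^ k) atTop (𝓝 (D * 0)) :=
      (tendsto_pow_atTop_nhds_zero_of_lt_one (by norm_num) (by norm_num)).const_mul D
    have := le_of_tendsto_of_tendsto' t1 t2 fun k => by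
      rw [← sub_div, ← sub_div, abs_div, abs_of_pos (pow_pos (two_pos : (0 : ℝ) < 2) k), mul_pow, one_div, inv_pow,
        ← div_eq_mul_inv]
      gcongr
      exact mul _ (pow_ne_zero _ hx) _ (pow_ne_zero _ hy)
    rw [mul_zero, abs_nonpos_iff] at this
    linarith
  classical
  have l2 := Real.log_pos one_lt_two
  have α0 : 0 < Real.log 2 / (3 * D) := by positivity
  obtain ⟨g, hg⟩ := artin (fun x => if x = 0 then 0 else Real.exp (Real.log 2 / (3 * D) * φ x))
    (by simp) (fun x hx => by simp [hx, Real.exp_pos])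
    (fun x y => by
      by_cases hx : x = 0
      · simp [hx]
      by_cases hy : y = 0
      · simp [hy]
      simp [hx, hy, hom x hx y hy, mul_add, Real.exp_add])
    (fun x y => by
      by_cases hx : x = 0
      · subst hx
        simp only [zero_add, if_true]
        split_ifs
        · simp
        · rw [max_eq_right (Real.exp_pos _).le]; linarith [Real.exp_pos (Real.log 2 / (3 * D) * φ y)]
      by_cases hy : y = 0
      · subst hy
        simp only [add_zero, if_true, if_neg hx]
        rw [max_eq_left (Real.exp_pos _).le]; linarith [Real.exp_pos (Real.log 2 / (3 * D) * φ x)]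
      by_cases hxy : x + y = 0
      · simp only [hxy, if_true, if_neg hx, if_neg hy]; positivity
      simp only [if_neg hx, if_neg hy, if_neg hxy]
      have h1 := add x hx y hy hxy
      have h2 := abs_le.1 (near x hx)
      have h3 := abs_le.1 (near y hy)
      have h4 := abs_le.1 (near _ hxy)
      have h5 : ∀ z, φ (x + y) ≤ φ z + 3 * D → Real.exp (Real.log 2 / (3 * D) * φ (x + y)) ≤
          2 * Real.exp (Real.log 2 / (3 * D) * φ z) := fun z hz => by
        rw [← Real.exp_log two_pos, ← Real.exp_add, Real.exp_log two_pos, Real.exp_le_exp]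
        have := mul_le_mul_of_nonneg_left hz α0.le
        rw [mul_add, div_mul_cancel₀ _ (by positivity)] at this
        linarith
      rcases le_total (ν x) (ν y) with k | k
      · rw [max_eq_right k] at h1
        exact (h5 y (by linarith)).trans (by gcongr; exact le_max_right _ _)
      · rw [max_eq_left k] at h1
        exact (h5 x (by linarith)).trans (by gcongr; exact le_max_left _ _))
  refine ⟨g, _, α0, fun x hx => ?_⟩
  rw [hg, if_neg hx, Real.log_exp, ← mul_sub, abs_mul, abs_of_pos α0]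
  gcongr
  exact near x hx

end Pool.Agent.Lib.MP_887a05_al.FS
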