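import Pool.Agent.Lib.MP_887a05_al.FSBasic
import Pool.Agent.Lib.MP_887a05_al.FSArtin

/-!
The topology defined by a subgroup of finite index: if the structure is nondegenerate and has no
orthogonal splitting, it comes from a valuation or from an absolute value.
-/

namespace Pool.Agent.Lib.MP_887a05_al.FS

open Filter

variable {K : Type*} [Field K] {H : Set K} {n : ℕ}

/-- Basic neighbourhoods of zero. -/
def U (H : Set K) (A : Finset K) : Set K := {y | ∀ a ∈ A, 1 + a * y ∈ H}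

/-- The filter of neighbourhoods of zero. -/
def Sm (H : Set K) : Filter K where
  sets := {X | ∃ A : Finset K, U H A ⊆ X}
  univ_sets := ⟨∅, Set.subset_univ _⟩
  sets_of_superset := fun ⟨A, h⟩ k => ⟨A, h.trans k⟩
  inter_sets := fun ⟨A, h⟩ ⟨B, k⟩ => by
    classical
    exact ⟨A ∪ B, fun y hy => ⟨h fun a ha => hy a (by simp [ha]), k fun a ha => hy a (by simp [ha])⟩⟩

theorem U_mem (A : Finset K) : U H A ∈ Sm H := ⟨A, subset_rfl⟩

theorem ev_mem (a : K) : ∀ᶠ y in Sm H, 1 + a * y ∈ H := ⟨{a}, fun _ h => h a (by simp)⟩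

theorem ev_smul {X : Set K} (h : X ∈ Sm H) (c : K) : ∀ᶠ y in Sm H, c * y ∈ X := by
  classical
  obtain ⟨A, h⟩ := h
  exact ⟨A.image (· * c), fun y hy => h fun a ha => by
    rw [← mul_assoc]; exact hy _ (Finset.mem_image_of_mem _ ha)⟩

theorem weights [Infinite K] {ι : Type*} (s : Finset ι) :
    ∃ w : ι → K, ∀ t ⊆ s, t.Nonempty → ∑ i ∈ t, w i ≠ 0 := by
  classical
  induction s using Finset.induction_on with
  | empty => exact ⟨0, by simp⟩
  | insert j s hj ih =>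
    obtain ⟨w, hw⟩ := ih
    obtain ⟨c, hc⟩ := Infinite.exists_notMem_finset (s.powerset.image fun t => -∑ i ∈ t, w i)
    have e : ∀ t ⊆ s, ∑ i ∈ t, Function.update w j c i = ∑ i ∈ t, w i := fun t ht =>
      Finset.sum_congr rfl fun i hi => Function.update_of_ne (by rintro rfl; exact hj (ht hi)) _ _
    refine ⟨Function.update w j c, fun t ht hne => ?_⟩
    by_cases k : j ∈ t
    · have k' : t.erase j ⊆ s := Finset.subset_insert_iff.1 ht
      rw [← Finset.add_sum_erase _ _ k, e _ k', Function.update_self]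
      exact fun e' => hc (Finset.mem_image.2 ⟨_, Finset.mem_powerset.2 k', by linear_combination -e'⟩)
    · have k' : t ⊆ s := (Finset.subset_insert_iff_of_notMem k).1 ht
      rw [e _ k']; exact hw t k' hne

theorem exists_ne [Infinite K] (h : Gp H) (hc : Cov H n) {X : Set K} (hX : X ∈ Sm H) :
    ∃ y ≠ 0, y ∈ X := by
  classical
  obtain ⟨A, hA⟩ := hX
  obtain ⟨R, -, hR⟩ := hc
  choose! r hr hr' using hR
  let C : K → Option R := fun x => if h : x = 0 then none else some ⟨r x, hr x h⟩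
  obtain ⟨ι, _, hι⟩ := Combinatorics.Line.exists_mono_in_high_dimension
    (insert 0 (insert 1 A) : Finset K) (Option R)
  obtain ⟨w, hw⟩ := weights (K := K) (Finset.univ : Finset ι)
  obtain ⟨l, c, hl⟩ := hι fun v => C (∑ i, w i * v i)
  set s : Finset ι := {i | l.idxFun i = none} with hs
  have l0 := hw s (Finset.subset_univ _) ⟨_, Finset.mem_filter.2 ⟨by simp, l.proper.choose_spec⟩⟩
  obtain ⟨b, hb⟩ : ∃ b : K, ∀ x : (insert 0 (insert 1 A) : Finset K),
      ∑ i, w i * l x i = b + (∑ i ∈ s, w i) * x := by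
    refine ⟨∑ i ∈ sᶜ, w i * ((l.idxFun i).map Subtype.val).getD 0, fun x => ?_⟩
    rw [← Finset.sum_add_sum_compl s, add_comm, Finset.sum_mul]
    congr 1
    · refine Finset.sum_congr rfl fun i hi => ?_
      rw [hs, Finset.compl_filter, Finset.mem_filter] at hi
      obtain ⟨y, hy⟩ := Option.ne_none_iff_exists.mp hi.right
      simp [← hy]
    · exact Finset.sum_congr rfl fun i hi => by rw [l.apply_none _ _ (Finset.mem_filter.1 hi).2]
  have h0 := hl ⟨0, by simp⟩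
  have h1 := hl ⟨1, by simp⟩
  simp only [hb, mul_zero, add_zero, mul_one] at h0 h1
  have b0 : b ≠ 0 := by
    rintro rfl
    simp [C, ← h0, l0] at h1
  refine ⟨(∑ i ∈ s, w i) / b, div_ne_zero l0 b0, hA fun a ha => ?_⟩
  have ha' := hl ⟨a, by simp [ha]⟩
  simp only [hb, ← h0, C, dif_neg b0] at ha'
  split_ifs at ha' with k
  have e : r (b + (∑ i ∈ s, w i) * a) = r b := by simpa using ha'
  have := h.div (hr' _ k) (hr' b b0)
  rw [e, mul_div_mul_right _ _ (right_ne_zero_of_mul (h.ne (hr' b b0)))] at this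
  convert this using 1
  field_simp

section

variable (h : Good H) (hc : Cov H n) (nd : rad H ⊆ H) {a₀ : K} (a0 : a₀ ≠ 0) (ha : a₀ ∉ H)
include h hc nd a0 ha

theorem add_base : ∃ Y ∈ Sm H, ∀ y ∈ Y, ∀ y' ∈ Y, 1 + (y + y') ∈ H := by
  obtain ⟨R, -, hR⟩ := hc
  refine ⟨_, (eventually_all_finset R).2 fun r _ => (ev_mem (1 - r)).and (ev_mem (-(1 - r) / r)),
    fun y hy y' hy' => ?_⟩
  have e : ∀ r, r ≠ 0 → 1 - r ≠ 0 → 1 + (y + y') =
      (1 + (1 - r) * y) / (1 - r) + -r * (1 + -(1 - r) / r * y') / (1 - r) := fun r r0 r1 => by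
    field_simp; ring
  have z0 : 1 + (y + y') ≠ 0 := fun z => by
    obtain ⟨r, hr, k⟩ := hR a₀ a0
    have r0 := right_ne_zero_of_mul (h.ne k)
    have r1 : 1 - r ≠ 0 := fun e => ha (by simpa [show r = 1 by linear_combination -e] using k)
    have := e r r0 r1
    rw [z, ← add_div, eq_comm, div_eq_zero_iff, or_iff_left r1] at this
    have k2 := h.div (hy r hr).1 (hy' r hr).2
    rw [show 1 + (1 - r) * y = r * (1 + -(1 - r) / r * y') by linear_combination this,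
      mul_div_cancel_right₀ _ (h.ne (hy' r hr).2)] at k2
    exact ha (h.cancel k2 (mul_comm a₀ r ▸ k))
  refine nd ⟨z0, fun a a0 => ?_⟩
  obtain ⟨r, hr, k⟩ := hR a a0
  have r0 := right_ne_zero_of_mul (h.ne k)
  refine h.lcancel r0 a0 ?_ (h.pp_of_mem h.two (mul_comm a r ▸ k) z0)
  by_cases r1 : 1 - r = 0
  · exact h.pp_of_mem h.two (by simpa [show r = 1 by linear_combination -r1] using h.one) z0
  have e := e r r0 r1
  have p := (hy r hr).1
  have q := (hy' r hr).2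
  generalize 1 + (1 - r) * y = u, 1 + -(1 - r) / r * y' = v, 1 + (y + y') = z at *
  have u0 := h.ne p
  have v0 := h.ne q
  have x0 : u / (1 - r) / z ≠ 0 := by simp [u0, r1, z0]
  have e1 : 1 - u / (1 - r) / z = -r * v / (1 - r) / z := by
    rw [eq_div_iff z0, sub_mul, div_mul_cancel₀ _ z0]; linear_combination e
  have g := h.gp x0
  have k1 : r ∈ pp H (u / (1 - r) / z) := g.cancel (h.sub_pp (h.mul p q) _)
    (g.of_sq (g.mul (e1 ▸ h.one_sub_pp (by rw [e1]; simp [v0, r0, r1, z0])) (h.neg_pp x0))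
      (s := ((1 - r) * z)⁻¹) (by simp [r1, z0]) (by field_simp))
  have g' := h.gp r0
  have := g'.div (g'.div (h.sub_pp p r) (h.one_sub_pp r1)) (h.symm x0 k1)
  rwa [div_div_cancel₀ (by simp [u0, r1])] at this

theorem add_mem {X : Set K} (hX : X ∈ Sm H) : ∃ Y ∈ Sm H, ∀ y ∈ Y, ∀ y' ∈ Y, y + y' ∈ X := by
  obtain ⟨A, hA⟩ := hX
  obtain ⟨Y, hY, k⟩ := add_base h hc nd a0 ha
  exact ⟨_, (eventually_all_finset A).2 fun a _ => ev_smul hY a, fun y hy y' hy' => hA fun a m =>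
    mul_add a y y' ▸ k _ (hy a m) _ (hy' a m)⟩

end

/-- The group generated by `H` and the nonzero elements `1 + a y`. -/
def Tg (H : Set K) (A : Finset K) (y : K) : Set K :=
  {w | ∀ P, Gp P → H ⊆ P → (∀ a ∈ A, 1 + a * y ≠ 0 → 1 + a * y ∈ P) → w ∈ P}

theorem gp_ne : Gp {w : K | w ≠ 0} := ⟨fun h => h rfl, mul_ne_zero, pow_ne_zero 2⟩

theorem gp_Tg (h : Gp H) (A : Finset K) (y : K) : Gp (Tg H A y) :=
  ⟨fun k => k _ gp_ne (fun _ => h.ne) (fun _ _ => id) rfl,
    fun a b P g s k => g.mul (a P g s k) (b P g s k), fun a _ g _ _ => g.sq a⟩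

theorem Tg_mono {A B : Finset K} (h : A ⊆ B) (y : K) : Tg H A y ⊆ Tg H B y :=
  fun _ hw P g s k => hw P g s fun a ha => k a (h ha)

theorem Tg_orth (h : Good H) {A : Finset K} {y δ : K} (y0 : y ≠ 0) (hδ : y + δ ≠ 0)
    (k : ∀ a ∈ A, 1 - a * δ ∈ H) : Tg H A y ⊆ pp H (y * (y + δ)) := fun w hw => by
  refine hw _ (h.gp (mul_ne_zero y0 hδ)) (fun x hx => h.sub_pp hx _) fun a ha u0 => ?_
  by_cases a0 : a = 0
  · simpa [a0] using h.sub_pp h.one _
  have η := k a ha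
  have η0 := h.ne η
  have x0 : -(a * (y + δ)) / (1 - a * δ) ≠ 0 := by simp [*]
  have e : 1 - -(a * (y + δ)) / (1 - a * δ) = (1 + a * y) / (1 - a * δ) := by field_simp; ring
  have h1 := (h.gp x0).mul (h.sub_pp η _) (e ▸ h.one_sub_pp (e ▸ div_ne_zero u0 η0))
  rw [mul_div_cancel₀ _ η0] at h1
  have h2 : 1 + a * y ∈ pp H (-(a * y)) := by
    simpa using h.one_sub_pp (a := -(a * y)) (by simpa using u0)
  have g := h.gp u0
  exact h.symm u0 (g.of_sq (g.mul (g.mul (h.symm x0 h1) (h.symm (by simp [*]) h2)) (h.sub_pp η _))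
    a0 (by generalize 1 - a * δ = η at *; field_simp))

section

variable [Infinite K] (h : Good H) (hc : Cov H n) (nd : rad H ⊆ H)
  (ind : ∀ T G, Dec H T G → T ⊆ H ∨ G ⊆ H)
include h hc nd ind

theorem grow (A : Finset K) : ∃ A', A ⊆ A' ∧ ∀ y ∉ U H A, Tg H A' y ⊆ Tg H A y →
    Tg H A y ⊆ H ∨ ∀ w ≠ 0, w ∈ Tg H A y := by
  classical
  obtain ⟨X, hX⟩ : ∃ X : Finset K, ∀ x, x ≠ 0 → 1 - x ≠ 0 → ∃ x' ∈ X, x * x' ∈ H ∧
      (1 - x) * (1 - x') ∈ H := by
    obtain ⟨R, -, hR⟩ := hc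
    have : ∀ p : K × K, ∃ x', (∃ x, x * p.1 ∈ H ∧ (1 - x) * p.2 ∈ H) →
        x' * p.1 ∈ H ∧ (1 - x') * p.2 ∈ H := fun p => by
      by_cases k : ∃ x, x * p.1 ∈ H ∧ (1 - x) * p.2 ∈ H
      exacts [k.imp fun _ k _ => k, ⟨0, fun k' => (k k').elim⟩]
    choose f hf using this
    refine ⟨(R ×ˢ R).image f, fun x x0 x1 => ?_⟩
    obtain ⟨r, hr, k⟩ := hR x x0
    obtain ⟨s, hs, k'⟩ := hR _ x1
    obtain ⟨p, q⟩ := hf (r, s) ⟨x, k, k'⟩
    exact ⟨_, Finset.mem_image_of_mem f (Finset.mk_mem_product hr hs),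
      h.of_sq (h.mul k p) (right_ne_zero_of_mul (h.ne k)) (by ring),
      h.of_sq (h.mul k' q) (right_ne_zero_of_mul (h.ne k')) (by ring)⟩
  set X' : Finset K := insert 1 (X ∪ X.image (· - 1)) with hX'
  obtain ⟨ε, ε0, hε⟩ := exists_ne h.toGp hc ((eventually_all_finset A).2 fun a _ =>
    (eventually_all_finset X').2 fun x _ => ev_mem (H := H) (-(a * x)))
  refine ⟨A ∪ X'.image fun x => (ε * x)⁻¹, Finset.subset_union_left, fun y hy st => ?_⟩
  have y0 : y ≠ 0 := by rintro rfl; exact hy fun a _ => by simpa using h.one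
  set T := Tg H A y
  have gT : Gp T := gp_Tg h.toGp A y
  set G : Set K := {g | g ≠ 0 ∧ ∀ t ∈ T, g ∈ pp H t}
  have gG : Gp G := ⟨fun k => k.1 rfl, fun a b => ⟨mul_ne_zero a.1 b.1, fun t ht =>
    h.pmul (gT.ne ht) (a.2 t ht) (b.2 t ht)⟩, fun k => ⟨pow_ne_zero 2 k, fun t _ =>
      h.sub_pp (h.sq k) t⟩⟩
  have sT : H ⊆ T := fun _ k _ _ s _ => s k
  have sG : H ⊆ G := fun _ k => ⟨h.ne k, fun t _ => h.sub_pp k t⟩
  have key : ∀ x ∈ X', x ≠ 0 → (y + ε * x) / (ε * x) ∈ T ∧ y * (y + ε * x) ∈ G := fun x hx x0 => by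
    have k : ∀ a ∈ A, 1 - a * (ε * x) ∈ H := fun a m => by
      convert hε a m x hx using 1; ring
    have ne : y + ε * x ≠ 0 := fun e => hy fun a m => by
      convert k a m using 1; linear_combination a * e
    have e : 1 + (ε * x)⁻¹ * y = (y + ε * x) / (ε * x) := by field_simp; ring
    refine ⟨st fun P _ _ k => e ▸ k _ (Finset.mem_union_right _ (Finset.mem_image_of_mem _ hx))
      (e ▸ div_ne_zero ne (mul_ne_zero ε0 x0)), mul_ne_zero y0 ne, fun t ht =>
        h.symm (mul_ne_zero y0 ne) (Tg_orth h y0 ne k ht)⟩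
  have k0 := key 1 (by simp [hX']) one_ne_zero
  have gen : ∀ a ≠ 0, ∃ t ∈ T, ∃ g ∈ G, a = t * g := fun a a0 => by
    by_cases a1 : 1 - a = 0
    · exact ⟨1, gT.one, 1, gG.one, by linear_combination -a1⟩
    obtain ⟨x, hx, p, -⟩ := hX a a0 a1
    have x0 := right_ne_zero_of_mul (h.ne p)
    have k1 := key x (by simp [hX', hx]) x0
    refine ⟨_, gT.mul (sT p) (gT.div k1.1 k0.1), _, gG.div k0.2 k1.2, ?_⟩
    have := right_ne_zero_of_mul k0.2.1
    have := right_ne_zero_of_mul k1.2.1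
    generalize y + ε * 1 = w1, y + ε * x = w2 at *
    field_simp
  have inter : ∀ {a}, a ∈ T → a ∈ G → a ∈ H := fun {a} p q => nd ⟨q.1, fun b b0 => by
    obtain ⟨t, ht, g, hg, rfl⟩ := gen b b0
    exact h.lmul (gT.ne ht) hg.1 (q.2 t ht) (h.symm q.1 (hg.2 a p))⟩
  have d : Dec H T G := ⟨gT, gG, sT, sG, inter, fun p q => q.2 _ p, gen,
    fun {t g t' g'} ht hg ht' hg' e => by
      have t0 := gT.ne ht
      have t0' := gT.ne ht'
      have e' : 1 - t * g = t' * g' := by linear_combination -e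
      obtain ⟨x, hx, p, q⟩ := hX (t * g) (mul_ne_zero t0 hg.1) (e' ▸ mul_ne_zero t0' hg'.1)
      have x0 := right_ne_zero_of_mul (h.ne p)
      have x1 : x - 1 ≠ 0 := fun k => right_ne_zero_of_mul (h.ne q) (by linear_combination -k)
      have k1 := key x (by simp [hX', hx]) x0
      have k2 := key (x - 1) (by simp [hX', hx]) x1
      have w1 := right_ne_zero_of_mul k1.2.1
      have w2 := right_ne_zero_of_mul k2.2.1
      have γ := gG.mul k1.2 k2.2
      have z0 : (y + ε * x) / ε ≠ 0 := div_ne_zero w1 ε0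
      have e1 : 1 - (y + ε * x) / ε = -(y + ε * (x - 1)) / ε := by field_simp; ring
      have gz := h.gp z0
      have b1 : y * (y + ε * x) * (y * (y + ε * (x - 1))) ∈ pp H ((y + ε * x) / (ε * x) * x) := by
        rw [show (y + ε * x) / (ε * x) * x = (y + ε * x) / ε by field_simp]
        exact gz.of_sq (gz.mul (e1 ▸ h.one_sub_pp (by
          rw [e1]; exact div_ne_zero (neg_ne_zero.2 w2) ε0)) (h.neg_pp z0))
          (s := (y * ε)⁻¹) (by simp [y0, ε0]) (by field_simp)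
      have b2 := h.lcancel (gT.ne k1.1) x0 (γ.2 _ k1.1) b1
      have b3 := h.lcancel t0 hg.1 (γ.2 _ ht) (h.lcancel x0 (mul_ne_zero t0 hg.1) b2
        (h.pp_of_mem h.two (mul_comm x _ ▸ p) γ.1))
      obtain ⟨m, hm, u, hu, e2⟩ := gen (-1) (by simp)
      have gg := h.gp hg.1
      have b4 : u * g ∈ pp H g := gg.cancel (h.symm (gT.ne hm) (hg.2 m hm))
        (by rw [← mul_assoc, ← e2, neg_one_mul]; exact h.neg_pp hg.1)
      refine gg.cancel (gg.mul b4 b3) (h.sub_pp (inter ?_ (gG.mul (gG.mul (gG.mul hu hg) γ) hg')) g)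
      rw [e'] at q
      have := gT.mul (gT.mul (gT.mul (sT (h.mul p q)) (gT.mul k1.1 k2.1)) (gT.mul ht ht')) hm
      refine gT.of_sq this (s := t * t' * m / (y * ε)) (by simp [t0, t0', y0, ε0, gT.ne hm]) ?_
      field_simp
      linear_combination -(g * g' * m * (x - 1)) * e2⟩
  refine (ind T G d).imp_right fun k w w0 => ?_
  obtain ⟨t, ht, g, hg, rfl⟩ := gen w w0
  exact gT.mul ht (sT (k hg))

theorem stab (A : Finset K) : ∃ A', A ⊆ A' ∧ ∀ y ∉ U H A, (∀ a ∈ A, 1 + a * y ≠ 0) →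
    ∀ w ≠ 0, w ∈ Tg H A' y := by
  classical
  obtain ⟨R, hn, hR⟩ := id hc
  have : ∀ k : ℕ, ∃ A', A ⊆ A' ∧ ∀ y ∉ U H A, (∀ a ∈ A, 1 + a * y ≠ 0) →
      (∀ w ≠ 0, w ∈ Tg H A' y) ∨ k ≤ (R.filter (· ∈ Tg H A' y)).card := fun k => by
    induction k with
    | zero => exact ⟨A, subset_rfl, fun _ _ _ => .inr (Nat.zero_le _)⟩
    | succ k ih =>
      obtain ⟨B, hB, ih⟩ := ih
      obtain ⟨C, hC, gr⟩ := grow h hc nd ind B
      refine ⟨C, hB.trans hC, fun y hy ne => ?_⟩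
      rcases ih y hy ne with p | p
      · exact .inl fun w w0 => Tg_mono hC y (p w w0)
      by_cases st : Tg H C y ⊆ Tg H B y
      · rcases gr y (fun k => hy fun a m => k a (hB m)) st with q | q
        · exact (hy fun a m => q fun P _ _ k => k a (hB m) (ne a m)).elim
        · exact .inl fun w w0 => Tg_mono hC y (q w w0)
      obtain ⟨w, w1, w2⟩ := Set.not_subset.1 st
      have gC := gp_Tg h.toGp C y
      obtain ⟨r, hr, q⟩ := hR w (gC.ne w1)
      refine .inr (p.trans_lt (Finset.card_lt_card ⟨fun x hx => ?_, fun s => w2 ?_⟩))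
      · exact Finset.mem_filter.2 ⟨(Finset.mem_filter.1 hx).1, Tg_mono hC y (Finset.mem_filter.1 hx).2⟩
      · exact (gp_Tg h.toGp B y).cancel (Finset.mem_filter.1 (s (Finset.mem_filter.2
          ⟨hr, gC.cancel w1 fun _ _ s _ => s q⟩))).2 fun _ _ s _ => s (mul_comm w r ▸ q)
  obtain ⟨B, hB, k⟩ := this (R.card + 1)
  exact ⟨B, hB, fun y hy ne => (k y hy ne).resolve_right
    (by have := Finset.card_filter_le R (· ∈ Tg H B y); omega)⟩

theorem vtop (A : Finset K) : ∀ᶠ δ in Sm H, ∀ y ∉ U H A, 1 + δ * y⁻¹ ∈ H := by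
  obtain ⟨B, hB, k⟩ := stab h hc nd ind A
  filter_upwards [(eventually_all_finset B).2 fun a _ => ev_mem (H := H) (-a)] with δ hδ y hy
  have y0 : y ≠ 0 := by rintro rfl; exact hy fun a _ => by simpa using h.one
  by_cases ne : ∀ a ∈ A, 1 + a * y ≠ 0
  · have hδ' : ∀ a ∈ B, 1 - a * δ ∈ H := fun a m => by simpa [sub_eq_add_neg] using hδ a m
    have e : y + δ ≠ 0 := fun e => hy fun a m => by
      convert hδ' a (hB m) using 1; linear_combination a * e
    exact h.of_sq (nd ⟨mul_ne_zero y0 e, fun a a0 => h.symm (mul_ne_zero y0 e)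
      (Tg_orth h y0 e hδ' (k y hy ne a a0))⟩) y0 (by field_simp)
  · push Not at ne
    obtain ⟨a, m, e⟩ := ne
    convert hδ a (hB m) using 2
    field_simp
    linear_combination δ * e

end

/-- Bounded sets. -/
def Bd (H : Set K) (B : Set K) : Prop := ∀ X ∈ Sm H, ∀ᶠ δ in Sm H, ∀ b ∈ B, δ * b ∈ X

theorem dichotomy [Infinite K] (h : Good H) (hc : Cov H n) (nd : rad H ⊆ H)
    (ind : ∀ T G, Dec H T G → T ⊆ H ∨ G ⊆ H) {a₀ : K} (a0 : a₀ ≠ 0) (ha : a₀ ∉ H) :
    (∃ O : ValuationSubring K, O ≠ ⊤ ∧ ∀ x ∉ O, 1 + x⁻¹ ∈ H) ∨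
      ∃ g : AbsoluteValue K ℝ, (∃ ε > 0, ∀ x, g x < ε → 1 + x ∈ H) ∧ ∃ t ≠ 0, g t < 1 := by
  classical
  have inv : ∀ A, Bd H {x | x⁻¹ ∉ U H A} := fun A X ⟨B, hB⟩ => by
    filter_upwards [(eventually_all_finset B).2 fun b _ => ev_smul (vtop h hc nd ind A) b]
      with δ hδ x hx
    exact hB fun b m => by simpa [mul_assoc] using hδ b m _ hx
  set V : Set K := {x | x = 0 ∨ x = 1 ∨ x = -1 ∨ x⁻¹ ∉ U H {1, a₀}} with hV
  have Vb : Bd H V := fun X hX => by
    filter_upwards [inv {1, a₀} X hX, ev_smul hX 0, ev_smul hX 1, ev_smul hX (-1)]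
      with δ h1 h2 h3 h4 x hx
    rcases hx with rfl | rfl | rfl | hx
    exacts [mul_comm δ _ ▸ h2, mul_comm δ _ ▸ h3, mul_comm δ _ ▸ h4, h1 x hx]
  have Vn : V ∈ Sm H := by
    filter_upwards [ev_mem (H := H) 1, ev_mem (H := H) a₀⁻¹] with x h1 h2
    by_cases x0 : x = 0
    · exact .inl x0
    refine .inr (.inr (.inr fun k => ha ?_))
    have := h.div (h.mul (k a₀ (by simp)) h1) (h.mul (k 1 (by simp)) h2)
    convert this using 1
    have e1 : 1 + 1 * x⁻¹ = (1 + 1 * x) / x := by field_simp; ring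
    have e2 : 1 + a₀⁻¹ * x = (1 + a₀ * x⁻¹) * x / a₀ := by field_simp; ring
    have p := h.ne h1
    have q := h.ne (k a₀ (by simp))
    rw [e1, e2]
    generalize 1 + 1 * x = u, 1 + a₀ * x⁻¹ = v at p q ⊢
    field_simp
  by_cases top : Subring.closure V = ⊤
  swap
  · left
    obtain ⟨a, m, a0, hu⟩ : ∃ a ∈ Subring.closure V, a ≠ 0 ∧ a⁻¹ ∉ Subring.closure V := by
      by_contra k
      push Not at k
      refine top (eq_top_iff.2 fun x _ => ?_)
      obtain ⟨t, t0, h1, h2⟩ := exists_ne h.toGp hc (inter_mem Vn (ev_smul Vn x))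
      have := mul_mem (Subring.subset_closure (s := V) (show x * t ∈ V from h2))
        (k t (Subring.subset_closure h1) t0)
      rwa [mul_inv_cancel_right₀ t0] at this
    obtain ⟨O, h1, h2⟩ := Ideal.image_subset_nonunits_valuationSubring
      (Ideal.span {(⟨a, m⟩ : Subring.closure V)}) fun k => hu (by
        obtain ⟨u, e⟩ := (Ideal.span_singleton_eq_top.1 k).exists_right_inv
        rw [← eq_inv_of_mul_eq_one_right (congrArg Subtype.val e)]
        exact u.2)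
    refine ⟨O, ?_, fun x hx => ?_⟩
    · rintro rfl
      have := h2 ⟨_, Ideal.subset_span rfl, rfl⟩
      simp [ValuationSubring.mem_nonunits_iff_or, a0] at this
    · by_contra k
      exact hx (h1 (Subring.subset_closure (.inr (.inr (.inr fun u =>
        k (by simpa using u 1 (by simp)))))))
  right
  obtain ⟨t, t0, ht⟩ : ∃ t ≠ 0, ∀ u ∈ V, ∀ v ∈ V, t * (u * v) ∈ V ∧ t * (u + v) ∈ V := by
    obtain ⟨Y, hY, k⟩ := add_mem h hc nd a0 ha Vn
    obtain ⟨t, t0, h1, h2⟩ := exists_ne h.toGp hc (inter_mem (Vb _ (Vb V Vn)) (Vb Y hY))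
    exact ⟨t, t0, fun u hu v hv => ⟨mul_assoc t u v ▸ h1 u hu v hv,
      mul_add t u v ▸ k _ (h2 u hu) _ (h2 v hv)⟩⟩
  have V1 : (1 : K) ∈ V := by simp [hV]
  have pm : ∀ {i j : ℤ} {x y : K}, t ^ i * x ∈ V → t ^ j * y ∈ V → t ^ (i + j + 1) * (x * y) ∈ V :=
    fun {i j x y} p q => by
      convert (ht _ p _ q).1 using 1
      rw [zpow_add_one₀ t0, zpow_add₀ t0]; ring
  have mono : ∀ {i j : ℤ} {x : K}, i ≤ j → t ^ i * x ∈ V → t ^ j * x ∈ V := fun {i j x} k p => by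
    induction j, k using Int.leInduction with
    | base => exact p
    | succ j _ ih => simpa using pm (j := 0) (y := 1) ih (by simpa using V1)
  have pa : ∀ {i j : ℤ} {x y : K}, t ^ i * x ∈ V → t ^ j * y ∈ V →
      t ^ (max i j + 1) * (x + y) ∈ V := fun {i j x y} p q => by
    convert (ht _ (mono (le_max_left i j) p) _ (mono (le_max_right i j) q)).2 using 1
    rw [zpow_add_one₀ t0]; ring
  have ex : ∀ x : K, ∃ j : ℤ, t ^ j * x ∈ V := fun x => by
    have : x ∈ Subring.closure V := top ▸ Subring.mem_top x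
    induction this using Subring.closure_induction with
    | mem x k => exact ⟨0, by simpa using k⟩
    | zero => exact ⟨0, by simp [hV]⟩
    | one => exact ⟨0, by simp [hV]⟩
    | add x y _ _ a b => obtain ⟨_, a⟩ := a; obtain ⟨_, b⟩ := b; exact ⟨_, pa a b⟩
    | neg x _ a =>
      obtain ⟨_, a⟩ := a
      exact ⟨_, by simpa using pm (j := 0) (y := -1) a (by simp [hV])⟩
    | mul x y _ _ a b => obtain ⟨_, a⟩ := a; obtain ⟨_, b⟩ := b; exact ⟨_, pm a b⟩
  have absorb : ∀ B, Bd H B → ∃ j : ℤ, ∀ x ∈ B, t ^ j * x ∈ V := fun B hB => by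
    obtain ⟨b, b0, k⟩ := exists_ne h.toGp hc (hB V Vn)
    obtain ⟨j, hj⟩ := ex b⁻¹
    exact ⟨j + 1, fun x hx => by
      simpa [b0] using pm (j := 0) (y := b * x) hj (by simpa using k x hx)⟩
  have basis : ∀ X ∈ Sm H, ∃ j : ℤ, ∀ x, t ^ (-j) * x ∈ V → x ∈ X := fun X hX => by
    obtain ⟨b, b0, k⟩ := exists_ne h.toGp hc (Vb X hX)
    obtain ⟨j, hj⟩ := ex b⁻¹
    refine ⟨j + 1, fun x hx => ?_⟩
    simpa [b0] using k _ (pm hj hx)
  have low : ∀ x : K, ∃ j : ℤ, x ≠ 0 → t ^ j * x ∈ V ∧ ∀ i, t ^ i * x ∈ V → j ≤ i := fun x => by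
    by_cases x0 : x = 0
    · exact ⟨0, fun k => (k x0).elim⟩
    obtain ⟨j, hj⟩ := basis _ (ev_mem (H := H) (-x⁻¹))
    obtain ⟨i, hi⟩ := Int.exists_least_of_bdd (P := fun i => t ^ i * x ∈ V) ⟨-j, fun i hi =>
      not_lt.1 fun k => h.zero (by simpa [x0] using hj x (mono k.le hi))⟩ (ex x)
    exact ⟨i, fun _ => hi⟩
  choose ν hν using low
  obtain ⟨C, hC⟩ : ∃ C : ℤ, ∀ y ∉ V, t ^ C * y⁻¹ ∈ V := by
    obtain ⟨A, hA⟩ := Vn
    obtain ⟨C, hC⟩ := absorb _ (inv A)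
    exact ⟨C, fun y hy => hC _ (by simpa using fun k => hy (hA k))⟩
  have ninv : ∀ x ≠ 0, ν x⁻¹ ≤ C + 1 - ν x := fun x x0 => by
    refine (hν _ (inv_ne_zero x0)).2 _ ?_
    convert hC (t ^ (ν x - 1) * x) (fun k => by have := (hν x x0).2 _ k; omega) using 1
    rw [mul_inv, ← zpow_neg, ← mul_assoc, ← zpow_add₀ t0]
    congr 2; ring
  have nmul : ∀ x ≠ 0, ∀ y ≠ 0, ν (x * y) ≤ ν x + ν y + 1 := fun x x0 y y0 =>
    (hν _ (mul_ne_zero x0 y0)).2 _ (pm (hν x x0).1 (hν y y0).1)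
  obtain ⟨g, α, α0, hg⟩ := abs_of_quasi (fun x => (ν x : ℝ)) ((|C| + 2 : ℤ) : ℝ) (by positivity)
    (fun x x0 y y0 => by
      have h1 := nmul x x0 y y0
      have h2 := nmul _ (mul_ne_zero x0 y0) _ (inv_ne_zero y0)
      have h3 := ninv y y0
      rw [mul_inv_cancel_right₀ y0] at h2
      have := le_abs_self C
      have := abs_nonneg C
      exact_mod_cast abs_le.2 ⟨by omega, by omega⟩)
    (fun x x0 y y0 k => by
      have := (hν _ k).2 _ (pa (hν x x0).1 (hν y y0).1)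
      have := abs_nonneg C
      exact_mod_cast (by omega : ν (x + y) ≤ max (ν x) (ν y) + (|C| + 2)))
  refine ⟨g, ?_, t ^ (|C| + 3), zpow_ne_zero _ t0, ?_⟩
  · obtain ⟨j, hj⟩ := basis _ (ev_mem (H := H) 1)
    refine ⟨Real.exp (α * (-j - (|C| + 2 : ℤ))), Real.exp_pos _, fun x hx => ?_⟩
    by_cases x0 : x = 0
    · simpa [x0] using h.one
    have h1 := (Real.log_lt_iff_lt_exp (g.pos x0)).2 hx
    have h2 := (abs_le.1 (hg x x0)).1
    have h3 : (ν x : ℝ) < -j := lt_of_mul_lt_mul_left (by linarith) α0.le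
    simpa using hj x (mono (by exact_mod_cast h3.le) (hν x x0).1)
  · have x0 := zpow_ne_zero (|C| + 3) t0
    have h1 : ν (t ^ (|C| + 3)) ≤ -(|C| + 3) := (hν _ x0).2 _ (by
      rw [← zpow_add₀ t0]; simpa using V1)
    have h2 := (abs_le.1 (hg _ x0)).2
    have h3 : (ν (t ^ (|C| + 3)) : ℝ) + (|C| + 2 : ℤ) ≤ -1 := by exact_mod_cast (by omega)
    refine (Real.log_neg_iff (g.pos x0)).1 ?_
    nlinarith

end Pool.Agent.Lib.MP_887a05_al.FS
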