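import Mathlib

/-!
Pfister forms relative to a multiplicative subgroup `H` containing the nonzero squares.
`N H l` is the set of values of nontrivial representations by the Pfister form with slots `l`, the
squares being replaced by the elements of `H`.
-/

namespace Pool.Agent.Lib.MP_887a05_al.FS

variable {K : Type*} [Field K]

/-- A multiplicative subgroup containing all nonzero squares. -/
structure Gp (P : Set K) : Prop where
  zero : 0 ∉ P
  mul : ∀ {a b}, a ∈ P → b ∈ P → a * b ∈ P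
  sq : ∀ {a}, a ≠ 0 → a ^ 2 ∈ P

namespace Gp

variable {P : Set K} (h : Gp P) {a b c : K}
include h

theorem ne (ha : a ∈ P) : a ≠ 0 := fun e => h.zero (e ▸ ha)
theorem one : (1 : K) ∈ P := by simpa using h.sq one_ne_zero
theorem of_sq {s : K} (hb : b ∈ P) (hs : s ≠ 0) (e : c * s ^ 2 = b) : c ∈ P := by
  have := h.mul hb (h.sq (inv_ne_zero hs))
  rwa [← e, show c * s ^ 2 * s⁻¹ ^ 2 = c by field_simp] at this
theorem inv (ha : a ∈ P) : a⁻¹ ∈ P := h.of_sq ha (h.ne ha) (by field_simp [h.ne ha])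
theorem div (ha : a ∈ P) (hb : b ∈ P) : a / b ∈ P := div_eq_mul_inv a b ▸ h.mul ha (h.inv hb)
theorem cancel (ha : a ∈ P) (hab : a * b ∈ P) : b ∈ P := by
  have := h.div hab ha
  rwa [mul_div_cancel_left₀ _ (h.ne ha)] at this

end Gp

/-- Values of nontrivial representations by a Pfister form over the base set `B`. -/
def N (B : Set K) : List K → Set K
  | [] => B
  | a :: l => {w | ∃ x y, (x ∈ N B l ∨ x = 0) ∧ (y ∈ N B l ∨ y = 0) ∧ (x ∈ N B l ∨ y ∈ N B l) ∧
      w = x - a * y}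

variable {B H : Set K} {a b c t w : K} {l l' : List K}

theorem N_swap_sub : N B (a :: b :: l) ⊆ N B (b :: a :: l) := by
  have mk : ∀ {a p q : K}, (p ∈ N B l ∨ p = 0) → (q ∈ N B l ∨ q = 0) →
      p - a * q ∈ N B (a :: l) ∨ p - a * q = 0 := fun {a p q} hp hq => by
    by_cases h : p ∈ N B l ∨ q ∈ N B l
    · exact .inl ⟨p, q, hp, hq, h, rfl⟩
    · push Not at h
      simp [hp.resolve_left h.1, hq.resolve_left h.2]
  have un : ∀ {x : K}, (x ∈ N B (b :: l) ∨ x = 0) → ∃ p q, (p ∈ N B l ∨ p = 0) ∧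
      (q ∈ N B l ∨ q = 0) ∧ x = p - b * q := by
    rintro x (⟨p, q, hp, hq, -, e⟩ | rfl)
    exacts [⟨p, q, hp, hq, e⟩, ⟨0, 0, .inr rfl, .inr rfl, by simp⟩]
  rintro w ⟨x, y, hx, hy, ⟨p, q, hp, hq, hpq, rfl⟩ | ⟨r, s, hr, hs, hrs, rfl⟩, rfl⟩
  · obtain ⟨r, s, hr, hs, rfl⟩ := un hy
    exact ⟨p - a * r, q - a * s, mk hp hr, mk hq hs, hpq.imp (fun h => ⟨_, _, hp, hr, .inl h, rfl⟩)
      fun h => ⟨_, _, hq, hs, .inl h, rfl⟩, by ring⟩
  · obtain ⟨p, q, hp, hq, rfl⟩ := un hx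
    exact ⟨p - a * r, q - a * s, mk hp hr, mk hq hs, hrs.imp (fun h => ⟨_, _, hp, hr, .inr h, rfl⟩)
      fun h => ⟨_, _, hq, hs, .inr h, rfl⟩, by ring⟩

theorem N_cons_congr (h : N B l = N B l') : N B (a :: l) = N B (a :: l') := by simp only [N, h]

theorem N_perm (h : l.Perm l') : N B l = N B l' := by
  induction h with
  | nil => rfl
  | cons _ _ ih => exact N_cons_congr ih
  | swap => exact N_swap_sub.antisymm N_swap_sub
  | trans _ _ a b => exact a.trans b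

theorem N_append (l l' : List K) : N B (l ++ l') = N (N B l') l := by
  induction l with
  | nil => rfl
  | cons a l ih => simp only [List.cons_append, N, ih]

theorem N_sub_cons : N B l ⊆ N B (a :: l) := fun w h => ⟨w, 0, .inl h, .inr rfl, .inl h, by simp⟩

theorem N_sub_append (l l' : List K) : N B l' ⊆ N B (l ++ l') := by
  induction l with
  | nil => exact subset_rfl
  | cons a l ih => exact ih.trans N_sub_cons

/-- Multiplication by `t` preserves `X`. -/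
def Sim (X : Set K) (t : K) : Prop := ∀ w ∈ X, t * w ∈ X

theorem Sim.cons (h : Sim (N B l) t) : Sim (N B (a :: l)) t := by
  rintro w ⟨x, y, hx, hy, hxy, rfl⟩
  exact ⟨t * x, t * y, hx.imp (h x) (by simp +contextual), hy.imp (h y) (by simp +contextual),
    hxy.imp (h x) (h y), by ring⟩

theorem Sim.N (h : Sim B t) (l : List K) : Sim (N B l) t := by
  induction l with
  | nil => exact h
  | cons a l ih => exact ih.cons

theorem Sim.mul {X : Set K} {s : K} (h : Sim X s) (k : Sim X t) : Sim X (s * t) := fun w hw =>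
  mul_assoc s t w ▸ h _ (k w hw)

theorem Gp.sim (h : Gp H) (ht : t ∈ H) (l : List K) : Sim (N H l) t :=
  Sim.N (fun _ hw => h.mul ht hw) l

theorem N_scale_sub (h : Sim (N B l) t) : N B ((t * a) :: l) ⊆ N B (a :: l) := by
  rintro w ⟨x, y, hx, hy, hxy, rfl⟩
  exact ⟨x, t * y, hx, hy.imp (h y) (by simp +contextual), hxy.imp_right (h y), by ring⟩

theorem Gp.scale (h : Gp H) (ht : t ≠ 0) (k : Sim (N H l) t) : N H ((t * a) :: l) = N H (a :: l) := by
  refine (N_scale_sub k).antisymm ?_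
  have := N_scale_sub (a := t * a) (k.mul (h.sim (h.sq (inv_ne_zero ht)) l))
  rwa [show t * t⁻¹ ^ 2 * (t * a) = a by field_simp] at this

theorem Gp.sq_mul (h : Gp H) {z : K} (s : K) (hz : z ∈ N H l ∨ z = 0) :
    s ^ 2 * z ∈ N H l ∨ s ^ 2 * z = 0 := by
  by_cases hs : s = 0
  · simp [hs]
  · exact hz.imp (h.sim (h.sq hs) l z) (by simp +contextual)

theorem Gp.univ (h : Gp H) (h2 : (2 : K) ≠ 0) (hl : ∀ a ∈ l, a ≠ 0) (h0 : 0 ∈ N H l) (w : K) :
    w ∈ N H l := by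
  induction l generalizing w with
  | nil => exact (h.zero h0).elim
  | cons a l ih =>
    by_cases k : 0 ∈ N H l
    · exact N_sub_cons (ih (fun b hb => hl b (by simp [hb])) k w)
    obtain ⟨x, y, hx, hy, hxy, e⟩ := h0
    have a0 := hl a (by simp)
    have x0 : x ≠ 0 := by
      rintro rfl
      obtain rfl : y = 0 := by simpa [a0] using e
      exact k (hxy.elim id id)
    have y0 : y ≠ 0 := by rintro rfl; exact x0 (by simpa using e.symm)
    refine ⟨((w / x + 1) / 2) ^ 2 * x, ((w / x - 1) / 2) ^ 2 * y, h.sq_mul _ hx, h.sq_mul _ hy, ?_, ?_⟩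
    · by_cases e1 : (w / x + 1) / 2 = 0
      · refine .inr (h.sim (h.sq fun e2 => h2 ?_) l y (hy.resolve_right y0))
        field_simp at e1 e2
        apply mul_left_cancel₀ x0
        linear_combination e1 - e2
      · exact .inl (h.sim (h.sq e1) l x (hx.resolve_right x0))
    · rw [← mul_assoc, mul_comm a, mul_assoc, show a * y = x by linear_combination e]
      field_simp
      ring

/-- The nonzero values of the binary form with slot `a`. -/
def pp (H : Set K) (a : K) : Set K := {b | b ≠ 0 ∧ b ∈ N H [a]}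

theorem Gp.sub_pp (h : Gp H) (hb : b ∈ H) (a : K) : b ∈ pp H a := ⟨h.ne hb, N_sub_cons hb⟩

theorem Gp.neg_pp (h : Gp H) (ha : a ≠ 0) : -a ∈ pp H a :=
  ⟨neg_ne_zero.2 ha, 0, 1, .inr rfl, .inl h.one, .inr h.one, by simp⟩

theorem Gp.one_sub_pp (h : Gp H) (ha : 1 - a ≠ 0) : 1 - a ∈ pp H a :=
  ⟨ha, 1, 1, .inl h.one, .inl h.one, .inr h.one, by simp⟩

theorem Gp.pp_of_mem (h : Gp H) (h2 : (2 : K) ≠ 0) (ha : a ∈ H) (hb : b ≠ 0) : b ∈ pp H a :=
  ⟨hb, h.univ (l := [a]) h2 (by simpa using h.ne ha) ⟨a, 1, .inl ha, .inl h.one, .inl ha, by simp⟩ b⟩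

theorem Gp.pp_symm (h : Gp H) (h2 : (2 : K) ≠ 0) (ha : a ≠ 0) (hb : b ∈ pp H a) : a ∈ pp H b := by
  obtain ⟨b0, x, y, hx, hy, -, e⟩ := hb
  rcases hy with hy | rfl
  · have y0 := h.ne hy
    exact ⟨ha, y⁻¹ * x, y⁻¹, hx.imp (h.mul (h.inv hy)) (by simp +contextual), .inl (h.inv hy),
      .inr (h.inv hy), by rw [e]; field_simp; ring⟩
  · exact h.pp_of_mem h2 (by rw [e] at b0 ⊢; simpa [N] using hx.resolve_right (by simpa using b0)) ha

/-- The value sets of binary forms are groups. -/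
structure Good (H : Set K) : Prop extends Gp H where
  two : (2 : K) ≠ 0
  pmul : ∀ {a b c}, a ≠ 0 → b ∈ pp H a → c ∈ pp H a → b * c ∈ pp H a

namespace Good

variable (h : Good H)
include h

theorem gp (ha : a ≠ 0) : Gp (pp H a) :=
  ⟨fun k => k.1 rfl, h.pmul ha, fun k => h.sub_pp (h.sq k) a⟩

theorem symm (ha : a ≠ 0) (hb : b ∈ pp H a) : a ∈ pp H b := h.pp_symm h.two ha hb

theorem lmul (ha : a ≠ 0) (hb : b ≠ 0) (h1 : c ∈ pp H a) (h2 : c ∈ pp H b) : c ∈ pp H (a * b) :=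
  h.symm h1.1 (h.pmul h1.1 (h.symm ha h1) (h.symm hb h2))

theorem lcancel (ha : a ≠ 0) (hb : b ≠ 0) (h1 : c ∈ pp H a) (h2 : c ∈ pp H (a * b)) :
    c ∈ pp H b :=
  h.symm h1.1 ((h.gp h1.1).cancel (h.symm ha h1) (h.symm (mul_ne_zero ha hb) h2))

theorem sim_one (ha : a ≠ 0) (ht : t ∈ pp H a) : Sim (N H [a]) t := fun w hw => by
  by_cases w0 : w = 0
  · simpa [w0] using hw
  · exact (h.pmul ha ht ⟨w0, hw⟩).2

theorem sim (hb : b ∈ l) (b0 : b ≠ 0) (ht : t ∈ pp H b) : Sim (N H l) t := by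
  classical
  rw [N_perm ((List.perm_cons_erase hb).trans (List.perm_append_singleton _ _).symm), N_append]
  exact (h.sim_one b0 ht).N _

theorem move (hb : b ∈ l) (b0 : b ≠ 0) (ht : t ∈ pp H b) : N H ((t * a) :: l) = N H (a :: l) :=
  h.scale ht.1 (h.sim hb b0 ht)

theorem iso_two (ha : a ∈ pp H b) : 0 ∈ N H [a, b] :=
  ⟨a, 1, .inl ha.2, .inl (h.sub_pp h.one b).2, .inl ha.2, by simp⟩

end Good

/-- `H` has at most `n` cosets. -/
def Cov (H : Set K) (n : ℕ) : Prop :=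
  ∃ R : Finset K, R.card ≤ n ∧ ∀ a ≠ 0, ∃ r ∈ R, a * r ∈ H

theorem Cov.lt {H' : Set K} {n : ℕ} (h : Gp H) (h' : Gp H') (hc : Cov H (n + 1)) (sub : H ⊆ H')
    (ne : ¬ H' ⊆ H) : Cov H' n := by
  classical
  obtain ⟨R, hR, hc⟩ := hc
  obtain ⟨x, hx, hx'⟩ := Set.not_subset.1 ne
  obtain ⟨r, hr, k⟩ := hc 1 one_ne_zero
  obtain ⟨s, hs, k'⟩ := hc x (h'.ne hx)
  rw [one_mul] at k
  refine ⟨R.erase s, by rw [Finset.card_erase_of_mem hs]; omega, fun a ha => ?_⟩
  obtain ⟨q, hq, k''⟩ := hc a ha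
  by_cases e : q = s
  · refine ⟨r, Finset.mem_erase.2 ⟨?_, hr⟩, h'.mul ?_ (sub k)⟩
    · rintro rfl
      exact hx' (h.cancel k (mul_comm x r ▸ k'))
    · exact h'.cancel (h'.cancel hx (sub k')) (mul_comm a s ▸ e ▸ sub k'')
  · exact ⟨q, Finset.mem_erase.2 ⟨e, hq⟩, sub k''⟩

/-- The radical. -/
def rad (H : Set K) : Set K := {r | r ≠ 0 ∧ ∀ a ≠ 0, r ∈ pp H a}

namespace Good

variable (h : Good H)
include h

theorem sub_rad : H ⊆ rad H := fun _ hx => ⟨h.ne hx, fun a _ => h.sub_pp hx a⟩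

theorem gp_rad : Gp (rad H) :=
  ⟨fun k => k.1 rfl, fun x y => ⟨mul_ne_zero x.1 y.1, fun a ha => h.pmul ha (x.2 a ha) (y.2 a ha)⟩,
    fun k => h.sub_rad (h.sq k)⟩

theorem pp_rad (ha : a ≠ 0) : pp (rad H) a = pp H a := by
  refine Set.Subset.antisymm ?_ fun w ⟨w0, x, y, hx, hy, hxy, e⟩ =>
    ⟨w0, x, y, hx.imp_left (h.sub_rad ·), hy.imp_left (h.sub_rad ·),
      hxy.imp (h.sub_rad ·) (h.sub_rad ·), e⟩
  rintro w ⟨w0, x, y, hx | rfl, hy | rfl, -, rfl⟩
  · have r := h.gp_rad.div hy hx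
    have e : 1 - a * (y / x) ≠ 0 := by
      rwa [show 1 - a * (y / x) = (x - a * y) / x by field_simp [hx.1], div_ne_zero_iff,
        and_iff_left hx.1]
    have := h.lcancel r.1 ha (h.symm e (r.2 _ e)) (mul_comm a _ ▸ h.one_sub_pp e)
    have := h.pmul ha (hx.2 a ha) this
    rwa [show x * (1 - a * (y / x)) = x - a * y by field_simp [hx.1]] at this
  · simpa using hx.2 a ha
  · simpa using h.pmul ha (h.neg_pp ha) (hy.2 a ha)
  · simp at w0

theorem good_rad : Good (rad H) :=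
  ⟨h.gp_rad, h.two, fun ha => by rw [h.pp_rad ha]; exact h.pmul ha⟩

theorem iso_of_rad (hl : ∀ a ∈ l, a ≠ 0) (len : 2 ≤ l.length) (k : 0 ∈ N (rad H) l) :
    0 ∈ N H l := by
  obtain ⟨l, a, rfl⟩ := (l.eq_nil_or_concat).resolve_left (by rintro rfl; simp at len)
  rw [List.concat_eq_append] at *
  have a0 := hl a (by simp)
  by_cases ha : a ∈ rad H
  · obtain ⟨l, b, rfl⟩ := (l.eq_nil_or_concat).resolve_left (by rintro rfl; simp at len)
    have b0 := hl b (by simp)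
    rw [List.concat_eq_append, List.append_assoc]
    exact N_sub_append _ _ (h.iso_two (h.symm b0 (ha.2 b b0)))
  · have : N (rad H) [a] ⊆ N H [a] := fun w hw => by
      by_cases w0 : w = 0
      · obtain ⟨x, y, hx, hy, hxy, e⟩ := hw
        have e' : x = a * y := by rw [w0] at e; linear_combination -e
        rcases hy with hy | rfl
        · refine (ha (h.gp_rad.cancel hy ?_)).elim
          rw [mul_comm, ← e']
          exact hx.resolve_right (e' ▸ mul_ne_zero a0 hy.1)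
        · rw [mul_zero] at e'
          exact (h.gp_rad.zero (by simpa [e', N] using hxy)).elim
      · exact ((h.pp_rad a0).le ⟨w0, hw⟩).2
    have e : N (rad H) [a] = N H [a] := this.antisymm fun w ⟨x, y, hx, hy, hxy, e⟩ =>
      ⟨x, y, hx.imp_left (h.sub_rad ·), hy.imp_left (h.sub_rad ·),
        hxy.imp (h.sub_rad ·) (h.sub_rad ·), e⟩
    rwa [N_append, ← e, ← N_append]

end Good

/-- An orthogonal decomposition compatible with the Steinberg relation on the second factor. -/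
structure Dec (H T G : Set K) : Prop where
  gT : Gp T
  gG : Gp G
  sT : H ⊆ T
  sG : H ⊆ G
  inter : ∀ {a}, a ∈ T → a ∈ G → a ∈ H
  orth : ∀ {t g}, t ∈ T → g ∈ G → g ∈ pp H t
  gen : ∀ a ≠ 0, ∃ t ∈ T, ∃ g ∈ G, a = t * g
  st : ∀ {t g t' g'}, t ∈ T → g ∈ G → t' ∈ T → g' ∈ G → t * g + t' * g' = 1 → g' ∈ pp H g

namespace Dec

variable {T G : Set K} (h : Good H) (d : Dec H T G)
include h d

theorem symm : Dec H G T where
  gT := d.gG
  gG := d.gT
  sT := d.sG
  sG := d.sT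
  inter a b := d.inter b a
  orth a b := h.symm (d.gT.ne b) (d.orth b a)
  gen a ha := by
    obtain ⟨t, ht, g, hg, e⟩ := d.gen a ha
    exact ⟨g, hg, t, ht, e.trans (mul_comm _ _)⟩
  st := fun {g t g' t'} hg ht hg' ht' e => by
    have g0 := d.gG.ne hg
    have t0 := d.gT.ne ht
    have e1 : g' * t' = 1 - g * t := by linear_combination e
    have h1 : g' * t' ∈ pp H (g * t) :=
      e1 ▸ h.one_sub_pp (e1 ▸ mul_ne_zero (d.gG.ne hg') (d.gT.ne ht'))
    have h2 : g' * t' ∈ pp H g := h.pmul g0 (d.st ht hg ht' hg' (by linear_combination e))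
      (h.symm (d.gT.ne ht') (d.orth ht' hg))
    exact (h.gp t0).cancel (d.orth ht hg') (h.lcancel g0 t0 h2 h1)

theorem pp_iff {t g t' g' : K} (ht : t ∈ T) (hg : g ∈ G) (ht' : t' ∈ T) (hg' : g' ∈ G) :
    t' * g' ∈ pp T (t * g) ↔ g' ∈ pp H g := by
  have g0 := d.gG.ne hg
  have t0 := d.gT.ne ht
  have g0' := d.gG.ne hg'
  have t0' := d.gT.ne ht'
  constructor
  · rintro ⟨-, x, y, hx | rfl, hy | rfl, -, e⟩
    · have x0 := d.gT.ne hx
      exact d.st (d.gT.div (d.gT.mul ht hy) hx) hg (d.gT.div ht' hx) hg' (by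
        field_simp; linear_combination e)
    · exact h.sub_pp (d.inter (d.gT.cancel ht' (by simpa [e, N] using hx)) hg') g
    · obtain ⟨m, hm, n, hn, e1⟩ := d.gen (-1) (by simp)
      have h1 : n * g ∈ pp H g := (h.gp g0).cancel (h.symm (d.gT.ne hm) (d.orth hm hg))
        (by rw [← mul_assoc, ← e1, neg_one_mul]; exact h.neg_pp g0)
      have h2 : g' / (n * g) ∈ H := d.inter (by
        have := d.gT.div (d.gT.mul (d.gT.mul hm ht) hy) ht'
        convert this using 1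
        have := d.gG.ne hn
        field_simp
        linear_combination e + t * g * y * e1) (d.gG.div hg' (d.gG.mul hn hg))
      have := h.pmul g0 h1 (h.sub_pp h2 g)
      rwa [mul_div_cancel₀ _ h1.1] at this
    · simp [t0', g0'] at e
  · rintro ⟨-, x, y, hx, hy, hxy, e⟩
    have f1 : ∀ {z}, z ∈ N H [] → t' * z ∈ N T [] := fun hz => d.gT.mul ht' (d.sT hz)
    have f2 : ∀ {z}, z ∈ N H [] → t' / t * z ∈ N T [] := fun hz =>
      d.gT.mul (d.gT.div ht' ht) (d.sT hz)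
    exact ⟨mul_ne_zero t0' g0', t' * x, t' / t * y, hx.imp f1 (by simp +contextual),
      hy.imp f2 (by simp +contextual), hxy.imp f1 f2, by rw [e]; field_simp⟩

theorem good : Good T :=
  ⟨d.gT, h.two, fun {a b c} ha hb hc => by
    obtain ⟨t, ht, g, hg, rfl⟩ := d.gen a ha
    obtain ⟨t1, ht1, g1, hg1, rfl⟩ := d.gen b hb.1
    obtain ⟨t2, ht2, g2, hg2, rfl⟩ := d.gen c hc.1
    rw [d.pp_iff h ht hg ht1 hg1] at hb
    rw [d.pp_iff h ht hg ht2 hg2] at hc
    rw [mul_mul_mul_comm, d.pp_iff h ht hg (d.gT.mul ht1 ht2) (d.gG.mul hg1 hg2)]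
    exact h.pmul (d.gG.ne hg) hb hc⟩

theorem pp_inter (ha : a ≠ 0) (h1 : w ∈ pp T a) (h2 : w ∈ pp G a) : w ∈ pp H a := by
  obtain ⟨t, ht, g, hg, rfl⟩ := d.gen a ha
  obtain ⟨t1, ht1, g1, hg1, rfl⟩ := d.gen w h1.1
  rw [d.pp_iff h ht hg ht1 hg1] at h1
  rw [mul_comm t1, mul_comm t, (d.symm h).pp_iff h hg ht hg1 ht1] at h2
  have g0 := d.gG.ne hg
  have t0 := d.gT.ne ht
  exact h.lmul t0 g0 (h.pmul t0 h2 (d.orth ht hg1))
    (h.pmul g0 (h.symm (d.gT.ne ht1) (d.orth ht1 hg)) h1)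

omit h in
theorem glue {x y : K} (hx : x ≠ 0) (hy : y ≠ 0) : ∃ z, z / x ∈ T ∧ z / y ∈ G := by
  obtain ⟨t, ht, g, hg, e⟩ := d.gen (y / x) (div_ne_zero hy hx)
  have g0 := d.gG.ne hg
  refine ⟨t * x, by simpa [hx] using ht, ?_⟩
  convert d.gG.inv hg using 1
  field_simp at e ⊢
  linear_combination -e

end Dec

theorem Gp.both (h : Gp H) [Infinite K] (h2 : (2 : K) ≠ 0) (ha : a ≠ 0) (w0 : w ≠ 0)
    (hw : w ∈ N H (a :: l)) : ∃ x y, x ≠ 0 ∧ y ≠ 0 ∧ x ∈ N H l ∧ y ∈ N H l ∧ w = x - a * y := by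
  obtain ⟨p, q, p0, q0, e⟩ : ∃ p q : K, p ≠ 0 ∧ q ≠ 0 ∧ p ^ 2 - a * q ^ 2 = 1 := by
    classical
    have : (Polynomial.X * (1 - Polynomial.C (a ^ 2) * Polynomial.X ^ 4) : Polynomial K) ≠ 0 :=
      mul_ne_zero Polynomial.X_ne_zero fun e => by simpa using congrArg (Polynomial.eval 0) e
    obtain ⟨r, hr⟩ := Infinite.exists_notMem_finset
      (Polynomial.X * (1 - Polynomial.C (a ^ 2) * Polynomial.X ^ 4) : Polynomial K).roots.toFinset
    simp only [Multiset.mem_toFinset, Polynomial.mem_roots this, Polynomial.IsRoot.def,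
      Polynomial.eval_mul, Polynomial.eval_X, Polynomial.eval_sub, Polynomial.eval_one,
      Polynomial.eval_C, Polynomial.eval_pow, mul_eq_zero, not_or] at hr
    have e : 1 - a ^ 2 * r ^ 4 = (1 + a * r ^ 2) * (1 - a * r ^ 2) := by ring
    rw [e, mul_eq_zero, not_or] at hr
    exact ⟨(1 + a * r ^ 2) / (1 - a * r ^ 2), 2 * r / (1 - a * r ^ 2), div_ne_zero hr.2.1 hr.2.2,
      div_ne_zero (mul_ne_zero h2 hr.1) hr.2.2, by field_simp [hr.2.2]; ring⟩
  obtain ⟨x, y, hx, hy, -, rfl⟩ := hw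
  by_cases x0 : x = 0
  · have y0 : y ≠ 0 := by rintro rfl; simp [x0] at w0
    exact ⟨(a * q) ^ 2 * y, p ^ 2 * y, by simp [*], by simp [*],
      h.sim (h.sq (mul_ne_zero ha q0)) l y (hy.resolve_right y0),
      h.sim (h.sq p0) l y (hy.resolve_right y0), by rw [x0]; linear_combination a * y * e⟩
  by_cases y0 : y = 0
  · exact ⟨p ^ 2 * x, (q / a * a) ^ 2 * x, by simp [*], by simp [*],
      h.sim (h.sq p0) l x (hx.resolve_right x0),
      h.sim (h.sq (by simp [*])) l x (hx.resolve_right x0), by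
        rw [y0, div_mul_cancel₀ _ ha]; linear_combination -x * e⟩
  exact ⟨x, y, x0, y0, hx.resolve_right x0, hy.resolve_right y0, rfl⟩

theorem Dec.N_inter [Infinite K] {T G : Set K} (h : Good H) (d : Dec H T G) (hl : ∀ a ∈ l, a ≠ 0)
    (h1 : w ∈ N T l) (h2 : w ∈ N G l) : w ∈ N H l := by
  induction l generalizing w with
  | nil => exact d.inter h1 h2
  | cons a l ih =>
    have a0 := hl a (by simp)
    have hl' : ∀ b ∈ l, b ≠ 0 := fun b hb => hl b (by simp [hb])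
    have up : ∀ {x y z : K}, x ≠ 0 → y ≠ 0 → x ∈ N T l → y ∈ N G l → z / x ∈ T → z / y ∈ G →
        z ∈ N H l := fun {x y z} x0 y0 hx hy a b => ih hl'
      (by simpa [x0] using d.gT.sim a l x hx) (by simpa [y0] using d.gG.sim b l y hy)
    by_cases w0 : w = 0
    · subst w0
      have ex : ∀ {P : Set K}, 0 ∉ N P l → 0 ∈ N P (a :: l) →
          ∃ y ≠ 0, y ∈ N P l ∧ a * y ∈ N P l := by
        rintro P k ⟨x, y, hx, hy, hxy, e⟩
        obtain rfl : x = a * y := by linear_combination -e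
        have y0 : y ≠ 0 := by rintro rfl; exact k (by simpa using hxy)
        exact ⟨y, y0, hy.resolve_right y0, hx.resolve_right (mul_ne_zero a0 y0)⟩
      have fin : ∀ {y z : K}, y ≠ 0 → z ≠ 0 → y ∈ N T l → a * y ∈ N T l → z ∈ N G l →
          a * z ∈ N G l → 0 ∈ N H (a :: l) := fun {y z} y0 z0 a1 a2 a3 a4 => by
        obtain ⟨u, b1, b2⟩ := d.glue y0 z0
        have c1 := up y0 z0 a1 a3 b1 b2
        exact ⟨a * u, u, .inl (up (mul_ne_zero a0 y0) (mul_ne_zero a0 z0) a2 a4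
          (by rwa [mul_div_mul_left _ _ a0]) (by rwa [mul_div_mul_left _ _ a0])), .inl c1, .inr c1,
          by simp⟩
      by_cases k1 : 0 ∈ N T l <;> by_cases k2 : 0 ∈ N G l
      · exact N_sub_cons (ih hl' k1 k2)
      · obtain ⟨y, y0, a1, a2⟩ := ex k2 h2
        exact fin y0 y0 (d.gT.univ h.two hl' k1 _) (d.gT.univ h.two hl' k1 _) a1 a2
      · obtain ⟨y, y0, a1, a2⟩ := ex k1 h1
        exact fin y0 y0 a1 a2 (d.gG.univ h.two hl' k2 _) (d.gG.univ h.two hl' k2 _)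
      · obtain ⟨y, y0, a1, a2⟩ := ex k1 h1
        obtain ⟨z, z0, a3, a4⟩ := ex k2 h2
        exact fin y0 z0 a1 a2 a3 a4
    obtain ⟨x1, y1, x10, y10, hx1, hy1, e1⟩ := d.gT.both h.two a0 w0 h1
    obtain ⟨x2, y2, x20, y20, hx2, hy2, e2⟩ := d.gG.both h.two a0 w0 h2
    obtain ⟨x, a1, a2⟩ := d.glue x10 x20
    obtain ⟨y, b1, b2⟩ := d.glue y10 y20
    have x0 : x ≠ 0 := fun e => d.gT.zero (by simpa [e] using a1)
    have y0 : y ≠ 0 := fun e => d.gT.zero (by simpa [e] using b1)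
    have key : ∀ {P : Set K} {x1 y1 : K}, Gp P → x1 ≠ 0 → y1 ≠ 0 → x / x1 ∈ P → y / y1 ∈ P →
        w = x1 - a * y1 → w / x ∈ pp P (a * y / x) := fun {P x1 y1} g u v p q e =>
      ⟨div_ne_zero w0 x0, _, _, .inl (g.inv p), .inl (g.inv q), .inl (g.inv p), by
        rw [e]; field_simp⟩
    obtain ⟨-, p, q, hp, hq, hpq, e⟩ := d.pp_inter h (div_ne_zero (mul_ne_zero a0 y0) x0)
      (key d.gT x10 y10 a1 b1 e1) (key d.gG x20 y20 a2 b2 e2)
    have f1 : p ∈ N H [] → p * x ∈ N H l := fun k => h.toGp.sim k l x (up x10 x20 hx1 hx2 a1 a2)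
    have f2 : q ∈ N H [] → q * y ∈ N H l := fun k => h.toGp.sim k l y (up y10 y20 hy1 hy2 b1 b2)
    exact ⟨p * x, q * y, hp.imp f1 (by simp +contextual), hq.imp f2 (by simp +contextual),
      hpq.imp f1 f2, by field_simp at e; linear_combination e⟩

/-- The nonzero squares. -/
def sqs (K : Type*) [Field K] : Set K := {x | ∃ s ≠ 0, x = s ^ 2}

theorem gp_sqs : Gp (sqs K) :=
  ⟨fun ⟨s, h, e⟩ => pow_ne_zero 2 h e.symm,
    fun ⟨s, h, e⟩ ⟨t, k, e'⟩ => ⟨s * t, mul_ne_zero h k, by rw [e, e', mul_pow]⟩,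
    fun h => ⟨_, h, rfl⟩⟩

theorem good_sqs (h2 : (2 : K) ≠ 0) : Good (sqs K) := by
  have un : ∀ {x : K}, x ∈ N (sqs K) [] ∨ x = 0 → ∃ s, x = s ^ 2 := by
    rintro x (⟨s, -, e⟩ | rfl)
    exacts [⟨s, e⟩, ⟨0, by simp⟩]
  have mk : ∀ s : K, s ^ 2 ∈ N (sqs K) [] ∨ s ^ 2 = 0 := fun s => by
    by_cases h : s = 0
    exacts [.inr (by simp [h]), .inl ⟨s, h, rfl⟩]
  refine ⟨gp_sqs, h2, ?_⟩
  rintro a b c - ⟨b0, x, y, hx, hy, -, rfl⟩ ⟨c0, z, u, hz, hu, -, rfl⟩
  obtain ⟨x, rfl⟩ := un hx; obtain ⟨y, rfl⟩ := un hy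
  obtain ⟨z, rfl⟩ := un hz; obtain ⟨u, rfl⟩ := un hu
  have e : (x ^ 2 - a * y ^ 2) * (z ^ 2 - a * u ^ 2) =
      (x * z + a * y * u) ^ 2 - a * (x * u + y * z) ^ 2 := by ring
  refine ⟨mul_ne_zero b0 c0, _, _, mk _, mk _, ?_, e⟩
  by_contra k
  push Not at k
  exact mul_ne_zero b0 c0 (by rw [e, (mk _).resolve_left k.1, (mk _).resolve_left k.2]; simp)

/-- A field of characteristic two with finitely many square classes is perfect. -/
theorem sq_of_char_two (h2 : (2 : K) = 0) {n : ℕ} (hc : Cov (sqs K) n) (a : K) : ∃ s, a = s ^ 2 := by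
  by_contra k
  push Not at k
  obtain ⟨R, -, hR⟩ := hc
  have ne : ∀ s : K, a + s ^ 2 ≠ 0 := fun s e => k s (by linear_combination e - s ^ 2 * h2)
  choose r hr hr' using fun s : K => hR _ (ne s)
  have inj : Function.Injective fun s => (⟨r s, hr s⟩ : R) := fun s t e => by
    have e : r s = r t := congrArg Subtype.val e
    obtain ⟨w, w0, hw⟩ := gp_sqs.div (hr' s) (hr' t)
    have r0 : r t ≠ 0 := right_ne_zero_of_mul (gp_sqs.ne (hr' t))
    rw [e, mul_div_mul_right _ _ r0, div_eq_iff (ne t)] at hw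
    by_cases w1 : w + 1 = 0
    · obtain rfl : w = -1 := by linear_combination w1
      have : (s - t) ^ 2 = 0 := by linear_combination hw + (t ^ 2 - s * t) * h2
      exact sub_eq_zero.1 (pow_eq_zero_iff two_ne_zero |>.1 this)
    · refine (k ((w * t + s) / (w + 1)) ?_).elim
      field_simp
      linear_combination hw + (a * w ^ 2 + a * w - s ^ 2 - s * t * w) * h2
  have : Finite K := Finite.of_injective _ inj
  obtain ⟨s, hs⟩ := Finite.surjective_of_injective (f := fun s : K => s ^ 2) (fun s t e => by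
    have : (s - t) ^ 2 = 0 := by linear_combination e + (t ^ 2 - s * t) * h2
    exact sub_eq_zero.1 (pow_eq_zero_iff two_ne_zero |>.1 this)) a
  exact k s hs.symm

end Pool.Agent.Lib.MP_887a05_al.FS
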