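import Pool.Agent.Lib.MP_887a05_al.FSBasic
import Pool.Agent.Shared.WittRing

/-! A Pfister form vanishes in the Witt ring if and only if it is isotropic. -/

namespace Pool.Agent.Lib.MP_887a05_al.FS

open Matrix Module
open Pool.Agent.Shared.WittDefs (sym wittRel)
open Pool.Agent.Shared.WittRing

universe u

variable {F : Type u} [Field F]

/-- The class of a Pfister form. -/
noncomputable def pf (l : List Fˣ) : W F := (l.map fun a => 1 - cls a).prod

theorem pf_cons (a : Fˣ) (l : List Fˣ) : pf (a :: l) = (1 - cls a) * pf l := by simp [pf]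

theorem pf_round (l : List Fˣ) : (∀ w : Fˣ, (w : F) ∈ N (sqs F) (l.map Units.val) →
    cls w * pf l = pf l) ∧ (0 ∈ N (sqs F) (l.map Units.val) → pf l = 0) := by
  induction l with
  | nil =>
    refine ⟨?_, fun h => (gp_sqs.zero h).elim⟩
    rintro w ⟨s, s0, e⟩
    rw [show w = Units.mk0 s s0 * Units.mk0 s s0 by ext; simp [e, sq], cls_mul_self, one_mul]
  | cons a l ih =>
    obtain ⟨i1, i2⟩ := ih
    rw [pf_cons]
    by_cases k : 0 ∈ N (sqs F) (l.map Units.val)
    · simp [i2 k]
    have un : ∀ {x : F}, x ∈ N (sqs F) (l.map Units.val) ∨ x = 0 → x = 0 ∨ ∃ u : Fˣ, x = u ∧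
        cls u * pf l = pf l := fun {x} h => by
      by_cases x0 : x = 0
      exacts [.inl x0, .inr ⟨Units.mk0 x x0, rfl, i1 _ (h.resolve_right x0)⟩]
    constructor
    · rintro w ⟨x, y, hx, hy, -, e⟩
      rcases un hx with rfl | ⟨x, rfl, p⟩ <;> rcases un hy with rfl | ⟨y, rfl, q⟩
      · simp at e
      · rw [show w = -(a * y) by ext; simp [e], cls_neg, cls_mul]
        linear_combination (cls a * cls a - cls a) * q + pf l * cls_sq a
      · rw [show w = x by ext; simp [e]]
        linear_combination (1 - cls a) * p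
      · have := cls_norm (a * y * x) (w * x) x 1 (by simp [e]; ring)
        rw [cls_mul, cls_mul, cls_mul] at this
        have e1 : (1 - cls a * cls y * cls x) * pf l = (1 - cls a) * pf l := by
          linear_combination -cls a * cls y * p - cls a * q
        linear_combination -pf l * this + (1 - cls w * cls x) * e1 - cls w * (1 - cls a) * p
    · rintro ⟨x, y, hx, hy, hxy, e⟩
      rcases un hx with rfl | ⟨x, rfl, p⟩ <;> rcases un hy with rfl | ⟨y, rfl, q⟩
      · exact (k (hxy.elim id id)).elim
      · simp at e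
      · simp [eq_comm] at e
      · rw [show x = a * y by ext; simp; linear_combination -e, cls_mul] at p
        linear_combination cls a * q - p

theorem pf_mem (l : List Fˣ) : pf l ∈ fundIdeal F ^ l.length := by
  induction l with
  | nil => simp
  | cons a l ih =>
    rw [pf_cons, List.length_cons, pow_succ']
    exact Ideal.mul_mem_mul (one_sub_cls_mem a) ih

theorem pow_le_span (m : ℕ) :
    fundIdeal F ^ m ≤ Ideal.span {x | ∃ l : List Fˣ, l.length = m ∧ x = pf l} := by
  induction m with
  | zero =>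
    refine le_top.trans ((Ideal.eq_top_iff_one _).2 (Ideal.subset_span ?_)).ge
    exact ⟨[], rfl, by simp [pf]⟩
  | succ m ih =>
    rw [pow_succ']
    refine (Ideal.mul_mono fundIdeal_eq.le ih).trans ?_
    rw [Ideal.span_mul_span', Ideal.span_le]
    rintro _ ⟨_, ⟨a, rfl⟩, _, ⟨l, hl, rfl⟩, rfl⟩
    exact Ideal.subset_span ⟨a :: l, by simp [hl], (pf_cons a l).symm⟩

/-- The difference of the two diagonal forms has a totally isotropic subspace of half dimension. -/
def Hy {ι κ : Type} [Fintype ι] [Fintype κ] (a : ι → Fˣ) (b : κ → Fˣ) : Prop :=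
  ∃ (μ : Type) (_ : Fintype μ) (A : Matrix ι μ F) (B : Matrix κ μ F),
    (∀ m, A *ᵥ m = 0 → B *ᵥ m = 0 → m = 0) ∧ Fintype.card ι + Fintype.card κ ≤ 2 * Fintype.card μ ∧
      ∀ s t, ∑ i, a i * (A i s * A i t) = ∑ j, b j * (B j s * B j t)

/-- The group of hyperbolic differences. -/
noncomputable def hyp (F : Type u) [Field F] : AddSubgroup (MonoidAlgebra ℤ Fˣ) where
  carrier := {x | ∃ (ι κ : Type) (_ : Fintype ι) (_ : Fintype κ) (a : ι → Fˣ) (b : κ → Fˣ),
    x = ∑ i, MonoidAlgebra.of ℤ Fˣ (a i) - ∑ j, MonoidAlgebra.of ℤ Fˣ (b j) ∧ Hy a b}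
  zero_mem' := ⟨Empty, Empty, inferInstance, inferInstance, Empty.elim, Empty.elim, by simp,
    Empty, inferInstance, 0, 0, fun m _ _ => Subsingleton.elim _ _, by simp, by simp⟩
  add_mem' := by
    rintro _ _ ⟨ι, κ, _, _, a, b, rfl, μ, _, A, B, h1, h2, h3⟩
      ⟨ι', κ', _, _, a', b', rfl, μ', _, A', B', h1', h2', h3'⟩
    refine ⟨ι ⊕ ι', κ ⊕ κ', inferInstance, inferInstance, Sum.elim a a', Sum.elim b b', ?_, μ ⊕ μ',
      inferInstance, fromBlocks A 0 0 A', fromBlocks B 0 0 B', fun m p q => ?_, ?_, ?_⟩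
    · simp only [Fintype.sum_sum_type, Sum.elim_inl, Sum.elim_inr]; ring
    · rw [fromBlocks_mulVec] at p q
      simp only [zero_mulVec, add_zero, zero_add] at p q
      have e1 := h1 _ (funext fun i => congrFun p (.inl i)) (funext fun i => congrFun q (.inl i))
      have e2 := h1' _ (funext fun i => congrFun p (.inr i)) (funext fun i => congrFun q (.inr i))
      funext s
      cases s with
      | inl s => exact congrFun e1 s
      | inr s => exact congrFun e2 s
    · simp only [Fintype.card_sum]; omega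
    · rintro (s | s) (t | t) <;> simp [Fintype.sum_sum_type, h3, h3']
  neg_mem' := by
    rintro _ ⟨ι, κ, _, _, a, b, rfl, μ, _, A, B, h1, h2, h3⟩
    exact ⟨κ, ι, _, _, b, a, by ring, μ, _, B, A, fun m p q => h1 m q p, by omega,
      fun s t => (h3 s t).symm⟩

theorem mul_mem_hyp (c : MonoidAlgebra ℤ Fˣ) {x : MonoidAlgebra ℤ Fˣ} (hx : x ∈ hyp F) :
    c * x ∈ hyp F := by
  induction c using MonoidAlgebra.induction_on with
  | of c =>
    obtain ⟨ι, κ, _, _, a, b, rfl, μ, _, A, B, h1, h2, h3⟩ := hx
    refine ⟨ι, κ, _, _, fun i => c * a i, fun i => c * b i, ?_, μ, _, A, B, h1, h2, fun s t => ?_⟩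
    · simp only [mul_sub, Finset.mul_sum, map_mul]
    · simp only [Units.val_mul, mul_assoc, ← Finset.mul_sum, h3]
  | add f g p q => exact add_mul f g x ▸ add_mem p q
  | smul r f p => exact smul_mul_assoc r f x ▸ zsmul_mem p r

theorem mem_hyp (h2 : (2 : F) ≠ 0) {x : MonoidAlgebra ℤ Fˣ} (hx : x ∈ wittRel F) : x ∈ hyp F := by
  induction hx using Submodule.span_induction with
  | zero => exact zero_mem _
  | add _ _ _ _ p q => exact add_mem p q
  | smul c _ _ p => exact mul_mem_hyp c p
  | mem x hx =>
    obtain ⟨n, a, b, hab, rfl⟩ | rfl := hx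
    · obtain ⟨P, hP⟩ := matrix_of_equivalent h2 b a hab
      refine ⟨Fin n, Fin n, _, _, a, b, rfl, Fin n, inferInstance, 1, P, fun m p _ => by
        simpa using p, by omega,
        fun s t => ?_⟩
      have := congrFun (congrFun hP s) t
      simp only [mul_apply, transpose_apply, diagonal_apply, mul_ite, mul_zero, Finset.sum_ite_eq',
        Finset.mem_univ, if_true] at this
      simp only [one_apply, mul_ite, mul_one, mul_zero, Finset.sum_ite_eq', Finset.mem_univ, if_true]
      rw [show ∑ j, b j * (P j s * P j t) = ∑ j, P j s * b j * P j t from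
        Finset.sum_congr rfl fun _ _ => by ring, this]
      by_cases e : s = t <;> simp [e, eq_comm]
    · exact ⟨Fin 2, Empty, inferInstance, inferInstance, ![1, -1], Empty.elim, by simp [sym], Unit,
        inferInstance, of fun _ _ => 1, 0,
        fun m p _ => funext fun _ => by simpa [mulVec, dotProduct] using congrFun p 0, by simp,
        by simp⟩

theorem iso_of_zero (h2 : (2 : F) ≠ 0) {π : Type} [Fintype π] [Nonempty π] (P : π → Fˣ)
    (h : ∑ i, cls (P i) = 0) : ∃ x : π → F, x ≠ 0 ∧ ∑ i, P i * x i ^ 2 = 0 := by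
  classical
  obtain ⟨ι, κ, _, _, a, b, e, μ, _, A, B, h1, h3, h4⟩ := mem_hyp h2
    (x := ∑ i, MonoidAlgebra.of ℤ Fˣ (P i)) (by
      rw [← sub_zero (∑ i, _), ← mk_eq_iff, map_sum, map_zero]; exact h)
  obtain ⟨σ, hσ⟩ : ∃ σ : π ⊕ κ ≃ ι, ∀ i, a (σ i) = Sum.elim P b i := by
    refine ⟨Equiv.ofFiberEquiv fun c => Fintype.equivOfCardEq ?_, Equiv.ofFiberEquiv_map _⟩
    have := congrArg (fun x : MonoidAlgebra ℤ Fˣ => x.coeff c) (eq_sub_iff_add_eq.1 e)
    simp only [Fintype.card_subtype, Finset.card_filter, Fintype.sum_sum_type, Sum.elim_inl,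
      Sum.elim_inr]
    have : ((Finset.univ.filter fun x => P x = c).card : ℤ) + (Finset.univ.filter fun x =>
      b x = c).card = (Finset.univ.filter fun x => a x = c).card := by
        simpa [Finsupp.single_apply, Finsupp.finsetSum_apply] using this
    have : (Finset.univ.filter fun x => P x = c).card + (Finset.univ.filter fun x =>
      b x = c).card = (Finset.univ.filter fun x => a x = c).card := by exact_mod_cast this
    simp only [Finset.card_filter] at this
    convert this
  by_contra an
  push Not at an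
  set A1 : Matrix π μ F := of fun i => A (σ (.inl i))
  set D : Matrix κ μ F := of fun j s => A (σ (.inr j)) s - B j s
  have bil : ∀ m m' : μ → F, ∑ i, P i * ((A1 *ᵥ m) i * (A1 *ᵥ m') i) +
      ∑ j, b j * (((D + B) *ᵥ m) j * ((D + B) *ᵥ m') j) = ∑ j, b j * ((B *ᵥ m) j * (B *ᵥ m') j) :=
    fun m m' => by
      have : ∑ i, a i * ((A *ᵥ m) i * (A *ᵥ m') i) = ∑ j, b j * ((B *ᵥ m) j * (B *ᵥ m') j) := by
        have ex : ∀ {τ : Type} [Fintype τ] (c : τ → Fˣ) (C : Matrix τ μ F),
            ∑ i, c i * ((C *ᵥ m) i * (C *ᵥ m') i) =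
              ∑ s, ∑ t, (m s * m' t) * ∑ i, c i * (C i s * C i t) := fun c C => by
          simp only [mulVec, dotProduct, Finset.sum_mul_sum]
          simp only [Finset.mul_sum]
          rw [Finset.sum_comm]
          refine Finset.sum_congr rfl fun s _ => ?_
          rw [Finset.sum_comm]
          exact Finset.sum_congr rfl fun t _ => Finset.sum_congr rfl fun i _ => by ring
        simp only [ex, h4]
      rw [← this, ← σ.sum_comp, Fintype.sum_sum_type]
      simp [hσ, A1, D, mulVec, dotProduct]
  have z : ∀ m, D *ᵥ m = 0 → A1 *ᵥ m = 0 := fun m hm => by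
    by_contra k
    refine an _ k ?_
    have := bil m m
    simp only [add_mulVec, hm, zero_add, add_eq_right] at this
    simpa [sq] using this
  let S : LinearMap.ker D.mulVecLin →ₗ[F] LinearMap.ker Dᵀ.mulVecLin :=
    (diagonal (fun j => (b j : F)) * B).mulVecLin.restrict fun m hm => by
      have hm : D *ᵥ m = 0 := hm
      ext s
      have := bil m (Pi.single s 1)
      simp only [add_mulVec, hm, z m hm, zero_add, Pi.add_apply, mul_add, Finset.sum_add_distrib,
        Pi.zero_apply, zero_mul, mul_zero, Finset.sum_const_zero, add_eq_right] at this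
      rw [mulVecLin_apply, mulVecLin_apply, ← mulVec_mulVec, Pi.zero_apply, ← this]
      simp only [mulVec_single_one, mulVec_transpose, vecMul, dotProduct, mulVec_diagonal,
        col_apply, mul_assoc]
  have inj : Function.Injective S := (injective_iff_map_eq_zero S).2 fun m hm => by
    have hD : D *ᵥ m = 0 := m.2
    have hB : B *ᵥ m = 0 := funext fun j => by
      have := congrFun (congrArg Subtype.val hm) j
      simpa [S, ← mulVec_mulVec, mulVec_diagonal] using this
    refine Subtype.ext (h1 _ (funext fun i => ?_) hB)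
    obtain ⟨i | j, rfl⟩ := σ.surjective i
    · exact congrFun (z _ hD) i
    · have := congrFun (add_mulVec D B m) j
      rw [hD, hB] at this
      simpa [D, mulVec, dotProduct] using this
  have l1 := LinearMap.finrank_le_finrank_of_injective inj
  have l2 := LinearMap.finrank_range_add_finrank_ker D.mulVecLin
  have l3 := LinearMap.finrank_range_add_finrank_ker Dᵀ.mulVecLin
  have l4 : finrank F (LinearMap.range Dᵀ.mulVecLin) = finrank F (LinearMap.range D.mulVecLin) :=
    rank_transpose D
  have l5 := Fintype.card_congr σ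
  have l6 := Fintype.card_pos (α := π)
  simp only [finrank_fintype_fun_eq_card, Fintype.card_sum] at l2 l3 l5
  omega

theorem iso_of_pf (h2 : (2 : F) ≠ 0) (l : List Fˣ) (h : pf l = 0) :
    0 ∈ N (sqs F) (l.map Units.val) := by
  obtain ⟨π, _, _, P, e, k⟩ : ∃ (π : Type) (_ : Fintype π) (_ : Nonempty π) (P : π → Fˣ),
      ∑ i, cls (P i) = pf l ∧ ∀ x : π → F, x ≠ 0 →
        ∑ i, P i * x i ^ 2 ∈ N (sqs F) (l.map Units.val) := by
    clear h
    induction l with
    | nil => exact ⟨Unit, inferInstance, inferInstance, fun _ => 1, by simp [pf, cls_one], fun x hx =>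
        ⟨x (), fun e => hx (funext fun _ => e), by simp⟩⟩
    | cons a l ih =>
      obtain ⟨π, _, _, P, e, k⟩ := ih
      refine ⟨π ⊕ π, inferInstance, inferInstance, Sum.elim P fun i => -(a * P i), ?_, fun x hx => ?_⟩
      · simp only [Fintype.sum_sum_type, Sum.elim_inl, Sum.elim_inr, cls_neg, cls_mul, pf_cons,
          Finset.sum_neg_distrib, ← Finset.mul_sum, e]
        ring
      · have k' : ∀ y : π → F, ∑ i, P i * y i ^ 2 ∈ N (sqs F) (l.map Units.val) ∨
            ∑ i, P i * y i ^ 2 = 0 := fun y => by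
          by_cases y0 : y = 0
          exacts [.inr (by simp [y0]), .inl (k y y0)]
        refine ⟨_, _, k' (x ∘ .inl), k' (x ∘ .inr), ?_, ?_⟩
        · by_contra c
          push Not at c
          refine hx (funext fun i => ?_)
          cases i with
          | inl i => exact congrFun (of_not_not fun e => c.1 (k _ e)) i
          | inr i => exact congrFun (of_not_not fun e => c.2 (k _ e)) i
        · simp [Fintype.sum_sum_type, Finset.mul_sum, mul_assoc, sub_eq_add_neg]
  obtain ⟨x, x0, hx⟩ := iso_of_zero h2 P (e.trans h)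
  exact hx ▸ k x x0

theorem pow_eq_bot_iff_iso (h2 : (2 : F) ≠ 0) (m : ℕ) : fundIdeal F ^ m = ⊥ ↔
    ∀ l : List F, (∀ a ∈ l, a ≠ 0) → m ≤ l.length → 0 ∈ N (sqs F) l := by
  constructor
  · intro h l hl len
    lift l to List Fˣ using fun a ha => (hl a ha).isUnit
    refine iso_of_pf h2 l (Ideal.mem_bot.1 (h ▸ Ideal.pow_le_pow_right ?_ (pf_mem l)))
    simpa using len
  · intro h
    refine le_bot_iff.1 ((pow_le_span m).trans (Ideal.span_le.2 ?_))
    rintro _ ⟨l, hl, rfl⟩
    exact (pf_round l).2 (h _ (by simp) (by simp [hl]))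

end Pool.Agent.Lib.MP_887a05_al.FS
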