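import Pool.Agent.Results.MP_887a05_al.FiniteQuotients

/-! Two instances of the hand-in `FiniteQuotients`: finitely many square classes, and Kaplansky
radical of finite index. -/

namespace Pool.Agent.Lib.MP_887a05_al.FS

open Pool.Agent.Shared.WittDefs (v)
open Pool.Agent.Results.MP_887a05_al.FiniteQuotients

universe u

variable {K : Type u} [Field K]

theorem kr_quat {H : Subgroup Kˣ} (g : Good {x : K | ∃ u ∈ H, x = u}) : Quaternionic H := by
  refine ⟨?_, ?_⟩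
  · rintro _ ⟨s, rfl⟩
    obtain ⟨u, hu, e⟩ := g.sq s.ne_zero
    rwa [show s * s = u from Units.ext (by rw [← e, pow_two, Units.val_mul])]
  have mk : ∀ {a b : Kˣ}, Rep H a b → (b : K) ∈ pp {x : K | ∃ u ∈ H, x = u} a := by
    rintro a b ⟨x, y, hx, hy, e⟩
    refine ⟨b.ne_zero, x, y, hx.symm, hy.symm, ?_, e⟩
    rcases hx with rfl | hx
    · rcases hy with rfl | hy
      · exact absurd e (by simp)
      · exact .inr hy
    · exact .inl hx
  intro a b c hb hc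
  obtain ⟨-, x, y, hx, hy, -, e⟩ := g.pmul a.ne_zero (mk hb) (mk hc)
  exact ⟨x, y, hx.symm, hy.symm, e⟩

theorem kr_sq : {x : K | ∃ u ∈ Subgroup.square Kˣ, x = u} = sqs K := Set.ext fun x =>
  ⟨fun ⟨_, ⟨s, rfl⟩, e⟩ => ⟨s, s.ne_zero, by rw [e, pow_two, Units.val_mul]⟩,
    fun ⟨s, s0, e⟩ => ⟨Units.mk0 s s0 * Units.mk0 s s0, ⟨_, rfl⟩, by rw [e, pow_two]; rfl⟩⟩

theorem kr_inst_sq (F : Type u) [Field F] [Algebra F K] [FiniteDimensional F K]
    (hchar : (2 : F) ≠ 0) (hfin : (Subgroup.square Kˣ).FiniteIndex) : v K ≤ v F + 1 := by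
  have h2 : (2 : K) ≠ 0 := by simpa [map_ofNat] using (map_ne_zero (algebraMap F K)).2 hchar
  exact result F K hchar fun m _ a k => ⟨_, hfin, kr_quat (kr_sq (K := K) ▸ good_sqs h2), k⟩

theorem kr_inst_rad (F : Type u) [Field F] [Algebra F K] [FiniteDimensional F K]
    (hchar : (2 : F) ≠ 0) (R : Subgroup Kˣ) (hfin : R.FiniteIndex)
    (hR : ∀ r : Kˣ, r ∈ R ↔ ∀ a : Kˣ, ∃ x y : K, (r : K) = x ^ 2 - a * y ^ 2) :
    v K ≤ v F + 1 := by
  have h2 : (2 : K) ≠ 0 := by simpa [map_ofNat] using (map_ne_zero (algebraMap F K)).2 hchar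
  have mk : ∀ s : K, s ^ 2 ∈ N (sqs K) [] ∨ s ^ 2 = 0 := fun s => by
    by_cases h : s = 0
    exacts [.inr (by simp [h]), .inl ⟨s, h, rfl⟩]
  have un : ∀ {x : K}, x ∈ N (sqs K) [] ∨ x = 0 → ∃ s, x = s ^ 2 := by
    rintro x (⟨s, -, e⟩ | rfl)
    exacts [⟨s, e⟩, ⟨0, by simp⟩]
  have e : {x : K | ∃ u ∈ R, x = u} = rad (sqs K) := Set.ext fun x => ⟨by
    rintro ⟨u, hu, rfl⟩
    refine ⟨u.ne_zero, fun a a0 => ?_⟩
    obtain ⟨x, y, e⟩ := (hR u).1 hu (Units.mk0 a a0)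
    refine ⟨u.ne_zero, _, _, mk x, mk y, ?_, e⟩
    by_contra k
    push Not at k
    exact u.ne_zero (by rw [e, (mk x).resolve_left k.1, (mk y).resolve_left k.2]; simp),
    fun ⟨x0, k⟩ => ⟨Units.mk0 x x0, (hR _).2 fun a => by
      obtain ⟨-, p, q, hp, hq, -, e⟩ := k a a.ne_zero
      obtain ⟨p, rfl⟩ := un hp
      obtain ⟨q, rfl⟩ := un hq
      exact ⟨p, q, e⟩, rfl⟩⟩
  refine result F K hchar fun m len a k => ⟨R, hfin, kr_quat (e ▸ (good_sqs h2).good_rad), fun k' => k ?_⟩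
  have := (kr_sum_fin (B := {x : K | ∃ u ∈ R, x = u}) (fun ⟨u, _, e⟩ => u.ne_zero e.symm)
    fun i => (a i : K)).2 k'
  rw [e] at this
  have := (good_sqs h2).iso_of_rad (by simp [List.mem_ofFn]) (by simpa using len) this
  rw [← kr_sq] at this
  exact (kr_sum_fin (B := {x : K | ∃ u ∈ Subgroup.square Kˣ, x = u})
    (fun ⟨u, _, e⟩ => u.ne_zero e.symm) _).1 this

end Pool.Agent.Lib.MP_887a05_al.FS
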