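import Pool.Agent.Lib.MP_887a05_al.FSAbs

/-! In characteristic two the degree of imperfection does not change in a finite extension. -/

namespace Pool.Agent.Lib.MP_887a05_al.FS

open Finset

/-- The index set of the entries of a Pfister form with `n` slots. -/
def KI : ℕ → Type
  | 0 => Unit
  | n + 1 => KI n ⊕ KI n

instance krFin : (n : ℕ) → Fintype (KI n)
  | 0 => inferInstanceAs (Fintype Unit)
  | n + 1 => @instFintypeSum _ _ (krFin n) (krFin n)

theorem kr_card (n : ℕ) : Fintype.card (KI n) = 2 ^ n := by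
  induction n with
  | zero => exact Fintype.card_unit
  | succ n ih => exact (Fintype.card_sum (α := KI n) (β := KI n)).trans (by rw [ih]; ring)

variable {K : Type*} [Field K]

/-- The entries of the Pfister form with slots `l`. -/
def krPr : (l : List K) → KI l.length → K
  | [] => fun _ => 1
  | a :: l => Sum.elim (krPr l) fun i => -a * krPr l i

theorem kr_nil (c : KI ([] : List K).length → K) : ∑ i, c i ^ 2 * krPr [] i = c () ^ 2 :=
  (Fintype.sum_unique (ι := Unit) _).trans (mul_one _)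

theorem kr_cons (a : K) (l : List K) (c : KI (a :: l).length → K) :
    ∑ i, c i ^ 2 * krPr (a :: l) i =
      ∑ i, c (.inl i) ^ 2 * krPr l i - a * ∑ i, c (.inr i) ^ 2 * krPr l i := by
  refine (Fintype.sum_sum_type (α₁ := KI l.length) (α₂ := KI l.length) _).trans ?_
  rw [sub_eq_add_neg, ← neg_mul, mul_sum]
  congr 1
  exact sum_congr rfl fun i _ => mul_left_comm _ _ _

theorem kr_mem (l : List K) (c : KI l.length → K) (h : ∃ i, c i ≠ 0) :
    ∑ i, c i ^ 2 * krPr l i ∈ N (sqs K) l := by
  induction l with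
  | nil => exact ⟨c (), h.elim fun _ k => k, kr_nil c⟩
  | cons a l ih =>
    have mk : ∀ d : KI l.length → K, ∑ i, d i ^ 2 * krPr l i ∈ N (sqs K) l ∨
        ∑ i, d i ^ 2 * krPr l i = 0 := fun d => by
      by_cases k : ∃ i, d i ≠ 0
      · exact .inl (ih d k)
      · push Not at k
        simp [k]
    refine ⟨_, _, mk _, mk _, ?_, kr_cons a l c⟩
    obtain ⟨i | i, k⟩ := h
    exacts [.inl (ih _ ⟨i, k⟩), .inr (ih _ ⟨i, k⟩)]

/-- All values of the Pfister form with slots `l`. -/
def KS (l : List K) (w : K) : Prop := ∃ c : KI l.length → K, w = ∑ i, c i ^ 2 * krPr l i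

theorem KS.cons {a x y : K} {l : List K} (hx : KS l x) (hy : KS l y) : KS (a :: l) (x - a * y) :=
  let ⟨c, e⟩ := hx
  let ⟨d, e'⟩ := hy
  ⟨Sum.elim c d, by rw [e, e']; exact (kr_cons a l (Sum.elim c d)).symm⟩

theorem KS.of_N {l : List K} {w : K} (h : w ∈ N (sqs K) l ∨ w = 0) : KS l w := by
  induction l generalizing w with
  | nil =>
    obtain ⟨s, -, e⟩ | rfl := h
    exacts [⟨fun _ => s, e.trans (kr_nil fun _ => s).symm⟩, ⟨0, by simp⟩]
  | cons a l ih =>
    obtain ⟨x, y, hx, hy, -, rfl⟩ | rfl := h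
    exacts [(ih hx).cons (ih hy), ⟨0, by simp⟩]

theorem KS.sq_mul {l : List K} {w : K} (h : KS l w) (s : K) : KS l (s ^ 2 * w) :=
  let ⟨c, e⟩ := h
  ⟨fun i => s * c i, by rw [e, mul_sum]; exact sum_congr rfl fun i _ => by ring⟩

theorem KS.add (h2 : (2 : K) = 0) {l : List K} {x y : K} (hx : KS l x) (hy : KS l y) :
    KS l (x + y) :=
  let ⟨c, e⟩ := hx
  let ⟨d, e'⟩ := hy
  ⟨fun i => c i + d i, by
    rw [e, e', ← sum_add_distrib]
    exact sum_congr rfl fun i _ => by linear_combination (-c i * d i * krPr l i) * h2⟩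

theorem KS.mul (h2 : (2 : K) = 0) {l : List K} {x y : K} (hx : KS l x) (hy : KS l y) :
    KS l (x * y) := by
  induction l generalizing x y with
  | nil =>
    obtain ⟨c, rfl⟩ := hx
    rw [kr_nil]
    exact hy.sq_mul _
  | cons a l ih =>
    obtain ⟨c, rfl⟩ := hx
    obtain ⟨d, rfl⟩ := hy
    rw [kr_cons, kr_cons]
    have s : ∀ c : KI l.length → K, KS l (∑ i, c i ^ 2 * krPr l i) := fun c => ⟨c, rfl⟩
    have := ((ih (s fun i => c (.inl i)) (s fun i => d (.inl i))).add h2
      ((ih (s fun i => c (.inr i)) (s fun i => d (.inr i))).sq_mul a)).cons (a := a)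
      ((ih (s fun i => c (.inl i)) (s fun i => d (.inr i))).add h2
        (ih (s fun i => c (.inr i)) (s fun i => d (.inl i))))
    convert this using 1
    ring

theorem kr_greedy (h2 : (2 : K) = 0) (s : ℕ) :
    (∃ l : List K, (∀ a ∈ l, a ≠ 0) ∧ l.length = s ∧ 0 ∉ N (sqs K) l) ∨
      ∃ l : List K, l.length < s ∧ ∀ a, KS l a := by
  induction s with
  | zero => exact .inl ⟨[], by simp, rfl, gp_sqs.zero⟩
  | succ s ih =>
    obtain ⟨l, a1, a2, a3⟩ | ⟨l, a1, a2⟩ := ih
    · by_cases k : ∀ a, KS l a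
      · exact .inr ⟨l, by omega, k⟩
      push Not at k
      obtain ⟨a, k⟩ := k
      refine .inl ⟨a :: l, by simpa using ⟨fun e => k (.of_N (.inr e)), a1⟩, by simp [a2], ?_⟩
      rintro ⟨x, y, hx, hy, hxy, e⟩
      have y0 : y ≠ 0 := by
        rintro rfl
        obtain rfl : x = 0 := by simpa using e.symm
        exact a3 (hxy.elim id id)
      have := ((KS.of_N hx).mul h2 (.of_N hy)).sq_mul y⁻¹
      rw [show x = a * y by linear_combination -e, show y⁻¹ ^ 2 * (a * y * y) = a by field_simp]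
        at this
      exact k this
    · exact .inr ⟨l, by omega, a2⟩

theorem kr_two {E : Type*} [Field E] [Algebra E K] [FiniteDimensional E K] (h2 : (2 : K) = 0)
    {l : List K} (h0 : 0 ∉ N (sqs K) l) : An E l.length := by
  have e2 : (2 : E) = 0 := (algebraMap E K).injective (by simpa [map_ofNat] using h2)
  obtain ⟨l', a1, a2, a3⟩ | ⟨l', a1, a2⟩ := kr_greedy e2 l.length
  · exact ⟨l', a1, by omega, a3⟩
  refine (h0 ?_).elim
  have : CharP K 2 := CharTwo.of_one_ne_zero_of_two_eq_zero one_ne_zero h2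
  have : CharP E 2 := CharTwo.of_one_ne_zero_of_two_eq_zero one_ne_zero e2
  let b := Module.finBasis E K
  choose d hd using a2
  let D : KI l.length × Fin (Module.finrank E K) → Fin (Module.finrank E K) × KI l'.length → E :=
    fun i m => d (b.repr (b i.2 ^ 2 * krPr l i.1) m.1) m.2
  obtain ⟨c, hc, i, hi⟩ := Fintype.not_linearIndependent_iff.1 fun k : LinearIndependent E D => by
    have := k.fintype_card_le_finrank
    simp only [Module.finrank_fintype_fun_eq_card, Fintype.card_prod, kr_card, Fintype.card_fin,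
      mul_comm (2 ^ l.length)] at this
    exact (Nat.pow_lt_pow_right one_lt_two a1).not_ge
      (Nat.le_of_mul_le_mul_left this Module.finrank_pos)
  have := kr_mem l (fun i => ∑ j, c (i, j) • b j) ⟨i.1, fun e =>
    hi (Fintype.linearIndependent_iff.1 b.linearIndependent _ e i.2)⟩
  convert this using 1
  refine (b.repr.injective (Finsupp.ext fun m => ?_)).symm
  have e : ∀ i, (∑ j, c (i, j) • b j) ^ 2 * krPr l i =
      ∑ j, c (i, j) ^ 2 • (b j ^ 2 * krPr l i) := fun i => by
    rw [CharTwo.sum_sq, sum_mul]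
    exact sum_congr rfl fun j _ => by rw [smul_pow, smul_mul_assoc]
  have e' : ∀ α, ∑ i, c i ^ 2 * D i (m, α) ^ 2 = 0 := fun α => by
    have := congrFun hc (m, α)
    rw [Finset.sum_apply] at this
    simpa [← mul_pow, ← CharTwo.sum_sq] using this
  simp only [e, map_sum, map_smul, map_zero, Finsupp.coe_finsetSum, Finset.sum_apply,
    Finsupp.smul_apply, smul_eq_mul, Finsupp.zero_apply]
  rw [← Fintype.sum_prod_type (f := fun i => c i ^ 2 * b.repr (b i.2 ^ 2 * krPr l i.1) m)]
  calc _ = ∑ i, ∑ α, c i ^ 2 * D i (m, α) ^ 2 * krPr l' α := sum_congr rfl fun i _ => by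
        rw [hd (b.repr (b i.2 ^ 2 * krPr l i.1) m), mul_sum]
        exact sum_congr rfl fun α _ => (mul_assoc _ _ _).symm
    _ = 0 := by rw [sum_comm]; simp [← sum_mul, e']

end Pool.Agent.Lib.MP_887a05_al.FS
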