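import Pool.Agent.Lib.MP_887a05_al.KRMain

/-! Nontrivial values of a Pfister form written as a sum over subsets. -/

namespace Pool.Agent.Lib.MP_887a05_al.FS

open Finset

variable {K ι : Type*} [Field K] [DecidableEq ι]

theorem kr_sum {B : Set K} (hB : 0 ∉ B) (a : ι → K) (L : List ι) (nd : L.Nodup) (w : K) :
    w ∈ N B (L.map a) ↔ ∃ h : Finset ι → K, (∀ S, h S = 0 ∨ h S ∈ B) ∧
      (∃ S ⊆ L.toFinset, h S ≠ 0) ∧ w = ∑ S ∈ L.toFinset.powerset, h S * ∏ i ∈ S, -a i := by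
  induction L generalizing w with
  | nil =>
    refine ⟨fun k => ⟨fun _ => w, fun _ => .inr k, ⟨∅, by simp, fun e => hB (e ▸ k)⟩, by simp⟩, ?_⟩
    rintro ⟨h, h1, ⟨S, hS, h2⟩, rfl⟩
    obtain rfl : S = ∅ := by simpa using hS
    simpa [N] using (h1 ∅).resolve_left h2
  | cons j L ih =>
    obtain ⟨hj, nd⟩ := List.nodup_cons.1 nd
    have ih := ih nd
    have hj' : j ∉ L.toFinset := by simpa using hj
    have nm : ∀ {S}, S ⊆ L.toFinset → j ∉ S := fun hS k => hj' (hS k)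
    have split : ∀ h : Finset ι → K,
        ∑ S ∈ (j :: L).toFinset.powerset, h S * ∏ i ∈ S, -a i =
          ∑ S ∈ L.toFinset.powerset, h S * ∏ i ∈ S, -a i -
            a j * ∑ S ∈ L.toFinset.powerset, h (insert j S) * ∏ i ∈ S, -a i := fun h => by
      rw [List.toFinset_cons, sum_powerset_insert hj', sub_eq_add_neg, ← neg_mul, mul_sum]
      congr 1
      exact sum_congr rfl fun S hS => by rw [prod_insert (nm (mem_powerset.1 hS))]; ring
    constructor
    · rintro ⟨x, y, hx, hy, hxy, rfl⟩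
      have un : ∀ x, x ∈ N B (L.map a) ∨ x = 0 → ∃ h : Finset ι → K, (∀ S, h S = 0 ∨ h S ∈ B) ∧
          (x ∈ N B (L.map a) → ∃ S ⊆ L.toFinset, h S ≠ 0) ∧
          x = ∑ S ∈ L.toFinset.powerset, h S * ∏ i ∈ S, -a i := fun x hx => by
        by_cases k : x ∈ N B (L.map a)
        · obtain ⟨h, h1, h2, h3⟩ := (ih x).1 k
          exact ⟨h, h1, fun _ => h2, h3⟩
        · exact ⟨0, by simp, fun k' => (k k').elim, by simp [hx.resolve_left k]⟩
      obtain ⟨f, f1, f2, f3⟩ := un x hx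
      obtain ⟨g, g1, g2, g3⟩ := un y hy
      refine ⟨fun S => if j ∈ S then g (S.erase j) else f S, fun S => by
        dsimp only
        split_ifs
        exacts [g1 _, f1 _], ?_, ?_⟩
      · rcases hxy with k | k
        · obtain ⟨S, hS, k⟩ := f2 k
          exact ⟨S, hS.trans (by simp), by simpa [nm hS] using k⟩
        · obtain ⟨S, hS, k⟩ := g2 k
          exact ⟨insert j S, by simpa using insert_subset_insert j hS,
            by simpa [erase_insert (nm hS)] using k⟩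
      · rw [split, f3, g3]
        congr 1
        · exact sum_congr rfl fun S hS => by simp [nm (mem_powerset.1 hS)]
        · congr 1
          exact sum_congr rfl fun S hS => by simp [erase_insert (nm (mem_powerset.1 hS))]
    · rintro ⟨h, h1, ⟨S, hS, h2⟩, rfl⟩
      have mk : ∀ h : Finset ι → K, (∀ S, h S = 0 ∨ h S ∈ B) →
          ∑ S ∈ L.toFinset.powerset, h S * ∏ i ∈ S, -a i ∈ N B (L.map a) ∨
          ∑ S ∈ L.toFinset.powerset, h S * ∏ i ∈ S, -a i = 0 := fun h h1 => by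
        by_cases k : ∃ S ⊆ L.toFinset, h S ≠ 0
        · exact .inl ((ih _).2 ⟨h, h1, k, rfl⟩)
        · push Not at k
          exact .inr (sum_eq_zero fun S hS => by simp [k S (mem_powerset.1 hS)])
      refine ⟨_, _, mk h h1, mk (fun S => h (insert j S)) fun _ => h1 _, ?_, split h⟩
      rw [List.toFinset_cons] at hS
      by_cases k : j ∈ S
      · exact .inr ((ih _).2 ⟨_, fun _ => h1 _, ⟨S.erase j, subset_insert_iff.1 hS,
          by simpa [insert_erase k] using h2⟩, rfl⟩)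
      · exact .inl ((ih _).2 ⟨h, h1, ⟨S, (subset_insert_iff_of_notMem k).1 hS, h2⟩, rfl⟩)

theorem kr_sum_fin {B : Set K} (hB : 0 ∉ B) {m : ℕ} (a : Fin m → K) :
    0 ∈ N B (List.ofFn a) ↔ ∃ h : Finset (Fin m) → K, (∀ S, h S = 0 ∨ h S ∈ B) ∧
      (∃ S, h S ≠ 0) ∧ ∑ S, h S * ∏ i ∈ S, -a i = 0 := by
  rw [List.ofFn_eq_map, kr_sum hB a _ (List.nodup_finRange m)]
  simp [eq_comm (a := (0 : K))]

theorem kr_cov {H : Subgroup Kˣ} (h : H.FiniteIndex) :
    ∃ m, Cov {x : K | ∃ u ∈ H, x = u} m := by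
  classical
  have := Fintype.ofFinite (Kˣ ⧸ H)
  refine ⟨_, Finset.univ.image fun q : Kˣ ⧸ H => (q.out : K), le_rfl,
    fun a a0 => ⟨_, Finset.mem_image_of_mem _ (Finset.mem_univ
      (QuotientGroup.mk (Units.mk0 a a0)⁻¹)), ?_⟩⟩
  obtain ⟨s, e⟩ := QuotientGroup.mk_out_eq_mul H (Units.mk0 a a0)⁻¹
  exact ⟨s, s.2, by rw [e]; simp [a0]⟩

end Pool.Agent.Lib.MP_887a05_al.FS
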