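import Pool.Agent.Lib.MP_887a05_al.L3Milnor

/-! Elements over `F[X]` whose residues are multiples of a binary Pfister element. -/

namespace Pool.Agent.Lib.MP_887a05_al.L3

open Polynomial Module

universe u

variable {F : Type u} [Field F]

theorem exists_rel (q : Irr F) {r D : ℕ} (h : q.1.natDegree < r * (D + 1))
    (e : Fin r → AdjoinRoot q.1) : ∃ A : Fin r → F[X], A ≠ 0 ∧ (∀ i, (A i).natDegree ≤ D) ∧
      ∑ i, q.pl.π (A i) * e i = 0 := by
  let pb := AdjoinRoot.powerBasis q.2.1.ne_zero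
  have : FiniteDimensional F (AdjoinRoot q.1) := pb.finite
  let φ : (Fin r → degreeLT F (D + 1)) →ₗ[F] AdjoinRoot q.1 :=
    ∑ i, LinearMap.mulRight F (e i) ∘ₗ (AdjoinRoot.mkₐ q.1).toLinearMap ∘ₗ
      (degreeLT F (D + 1)).subtype ∘ₗ LinearMap.proj i
  have hk := φ.ker_ne_bot_of_finrank_lt (by
    rw [pb.finrank, AdjoinRoot.powerBasis_dim, finrank_pi_fintype]
    simpa [finrank_eq_card_basis (degreeLT.basis F (D + 1))] using h)
  obtain ⟨a, ha, a0⟩ := (Submodule.ne_bot_iff _).1 hk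
  refine ⟨fun i => a i, fun k => a0 (funext fun i => Subtype.ext (congrFun k i)), fun i => ?_, ?_⟩
  · have := mem_degreeLT.1 (a i).2
    by_cases k : (a i : F[X]) = 0
    · simp [k]
    · exact Nat.lt_succ_iff.1 ((natDegree_lt_iff_degree_lt k).2 this)
  · simpa [φ, Irr.pl] using ha

theorem pade (q : Irr F) {D : ℕ} (h : q.1.natDegree < 2 * (D + 1)) (h' : D < q.1.natDegree)
    {u : AdjoinRoot q.1} (hu : u ≠ 0) : ∃ r s : F[X], r ≠ 0 ∧ s ≠ 0 ∧ r.natDegree ≤ D ∧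
      s.natDegree ≤ D ∧ q.pl.π s * u = q.pl.π r := by
  obtain ⟨A, A0, hA, e⟩ := exists_rel q h ![u, -1]
  simp only [Fin.sum_univ_two, Matrix.cons_val_zero, Matrix.cons_val_one, mul_neg, mul_one] at e
  have n : ∀ i, A i ≠ 0 → q.pl.π (A i) ≠ 0 := fun i k => q.ne_of_lt k ((hA i).trans_lt h')
  have e' : q.pl.π (A 0) * u = q.pl.π (A 1) := by linear_combination e
  have k0 : A 0 ≠ 0 := fun k => A0 (funext fun i => by
    fin_cases i
    · exact k
    · exact of_not_not fun k' => n 1 k' (by rw [← e', k, map_zero, zero_mul]))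
  exact ⟨A 1, A 0, fun k => mul_ne_zero (n 0 k0) hu (by rw [e', k, map_zero]), k0, hA 1, hA 0, e'⟩

theorem pf_mem_L {N : ℕ} {l : List F[X]} (h : ∀ a ∈ l, c F[X] a ∈ L F N) : pf l ∈ L F N := by
  induction l with
  | nil => exact one_mem _
  | cons a l ih =>
    rw [pf_cons]
    exact mul_mem (sub_mem (one_mem _) (h a (by simp))) (ih fun b hb => h b (by simp [hb]))

theorem lift_low (q : Irr F) {N m : ℕ} (ρ : AdjoinRoot q.1 → F[X])
    (h : ∀ u, u ≠ 0 → q.pl.π (ρ u) ≠ 0 ∧ c _ (q.pl.π (ρ u)) = c _ u ∧ c _ (ρ u) ∈ L F N)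
    {ψ : R (AdjoinRoot q.1)} (hψ : ψ ∈ J _ ^ m) :
    ∃ η ∈ J F[X] ^ m, η ∈ L F N ∧ q.pl.sp η = ψ := by
  refine pow_induction (p := fun ψ => ∃ η ∈ J F[X] ^ m, η ∈ L F N ∧ q.pl.sp η = ψ) hψ
    (fun u l hl hl' => ?_) ?_
  · by_cases u0 : u = 0
    · exact ⟨0, zero_mem _, zero_mem _, by simp [u0, c_zero]⟩
    have k : ∀ a ∈ l.map ρ, q.pl.π a ≠ 0 := by simpa using fun a ha => (h a (hl' a ha)).1
    refine ⟨c _ (ρ u) * pf (l.map ρ), Ideal.mul_mem_left _ _ ?_, mul_mem (h u u0).2.2 (pf_mem_L ?_), ?_⟩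
    · have := pf_mem (l := l.map ρ) fun a ha e => k a ha (by rw [e, map_zero])
      rwa [List.length_map, hl] at this
    · simpa using fun a ha => (h a (hl' a ha)).2.2
    · rw [map_mul, q.pl.sp_c (h u u0).1, (h u u0).2.1, q.pl.sp_pf k, List.map_map]
      congr 1
      simp only [pf, List.map_map]
      congr 1
      exact List.map_congr_left fun a ha => by simp [(h a (hl' a ha)).2.1]
  · rintro _ _ ⟨x, x1, x2, rfl⟩ ⟨y, y1, y2, rfl⟩
    exact ⟨x + y, add_mem x1 y1, add_mem x2 y2, map_add _ _ _⟩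

theorem lift_res (p : Irr F) {m : ℕ} {ψ : R (AdjoinRoot p.1)} (hψ : ψ ∈ J _ ^ m) :
    ∃ η ∈ J F[X] ^ (m + 1), p.pl.dp η = ψ ∧
      ∀ q : Irr F, q ≠ p → p.1.natDegree ≤ q.1.natDegree → q.pl.dp η = 0 := by
  obtain ⟨η, h1, h2, rfl⟩ := lift_low p (N := p.1.natDegree) p.rep
    (fun u hu => by rw [p.π_rep]; exact ⟨hu, rfl, c_mem (p.rep_lt u)⟩) hψ
  refine ⟨η * (1 - c _ (-p.1)), ?_, ?_, fun q hq hq' => ?_⟩
  · rw [pow_succ]
    exact Ideal.mul_mem_mul h1 (one_sub_mem (neg_ne_zero.2 p.2.1.ne_zero))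
  · have e : p.pl.dp (c F[X] p.1) = 1 := p.pl.dp_p
    rw [p.pl.dp_mul_of (dp_L h2 p le_rfl), c_neg, map_sub, map_neg, e, p.pl.dp_one]
    ring
  · rw [q.pl.dp_mul_of (dp_L h2 q hq'), c_neg, map_sub, map_neg, q.pl.dp_c (q.ne_of_ne hq),
      q.pl.dp_one]
    ring

theorem descent {k d : ℕ} (hF : J F ^ (k + 1) = ⊥)
    (hL : ∀ q : Irr F, q.1.natDegree ≤ d → J (AdjoinRoot q.1) ^ k = ⊥) {Δ : F[X]} (Δ0 : Δ ≠ 0)
    (hΔ : Δ.natDegree ≤ 2 * d + 1) {x : R F[X]} (hx : x ∈ J F[X] ^ (k + 1))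
    (hr : ∀ q : Irr F, d < q.1.natDegree → q.pl.π Δ ≠ 0 →
      ∃ ψ ∈ J (AdjoinRoot q.1) ^ (k - 1), q.pl.dp x = (1 - c _ (q.pl.π Δ)) * ψ) :
    ∃ η, x = (1 - c _ Δ) * η := by
  classical
  have dΔ : ∀ (q : Irr F) (η : R F[X]), q.pl.π Δ ≠ 0 →
      q.pl.dp ((1 - c _ Δ) * η) = (1 - c _ (q.pl.π Δ)) * q.pl.dp η := fun q η h => by
    rw [q.pl.dp_mul_of (by rw [map_sub, q.pl.dp_one, q.pl.dp_c h, sub_zero]), map_sub, map_one,
      q.pl.sp_c h]
  have mem : ∀ η ∈ J F[X] ^ k, (1 - c _ Δ) * η ∈ J F[X] ^ (k + 1) := fun η h => by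
    rw [pow_succ']; exact Ideal.mul_mem_mul (one_sub_mem Δ0) h
  have stepA : ∀ (N : ℕ) (x : R F[X]), (∀ q : Irr F, d < q.1.natDegree → q.pl.π Δ ≠ 0 →
      ∃ ψ ∈ J (AdjoinRoot q.1) ^ (k - 1), q.pl.dp x = (1 - c _ (q.pl.π Δ)) * ψ) →
      (∀ q : Irr F, N ≤ q.1.natDegree → d < q.1.natDegree → q.pl.π Δ ≠ 0 → q.pl.dp x = 0) →
      ∃ η ∈ J F[X] ^ k, ∀ q : Irr F, d < q.1.natDegree → q.pl.π Δ ≠ 0 →
        q.pl.dp (x - (1 - c _ Δ) * η) = 0 := fun N => by
    induction N with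
    | zero => exact fun x _ h => ⟨0, zero_mem _, fun q a b => by simpa using h q (Nat.zero_le _) a b⟩
    | succ N ih =>
      intro x hr h
      have : ∀ p : Irr F, ∃ η ∈ J F[X] ^ (k - 1 + 1), (d < p.1.natDegree → p.pl.π Δ ≠ 0 →
          p.pl.dp x = (1 - c _ (p.pl.π Δ)) * p.pl.dp η) ∧
          ∀ q : Irr F, q ≠ p → p.1.natDegree ≤ q.1.natDegree → q.pl.dp η = 0 := fun p => by
        by_cases k : d < p.1.natDegree ∧ p.pl.π Δ ≠ 0
        · obtain ⟨ψ, hψ, e⟩ := hr p k.1 k.2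
          obtain ⟨η, h1, h2, h3⟩ := lift_res p hψ
          exact ⟨η, h1, fun _ _ => by rw [h2, e], h3⟩
        · exact ⟨0, zero_mem _, fun a b => (k ⟨a, b⟩).elim, fun _ _ _ => map_zero _⟩
      choose η h1 h2 h3 using this
      let s := (res_finite x).toFinset.filter fun p => p.1.natDegree = N
      have hη : ∑ p ∈ s, η p ∈ J F[X] ^ (k - 1 + 1) := sum_mem fun p _ => h1 p
      obtain ⟨η', a1, a2⟩ := ih (x - (1 - c _ Δ) * ∑ p ∈ s, η p) (fun q a b => by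
        obtain ⟨ψ, hψ, e⟩ := hr q a b
        exact ⟨_, sub_mem hψ (q.pl.res_mem hη).2, by rw [map_sub, dΔ q _ b, e, mul_sub]⟩)
        (fun q hq a b => by
          have z : ∀ p ∈ s, p ≠ q → q.pl.dp (η p) = 0 := fun p hp e =>
            h3 p q e.symm ((Finset.mem_filter.1 hp).2 ▸ hq)
          rw [map_sub, dΔ q _ b, map_sum]
          by_cases k : q ∈ s
          · rw [Finset.sum_eq_single_of_mem q k z, h2 q a b, sub_self]
          · rw [Finset.sum_eq_zero fun p hp => z p hp (by rintro rfl; exact k hp), mul_zero, sub_zero]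
            rcases hq.eq_or_lt with e | e
            · exact of_not_not fun n => k (Finset.mem_filter.2 ⟨by simpa using n, e.symm⟩)
            · exact h q e a b)
      refine ⟨∑ p ∈ s, η p + η', add_mem (Ideal.pow_le_pow_right (by omega) hη) a1, fun q a b => ?_⟩
      rw [mul_add, ← sub_sub]
      exact a2 q a b
  obtain ⟨N, hN⟩ := ((res_finite x).image fun q => q.1.natDegree).bddAbove
  obtain ⟨η, h1, h2⟩ := stepA (N + 1) x hr fun q hq _ _ => of_not_not fun k =>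
    absurd (hN ⟨q, k, rfl⟩) (by simp only [not_le]; omega)
  have hx' := sub_mem hx (mem η h1)
  have fin : ∀ η' ∈ J F[X] ^ k, (∀ q : Irr F, d < q.1.natDegree →
      q.pl.dp (x - (1 - c _ Δ) * η - (1 - c _ Δ) * η') = 0) → ∃ η, x = (1 - c _ Δ) * η :=
    fun η' a b => ⟨η + η', by
      have m := sub_mem hx' (mem η' a)
      have := zero_of_res hF m fun q => by
        by_cases k : d < q.1.natDegree
        · exact b q k
        · have := (q.pl.res_mem m).2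
          rwa [Nat.add_sub_cancel, hL q (not_lt.1 k), Ideal.mem_bot] at this
      linear_combination this⟩
  by_cases hp : ∃ p : Irr F, d < p.1.natDegree ∧ p.pl.π Δ = 0
  · obtain ⟨p, hp, e⟩ := hp
    obtain ⟨Δ', rfl⟩ := (p.pl.hp _).1 e
    change p.1 * Δ' ≠ 0 at Δ0
    change (p.1 * Δ').natDegree ≤ _ at hΔ
    have Δ1 := right_ne_zero_of_mul Δ0
    rw [natDegree_mul p.2.1.ne_zero Δ1] at hΔ
    have : ∀ u : AdjoinRoot p.1, ∃ g : F[X], u ≠ 0 →
        p.pl.π g ≠ 0 ∧ c _ (p.pl.π g) = c _ u ∧ c _ g ∈ L F (d + 1) := fun u => by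
      by_cases hu : u = 0
      · exact ⟨0, fun k => (k hu).elim⟩
      obtain ⟨r, s, r0, s0, hr, hs, e⟩ := pade p (D := d) (by omega) hp hu
      have s1 := p.ne_of_lt s0 (hs.trans_lt hp)
      refine ⟨r * s, fun _ => ⟨?_, ?_, ?_⟩⟩
      · rw [map_mul]; exact mul_ne_zero (p.ne_of_lt r0 (hr.trans_lt hp)) s1
      · rw [map_mul, ← e, map_mul, map_mul]
        linear_combination c _ u * c_sq s1
      · rw [map_mul]; exact mul_mem (c_mem (by omega)) (c_mem (by omega))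
    choose ρ hρ using this
    obtain ⟨η', a1, a2, a3⟩ := lift_low p ρ hρ (p.pl.res_mem hx').2
    have m : c _ (-Δ') * η' ∈ L F (d + 1) := mul_mem (c_mem (by rw [natDegree_neg]; omega)) a2
    refine fin (c _ (-Δ') * η') (Ideal.mul_mem_left _ _ a1) fun q hq => ?_
    by_cases k : q = p
    · subst k
      have Δ2 := q.ne_of_lt Δ1 (by omega)
      rw [map_sub, ← a3, mul_comm _ (c _ (-Δ') * η'), q.pl.dp_mul_of (dp_L m q hq), map_sub _ 1,
        q.pl.dp_one, mul_comm q.pl.p, map_mul (c F[X]), q.pl.dp_mul_of (q.pl.dp_c Δ2), q.pl.dp_p,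
        map_mul, c_neg, map_neg, q.pl.sp_c Δ2]
      linear_combination - q.pl.sp η' * c_sq Δ2
    · have n : q.pl.π (p.pl.p * Δ') ≠ 0 := by
        rw [map_mul]
        exact mul_ne_zero (q.ne_of_ne k) (q.ne_of_lt Δ1 (by omega))
      rw [map_sub, h2 q hq n, dΔ q _ n, dp_L m q hq]
      ring
  · push Not at hp
    exact fin 0 (zero_mem _) fun q hq => by simpa using h2 q hq (hp q hq)

end Pool.Agent.Lib.MP_887a05_al.L3
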