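import Pool.Agent.Lib.MP_887a05_al.L3Sym

/-! Comparison of the universal ring of symbols with the Witt ring. -/

namespace Pool.Agent.Lib.MP_887a05_al.L3

open Pool.Agent.Lib.MP_887a05_al.FS (N sqs Sim Good Gp gp_sqs good_sqs pp)
open Pool.Agent.Shared.WittRing (W cls fundIdeal cls_mul cls_one cls_neg cls_sq cls_norm fundIdeal_eq)

universe u

theorem N_round {K : Type*} [Field K] {H : Set K} (h : Good H) {l : List K} (hl : ∀ a ∈ l, a ≠ 0)
    {t : K} (ht : t ∈ N H l) (t0 : t ≠ 0) : Sim (N H l) t := by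
  induction l generalizing t with
  | nil => exact fun w hw => h.mul ht hw
  | cons a l ih =>
    have hl' : ∀ b ∈ l, b ≠ 0 := fun b hb => hl b (by simp [hb])
    have ha := hl a (by simp)
    obtain ⟨x, y, hx, hy, -, rfl⟩ := ht
    by_cases y0 : y = 0
    · rw [y0, mul_zero, sub_zero] at t0 ⊢
      exact (ih hl' (hx.resolve_right t0) t0).cons
    have sy := ih hl' (hy.resolve_right y0) y0
    by_cases x0 : x = 0
    · rw [x0, zero_sub, ← neg_mul]
      exact (h.sim (by simp) ha (h.neg_pp ha)).mul sy.cons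
    have sx := ih hl' (hx.resolve_right x0) x0
    have r0 : y / x ≠ 0 := div_ne_zero y0 x0
    have sr : Sim (N H l) (y / x) := by
      have := (sx.mul sy).mul (h.toGp.sim (h.sq (inv_ne_zero x0)) l)
      rwa [show x * y * x⁻¹ ^ 2 = y / x by field_simp] at this
    have e : x - a * y = x * (1 - y / x * a) := by field_simp
    have e0 : 1 - y / x * a ≠ 0 := fun k => t0 (by rw [e, k, mul_zero])
    rw [e]
    refine sx.cons.mul ?_
    rw [← h.toGp.scale r0 sr]
    exact h.sim (by simp) (mul_ne_zero r0 ha) (h.one_sub_pp e0)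

theorem fromN {D K : Type u} [CommRing D] [IsDomain D] [Field K] [Algebra D K] [IsFractionRing D K]
    {l : List D} (hl : ∀ a ∈ l, a ≠ 0) {w : K} (hw : w ∈ N (sqs K) (l.map (algebraMap D K))) :
    pf l = 0 ∨ ∃ s x y : D, s ≠ 0 ∧ PV l y ∧ x ^ 2 + y ≠ 0 ∧
      w * algebraMap D K s ^ 2 = algebraMap D K (x ^ 2 + y) := by
  have inj := IsFractionRing.injective D K
  induction l generalizing w with
  | nil =>
    obtain ⟨t, t0, rfl⟩ := hw
    obtain ⟨x, s, hs, rfl⟩ := IsFractionRing.div_surjective (A := D) t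
    have s0 := nonZeroDivisors.ne_zero hs
    have s1 := (map_ne_zero_iff _ inj).2 s0
    refine .inr ⟨s, x, 0, s0, rfl, ?_, by field_simp; simp⟩
    rw [add_zero]
    exact pow_ne_zero 2 (by rintro rfl; simp at t0)
  | cons a l ih =>
    have hl' : ∀ b ∈ l, b ≠ 0 := fun b hb => hl b (by simp [hb])
    have ha := hl a (by simp)
    rw [pf_cons]
    by_cases k : pf l = 0
    · exact .inl (by rw [k, mul_zero])
    have un : ∀ {z : K}, z ∈ N (sqs K) (l.map (algebraMap D K)) ∨ z = 0 → ∃ s x y : D, s ≠ 0 ∧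
        PV l y ∧ (z ∈ N (sqs K) (l.map (algebraMap D K)) → x ^ 2 + y ≠ 0) ∧
          z * algebraMap D K s ^ 2 = algebraMap D K (x ^ 2 + y) := fun {z} hz => by
      by_cases h : z ∈ N (sqs K) (l.map (algebraMap D K))
      · obtain ⟨s, x, y, a1, a2, a3, a4⟩ := (ih hl' h).resolve_left k
        exact ⟨s, x, y, a1, a2, fun _ => a3, a4⟩
      · exact ⟨1, 0, 0, one_ne_zero, PV.zero l, fun h' => (h h').elim, by simp [hz.resolve_left h]⟩
    obtain ⟨p, q, hp, hq, hpq, rfl⟩ := hw
    obtain ⟨s, x, y, s0, hy, n1, e1⟩ := un hp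
    obtain ⟨t, z, y', t0, hy', n2, e2⟩ := un hq
    by_cases e : (t * x) ^ 2 + (t ^ 2 * y - a * ((s * z) ^ 2 + s ^ 2 * y')) = 0
    · left
      have e' : (t * x) ^ 2 + t ^ 2 * y = a * ((s * z) ^ 2 + s ^ 2 * y') := by linear_combination e
      have f1 : (t * x) ^ 2 + t ^ 2 * y = t ^ 2 * (x ^ 2 + y) := by ring
      have f2 : (s * z) ^ 2 + s ^ 2 * y' = s ^ 2 * (z ^ 2 + y') := by ring
      have n : (s * z) ^ 2 + s ^ 2 * y' ≠ 0 := by
        rcases hpq with h | h
        · intro k
          rw [k, mul_zero, f1] at e'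
          exact mul_ne_zero (pow_ne_zero 2 t0) (n1 h) e'
        · rw [f2]; exact mul_ne_zero (pow_ne_zero 2 s0) (n2 h)
      have i1 := round hl' (x := t * x) (hy.smul t) (by rw [e']; exact mul_ne_zero ha n)
      have i2 := round hl' (x := s * z) (hy'.smul s) n
      rw [e', map_mul] at i1
      linear_combination c D a * i2 - i1
    · refine .inr ⟨s * t, t * x, _, mul_ne_zero s0 t0, ⟨_, s * z, _, hy.smul t, hy'.smul s, rfl⟩, e, ?_⟩
      simp only [map_add, map_pow, map_mul, map_sub] at e1 e2 ⊢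
      linear_combination (algebraMap D K t) ^ 2 * e1 - algebraMap D K a * (algebraMap D K s) ^ 2 * e2

open Classical in
/-- The class of a one-dimensional form, extended by zero. -/
noncomputable def cls0 (K : Type u) [Field K] : K →* W K where
  toFun a := if h : a = 0 then 0 else cls (Units.mk0 a h)
  map_one' := by simp [cls_one]
  map_mul' a b := by
    by_cases ha : a = 0
    · simp [ha]
    by_cases hb : b = 0
    · simp [hb]
    simp [ha, hb, ← cls_mul]

theorem cls0_unit {K : Type u} [Field K] (a : Kˣ) : cls0 K a = cls a := by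
  simp [cls0]

theorem cls0_sym (K : Type u) [Field K] : IsSym (cls0 K) := by
  have z : cls0 K 0 = 0 := by simp [cls0]
  have n : cls0 K (-1) = -1 := by
    have := cls0_unit (-1 : Kˣ)
    rwa [Units.val_neg, Units.val_one, cls_neg, cls_one] at this
  have s : ∀ a, a ≠ 0 → cls0 K a * cls0 K a = 1 := fun a ha => by
    lift a to Kˣ using ha.isUnit
    rw [cls0_unit, cls_sq]
  refine ⟨z, n, s, fun a b => ?_⟩
  by_cases ha : a = 0
  · simp [ha, z]
  by_cases hb : b = 0
  · simp [hb, z]
  by_cases hab : a + b = 0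
  · rw [hab, z, show b = -1 * a by linear_combination hab, map_mul, n]; ring
  have := cls_norm (Units.mk0 a ha * Units.mk0 _ hab) (Units.mk0 b hb * Units.mk0 _ hab) (a + b) 1
    (by simp; ring)
  simp only [← cls0_unit, Units.val_mul, Units.val_mk0, map_mul] at this
  have k := s _ hab
  set u := cls0 K (a + b)
  linear_combination -u * this + (u * cls0 K a * cls0 K b - cls0 K a - cls0 K b) * k

/-- The map to the Witt ring. -/
noncomputable def toW (K : Type u) [Field K] : R K →+* W K := lift _ (cls0_sym K)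

theorem toW_pf {K : Type u} [Field K] (l : List Kˣ) : toW K (pf (l.map Units.val)) = FS.pf l := by
  induction l with
  | nil => simp [FS.pf]
  | cons a l ih =>
    rw [List.map_cons, pf_cons, FS.pf_cons, map_mul, ih, map_sub, map_one, toW, lift_c, cls0_unit]

theorem iso_of_pf {K : Type u} [Field K] (h2 : (2 : K) ≠ 0) {l : List K} (hl : ∀ a ∈ l, a ≠ 0)
    (h : pf l = 0) : 0 ∈ N (sqs K) l := by
  lift l to List Kˣ using fun a ha => (hl a ha).isUnit
  exact FS.iso_of_pf h2 l (by rw [← toW_pf, h, map_zero])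

theorem pow_eq_bot_iff {K : Type u} [Field K] (h2 : (2 : K) ≠ 0) (m : ℕ) :
    fundIdeal K ^ m = ⊥ ↔ J K ^ m = ⊥ := by
  rw [FS.pow_eq_bot_iff_iso h2]
  constructor
  · intro h
    refine le_bot_iff.1 fun x hx => pow_induction (p := fun x => x = 0) hx (fun u l hl hl' => ?_)
      fun x y hx hy => by rw [hx, hy, add_zero]
    rcases fromN (K := K) hl' (w := 0) (by simpa using h l hl' hl.ge) with k | ⟨s, x, y, -, -, k, e⟩
    · rw [k, mul_zero]
    · exact (k (by simpa using e.symm)).elim
  · intro h l hl len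
    exact iso_of_pf h2 hl (Ideal.mem_bot.1 (h ▸ Ideal.pow_le_pow_right len (pf_mem hl)))

/-- A similarity factor of a Pfister element is represented, up to a square. -/
theorem repr_of_sim {D : Type u} [CommRing D] [IsDomain D] (h2 : (2 : D) ≠ 0) {l : List D}
    (hl : ∀ a ∈ l, a ≠ 0) {g : D} (hg : g ≠ 0) (h : c D g * pf l = pf l) :
    pf l = 0 ∨ ∃ s x y : D, s ≠ 0 ∧ PV l y ∧ g * s ^ 2 = x ^ 2 + y := by
  let K := FractionRing D
  have inj := IsFractionRing.injective D K
  have h2' : (2 : K) ≠ 0 := by simpa [map_ofNat] using (map_ne_zero_iff _ inj).2 h2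
  have hl' : ∀ a ∈ l.map (algebraMap D K), a ≠ 0 := by
    simpa [map_eq_zero_iff _ inj] using hl
  have g0 := (map_ne_zero_iff _ inj).2 hg
  have z : pf ((g :: l).map (algebraMap D K)) = 0 := by
    rw [← hom_pf (map _ inj) _ fun a _ => map_c _ inj a, pf_cons, sub_mul, one_mul, h, sub_self,
      map_zero]
  obtain ⟨p, q, hp, hq, hpq, e⟩ := iso_of_pf h2' (by simpa [g0] using hl') z
  by_cases k : (0 : K) ∈ N (sqs K) (l.map (algebraMap D K))
  · rcases fromN hl k with k | ⟨s, x, y, -, -, k, e⟩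
    · exact .inl k
    · exact (k (inj (by simpa using e.symm))).elim
  have e' : p = algebraMap D K g * q := by linear_combination -e
  have q0 : q ≠ 0 := by
    rintro rfl
    rw [mul_zero] at e'
    exact k (hpq.elim (e' ▸ id) id)
  have p0 : p ≠ 0 := e' ▸ mul_ne_zero g0 q0
  have := ((N_round (good_sqs h2') hl' (hq.resolve_right q0) q0).mul
    (gp_sqs.sim (gp_sqs.sq (inv_ne_zero q0)) _)) p (hp.resolve_right p0)
  rw [show q * q⁻¹ ^ 2 * p = algebraMap D K g by
    rw [e', sq]
    linear_combination (q⁻¹ * q + 1) * algebraMap D K g * mul_inv_cancel₀ q0] at this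
  refine (fromN hl this).imp_right fun ⟨s, x, y, a1, a2, _, a4⟩ => ⟨s, x, y, a1, a2, inj ?_⟩
  rw [← a4]; simp

end Pool.Agent.Lib.MP_887a05_al.L3
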