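import Pool.Agent.Lib.MP_887a05_al.L3Desc

/-! The step from degree `d` to degree `3 d + 2`. -/

namespace Pool.Agent.Lib.MP_887a05_al.L3

open Polynomial Module

universe u

variable {F : Type u} [Field F]

theorem low_sim {k d : ℕ} (hF : J F ^ (k + 1) = ⊥)
    (hL : ∀ q : Irr F, q.1.natDegree ≤ d → J (AdjoinRoot q.1) ^ k = ⊥) {l : List F[X]}
    (hk : l.length = k) (hl : ∀ a ∈ l, a ≠ 0 ∧ a.natDegree ≤ d) {g : F[X]} (g0 : g ≠ 0)
    (hg : g.natDegree ≤ d) : c _ g * pf l = pf l := by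
  have m : pf (g :: l) ∈ J F[X] ^ (k + 1) := by
    have := pf_mem (l := g :: l) (by simpa [g0] using fun a ha => (hl a ha).1)
    rwa [List.length_cons, hk] at this
  have := zero_of_res hF m fun q => by
    by_cases e : d < q.1.natDegree
    · refine q.pl.dp_pf fun a ha => ?_
      rcases List.mem_cons.1 ha with rfl | ha
      exacts [q.ne_of_lt g0 (hg.trans_lt e), q.ne_of_lt (hl a ha).1 ((hl a ha).2.trans_lt e)]
    · have := (q.pl.res_mem m).2
      rwa [Nat.add_sub_cancel, hL q (not_lt.1 e), Ideal.mem_bot] at this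
  rw [pf_cons] at this
  linear_combination -this

theorem main (h2 : (2 : F) ≠ 0) {k d : ℕ} (hF : J F ^ (k + 1) = ⊥)
    (hL : ∀ q : Irr F, q.1.natDegree ≤ d → J (AdjoinRoot q.1) ^ k = ⊥) {l : List F[X]}
    (hk : l.length = k) (hl : ∀ a ∈ l, a ≠ 0 ∧ a.natDegree ≤ d) (h : Irr F)
    (hd : d < h.1.natDegree) (hd' : h.1.natDegree ≤ 3 * d + 2) {e : AdjoinRoot h.1} (e0 : e ≠ 0) :
    c _ e * pf (l.map h.pl.π) = pf (l.map h.pl.π) := by
  have unit : ∀ q : Irr F, d < q.1.natDegree → ∀ a ∈ l, q.pl.π a ≠ 0 := fun q hq a ha =>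
    q.ne_of_lt (hl a ha).1 ((hl a ha).2.trans_lt hq)
  have two : (2 : F[X]) ≠ 0 := by simpa [map_ofNat] using C_ne_zero.2 h2
  set φ := pf (l.map h.pl.π) with hφ
  have ne : ∀ {g : F[X]}, g ≠ 0 → g.natDegree ≤ d → h.pl.π g ≠ 0 := fun g0 hg =>
    h.ne_of_lt g0 (hg.trans_lt hd)
  have low : ∀ {g : F[X]}, g ≠ 0 → g.natDegree ≤ d → c _ (h.pl.π g) * φ = φ := fun g0 hg => by
    have := congrArg h.pl.sp (low_sim hF hL hk hl g0 hg)
    rwa [map_mul, h.pl.sp_c (ne g0 hg), h.pl.sp_pf (unit h hd)] at this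
  have can : ∀ {x : AdjoinRoot h.1}, c _ x * φ = φ → c _ (x * e) * φ = φ → c _ e * φ = φ :=
    fun {x} a b => by rw [map_mul] at b; linear_combination b - c _ e * a
  have lin : ∀ {A B : F[X]}, A ≠ 0 → A.natDegree ≤ d → B.natDegree ≤ d →
      h.pl.π A * e + h.pl.π B = 0 → c _ e * φ = φ := fun {A B} A0 hA hB r => by
    have r' : h.pl.π A * e = h.pl.π (-B) := by rw [map_neg]; linear_combination r
    refine can (low A0 hA) (r' ▸ low ?_ (by rwa [natDegree_neg]))
    rintro k
    exact mul_ne_zero (ne A0 hA) e0 (by rw [r', k, map_zero])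
  obtain ⟨V, V0, hV, r⟩ := exists_rel h (r := 3) (D := d) (by omega) ![e ^ 2, e, 1]
  simp only [Fin.sum_univ_three, Matrix.cons_val_zero, Matrix.cons_val_one, Matrix.cons_val_two,
    Matrix.tail_cons, Matrix.head_cons, mul_one] at r
  have hA := hV 0
  have hB := hV 1
  have hC := hV 2
  have V0' : V 0 = 0 → V 1 = 0 → V 2 = 0 → False := fun a b c => V0 (funext fun i => by
    fin_cases i; exacts [a, b, c])
  generalize V 0 = A at *
  generalize V 1 = B at *
  generalize V 2 = C at *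
  by_cases A0 : A = 0
  · subst A0
    rw [map_zero, zero_mul, zero_add] at r
    refine lin (fun B0 => V0' rfl B0 (of_not_not fun C0 => ne C0 hC ?_)) hB hC r
    rwa [B0, map_zero, zero_mul, zero_add] at r
  by_cases C0 : C = 0
  · refine lin A0 hA hB (mul_right_cancel₀ e0 ?_)
    rw [C0, map_zero] at r
    linear_combination r
  by_cases D0 : h.pl.π (2 * A) * e + h.pl.π B = 0
  · refine lin (mul_ne_zero two A0) (natDegree_mul_le.trans ?_) hB D0
    rwa [natDegree_ofNat, zero_add]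
  set Δ := B ^ 2 - 4 * A * C with hΔ
  have Δs : h.pl.π Δ = (h.pl.π (2 * A) * e + h.pl.π B) * (h.pl.π (2 * A) * e + h.pl.π B) := by
    simp only [hΔ, map_sub, map_mul, map_pow, map_ofNat]
    linear_combination -4 * h.pl.π A * r
  have Δ1 : h.pl.π Δ ≠ 0 := Δs ▸ mul_ne_zero D0 D0
  have Δc : c _ (h.pl.π Δ) = 1 := by rw [Δs, map_mul, c_sq D0]
  have Δd : Δ.natDegree ≤ 2 * d + 1 := by
    have a1 := natDegree_sub_le (B ^ 2) (4 * A * C)
    have a2 := natDegree_pow_le (p := B) (n := 2)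
    have a3 := natDegree_mul_le (p := 4 * A) (q := C)
    have a4 := natDegree_mul_le (p := (4 : F[X])) (q := A)
    rw [natDegree_ofNat] at a4
    rw [hΔ]
    omega
  have hl0 : ∀ a ∈ l, a ≠ 0 := fun a ha => (hl a ha).1
  rcases repr_of_sim two hl0 (mul_ne_zero A0 C0) (by
      rw [map_mul, mul_assoc, low_sim hF hL hk hl C0 hC, low_sim hF hL hk hl A0 hA]) with z | z
  · rw [hφ, ← h.pl.sp_pf (unit h hd), z, map_zero, mul_zero]
  obtain ⟨s, x, y, s0, hy, rep, hs⟩ : ∃ s x y : F[X], s ≠ 0 ∧ PV l y ∧ A * C * s ^ 2 = x ^ 2 + y ∧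
      ∀ q : Irr F, d < q.1.natDegree → q.pl.π s = 0 → pf (l.map q.pl.π) = 0 := by
    obtain ⟨s, x, y, s0, hy, rep⟩ := z
    induction hn : s.natDegree using Nat.strong_induction_on generalizing s x y with
    | _ n ih =>
      by_cases k : ∀ q : Irr F, d < q.1.natDegree → q.pl.π s = 0 → pf (l.map q.pl.π) = 0
      · exact ⟨s, x, y, s0, hy, rep, k⟩
      push Not at k
      obtain ⟨q, hq, a, b⟩ := k
      obtain ⟨x', y', hy', rfl, rfl⟩ := (dvd_or q.pl.π q.pl.hp (unit q hq) (x := x) hy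
        (by rw [← rep]; simp [a])).resolve_left b
      obtain ⟨s', rfl⟩ := (q.pl.hp s).1 a
      have s1 := right_ne_zero_of_mul s0
      refine ih s'.natDegree ?_ s' x' y' s1 hy' (mul_left_cancel₀ (pow_ne_zero 2 q.pl.p0) ?_) rfl
      · rw [← hn, natDegree_mul q.pl.p0 s1]
        exact Nat.lt_add_of_pos_left q.pos
      · linear_combination rep
  set G := 2 * x - B * s with hG
  have key : ∀ q : Irr F, d < q.1.natDegree → q.pl.π Δ ≠ 0 → q.pl.π (s * G) = 0 →
      ∃ ψ ∈ J (AdjoinRoot q.1) ^ (k - 1), pf (l.map q.pl.π) = (1 - c _ (q.pl.π Δ)) * ψ :=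
    fun q hq a b => by
      by_cases s1 : q.pl.π s = 0
      · exact ⟨0, zero_mem _, by rw [hs q hq s1, mul_zero]⟩
      have G1 : q.pl.π G = 0 := by rw [map_mul] at b; exact (mul_eq_zero.1 b).resolve_left s1
      have e1 : -(q.pl.π (2 ^ 2 * y)) = q.pl.π Δ * (q.pl.π s * q.pl.π s) := by
        have := congrArg q.pl.π rep
        simp only [hΔ, hG, map_sub, map_mul, map_pow, map_ofNat, map_add] at this G1 ⊢
        linear_combination 4 * this + (2 * q.pl.π x + q.pl.π B * q.pl.π s) * G1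
      obtain ⟨ψ, hψ, e2⟩ := slot (l := l.map q.pl.π) (by simpa using unit q hq)
        ((hy.smul 2).map q.pl.π) (neg_ne_zero.1 (e1 ▸ mul_ne_zero a (mul_ne_zero s1 s1)))
      rw [List.length_map, hk] at hψ
      rw [e1, map_mul, map_mul, c_sq s1, mul_one] at e2
      exact ⟨ψ, hψ, e2⟩
  by_cases G1 : h.pl.π (s * G) = 0
  · obtain ⟨ψ, -, e2⟩ := key h hd Δ1 G1
    rw [hφ, e2, Δc, sub_self, zero_mul, mul_zero]
  have G0 : s * G ≠ 0 := fun k => G1 (by rw [k, map_zero])
  obtain ⟨η, hη⟩ := descent hF hL (fun k => Δ1 (by rw [k, map_zero])) Δd (x := pf ((s * G) :: l))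
    (by
      have := pf_mem (l := (s * G) :: l) (by simpa [-mul_eq_zero, G0] using hl0)
      rwa [List.length_cons, hk] at this)
    fun q hq a => by
      rw [pf_cons, mul_comm, q.pl.dp_mul_of (q.pl.dp_pf (unit q hq)), q.pl.sp_pf (unit q hq)]
      by_cases b : q.pl.π (s * G) = 0
      · obtain ⟨ψ, hψ, e2⟩ := key q hq a b
        exact ⟨_, Ideal.mul_mem_right _ _ hψ, by rw [e2, mul_assoc]⟩
      · exact ⟨0, zero_mem _, by rw [map_sub, q.pl.dp_one, q.pl.dp_c b]; ring⟩
  have a1 := congrArg h.pl.sp hη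
  rw [pf_cons, map_mul h.pl.sp, map_mul h.pl.sp, map_sub h.pl.sp, map_sub h.pl.sp, map_one,
    h.pl.sp_c G1, h.pl.sp_c Δ1, Δc, h.pl.sp_pf (unit h hd), sub_self, zero_mul, ← hφ] at a1
  have e1 : (h.pl.π (A * s) * e + h.pl.π x) ^ 2 + h.pl.π y = h.pl.π A * h.pl.π (s * G) * e := by
    have := congrArg h.pl.π rep
    simp only [hG, map_sub, map_mul, map_pow, map_ofNat, map_add] at this ⊢
    linear_combination h.pl.π A * h.pl.π s ^ 2 * r - this
  have a2 := round (l := l.map h.pl.π) (by simpa using unit h hd)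
    (x := h.pl.π (A * s) * e + h.pl.π x) (hy.map h.pl.π)
    (e1 ▸ mul_ne_zero (mul_ne_zero (ne A0 hA) G1) e0)
  rw [e1] at a2
  refine can ?_ a2
  rw [map_mul]
  linear_combination low A0 hA - c _ (h.pl.π A) * a1

theorem two_slot {d : ℕ} (h : Irr F) (hd : d < h.1.natDegree) (hd' : h.1.natDegree ≤ 3 * d + 2)
    {ψ : R (AdjoinRoot h.1)} (H : ∀ x ≠ 0, ∀ g : F[X], g ≠ 0 → g.natDegree ≤ d →
      (1 - c _ x) * (1 - c _ (h.pl.π g)) * ψ = 0) {a b : AdjoinRoot h.1} (ha : a ≠ 0) (hb : b ≠ 0) :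
    (1 - c _ a) * (1 - c _ b) * ψ = 0 := by
  let B : AdjoinRoot h.1 → AdjoinRoot h.1 → Prop := fun a b => (1 - c _ a) * (1 - c _ b) * ψ = 0
  have symm : ∀ {a b}, B a b → B b a := fun {a b} k => by
    simp only [B] at k ⊢; linear_combination k
  have mul : ∀ {a b b'}, B a b → B a b' → B a (b * b') := fun {a b b'} k k' => by
    simp only [B, map_mul] at k k' ⊢; linear_combination k + c _ b * k'
  have can : ∀ {a b b'}, B a b → B a (b * b') → B a b' := fun {a b b'} k k' => by
    simp only [B, map_mul] at k k' ⊢; linear_combination k' - c _ b' * k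
  set D := h.1.natDegree / 2 with hD
  have hp := h.pos
  have ne : ∀ {g : F[X]}, g ≠ 0 → g.natDegree ≤ D → h.pl.π g ≠ 0 := fun g0 hg =>
    h.ne_of_lt g0 (by omega)
  have ne' : ∀ {g : F[X]}, g ≠ 0 → g.natDegree ≤ d → h.pl.π g ≠ 0 := fun g0 hg =>
    h.ne_of_lt g0 (by omega)
  have irr : ∀ f g : Irr F, f.1.natDegree ≤ g.1.natDegree → g.1.natDegree ≤ D →
      B (h.pl.π f.1) (h.pl.π g.1) := fun f g fg hg => by
    have f0 := ne f.2.1.ne_zero (fg.trans hg)
    have g0 := ne g.2.1.ne_zero hg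
    by_cases hf : f.1.natDegree ≤ d
    · exact symm (H _ g0 _ f.2.1.ne_zero hf)
    by_cases e : g = f
    · have := H _ g0 (-1) (by simp) (by simp)
      rw [map_neg, map_one, c_neg, map_one] at this
      simp only [B, ← e]
      linear_combination this + ψ * c_sq g0
    obtain ⟨u, v, u0, v0, hu, hv, r⟩ := pade g (D := d) (by omega) (by omega) (g.ne_of_ne e)
    obtain ⟨w, hw⟩ : g.1 ∣ v * f.1 - u := (g.pl.hp _).1 (by rw [map_sub, map_mul, r, sub_self])
    have dv := natDegree_mul v0 f.2.1.ne_zero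
    have w0 : w ≠ 0 := by
      rintro rfl
      rw [show v * f.1 = u by linear_combination hw] at dv
      omega
    have dw : w.natDegree ≤ d := by
      have := natDegree_sub_le (v * f.1) u
      rw [hw, natDegree_mul g.2.1.ne_zero w0] at this
      omega
    have st : B (h.pl.π v * h.pl.π u * h.pl.π f.1) (h.pl.π (-w) * h.pl.π u * h.pl.π g.1) := by
      have k := c_add (h.pl.π v * h.pl.π f.1) (h.pl.π (-w) * h.pl.π g.1)
      rw [show h.pl.π v * h.pl.π f.1 + h.pl.π (-w) * h.pl.π g.1 = h.pl.π u by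
        simp only [← map_mul, ← map_add]; congr 1; linear_combination hw] at k
      have k1 := c_sq (ne' u0 hu)
      simp only [B, map_mul] at k ⊢
      set U := c _ (h.pl.π u)
      linear_combination -U * ψ * k - ψ * k1
    have x0 := mul_ne_zero (mul_ne_zero (ne' v0 hv) (ne' u0 hu)) f0
    have s1 := can (mul (H _ x0 _ (neg_ne_zero.2 w0) (by rwa [natDegree_neg])) (H _ x0 _ u0 hu)) st
    exact symm (can (mul (H _ g0 _ v0 hv) (H _ g0 _ u0 hu)) (symm s1))
  have ext : ∀ x ≠ 0, (∀ g : Irr F, g.1.natDegree ≤ D → B x (h.pl.π g.1)) → ∀ y ≠ 0, B x y := by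
    intro x x0 k
    have poly : ∀ g : F[X], g ≠ 0 → g.natDegree ≤ D → B x (h.pl.π g) := fun g g0 hg => by
      induction hn : g.natDegree using Nat.strong_induction_on generalizing g with
      | _ n ih =>
        by_cases hu : IsUnit g
        · exact H x x0 g g0 (by rw [natDegree_eq_zero_of_isUnit hu]; exact Nat.zero_le _)
        obtain ⟨q, hq, hq', w, rfl⟩ := exists_monic_irreducible_factor g hu
        have w0 := right_ne_zero_of_mul g0
        rw [natDegree_mul hq'.ne_zero w0] at hg hn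
        have := hq'.natDegree_pos
        rw [map_mul]
        exact mul (k ⟨q, hq', hq⟩ (by simp only; omega)) (ih _ (by omega) w w0 (by omega) rfl)
    intro y y0
    obtain ⟨r, s, r0, s0, hr, hs, e⟩ := pade h (D := D) (by omega) (by omega) y0
    exact can (poly s s0 hs) (e ▸ poly r r0 hr)
  refine ext a ha (fun g hg => symm (ext _ (ne g.2.1.ne_zero hg) (fun f hf => ?_) a ha)) b hb
  rcases le_total f.1.natDegree g.1.natDegree with k | k
  exacts [symm (irr f g k hg), irr g f k hf]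

theorem step (h2 : (2 : F) ≠ 0) {k d : ℕ} (hF : J F ^ (k + 1) = ⊥)
    (hL : ∀ q : Irr F, q.1.natDegree ≤ d → J (AdjoinRoot q.1) ^ k = ⊥) (h : Irr F)
    (hd' : h.1.natDegree ≤ 3 * d + 2) : J (AdjoinRoot h.1) ^ (k + 1) = ⊥ := by
  by_cases hd : h.1.natDegree ≤ d
  · rw [pow_succ, hL h hd, Ideal.bot_mul]
  replace hd := not_le.1 hd
  have Z : ∀ (i : ℕ) (l₁ : List (AdjoinRoot h.1)) (l₂ : List F[X]), l₁.length = i + 1 →
      (∀ a ∈ l₁, a ≠ 0) → (∀ a ∈ l₂, a ≠ 0 ∧ a.natDegree ≤ d) → i + l₂.length = k →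
        pf l₁ * pf (l₂.map h.pl.π) = 0 := fun i => by
    induction i with
    | zero =>
      intro l₁ l₂ a1 a2 a3 a4
      obtain ⟨e, rfl⟩ := List.length_eq_one_iff.1 a1
      have := main h2 hF hL (by simpa using a4) a3 h hd hd' (a2 e (by simp))
      rw [pf_cons, pf_nil]
      linear_combination -this
    | succ i ih =>
      intro l₁ l₂ a1 a2 a3 a4
      obtain _ | ⟨a, _ | ⟨b, l⟩⟩ := l₁
      · simp at a1
      · simp at a1
      have := two_slot h hd hd' (ψ := pf l * pf (l₂.map h.pl.π)) (fun x x0 g g0 hg => by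
        have := ih (x :: l) (g :: l₂) (by simpa using a1)
          (by simpa [x0] using fun y hy => a2 y (by simp [hy])) (by simpa [g0, hg] using a3)
          (by rw [List.length_cons]; omega)
        rw [List.map_cons, pf_cons, pf_cons] at this
        linear_combination this) (a2 a (by simp)) (a2 b (by simp))
      rw [pf_cons, pf_cons]
      linear_combination this
  refine le_bot_iff.1 fun x hx => pow_induction (p := fun x => x = 0) hx (fun u l hl hl' => ?_)
    fun x y hx hy => by rw [hx, hy, add_zero]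
  have := Z k l [] hl hl' (by simp) rfl
  rw [List.map_nil, pf_nil, mul_one] at this
  rw [this, mul_zero]

theorem tower (h2 : (2 : F) ≠ 0) {k : ℕ} (hF : J F ^ (k + 1) = ⊥) (i : ℕ) (q : Irr F)
    (hq : q.1.natDegree < 3 ^ i) : J (AdjoinRoot q.1) ^ (k + i) = ⊥ := by
  induction i generalizing q with
  | zero => exact absurd q.pos (by omega)
  | succ i ih =>
    have := pow_pos (show 0 < 3 by norm_num) i
    refine step h2 (k := k + i) (d := 3 ^ i - 1)
      (le_bot_iff.1 (hF ▸ Ideal.pow_le_pow_right (by omega))) (fun p hp => ih p (by omega)) q ?_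
    rw [pow_succ] at hq
    omega

theorem finite_ext (h2 : (2 : F) ≠ 0) {K : Type u} [Field K] [Algebra F K] [FiniteDimensional F K]
    {m : ℕ} (H : ∀ q : Irr F, q.1.natDegree ≤ finrank F K → J (AdjoinRoot q.1) ^ m = ⊥) :
    J K ^ m = ⊥ := by
  obtain ⟨θ, hθ⟩ := Field.exists_primitive_element F (separableClosure F K)
  have hi : IsIntegral F θ := Algebra.IsIntegral.isIntegral θ
  obtain ⟨q, hq'⟩ : ∃ q : Irr F, q.1 = minpoly F θ :=
    ⟨⟨minpoly F θ, minpoly.irreducible hi, minpoly.monic hi⟩, rfl⟩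
  have hq := H q (hq' ▸ (minpoly.natDegree_le θ).trans
    (Submodule.finrank_le (separableClosure F K).toSubmodule))
  let ι : AdjoinRoot q.1 →+* K := (algebraMap (separableClosure F K) K).comp
    (AdjoinRoot.lift (algebraMap F _) θ (by rw [hq']; exact minpoly.aeval F θ))
  have hι : ∀ a : K, a ≠ 0 → ∃ b, b ≠ 0 ∧ c K (ι b) = c K a := fun a a0 => by
    obtain ⟨n, y, hy⟩ := IsPurelyInseparable.pow_mem (separableClosure F K) (ringExpChar F) a
    have hy' : y ∈ (aeval (R := F) θ).range := by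
      rw [← Algebra.adjoin_singleton_eq_range_aeval,
        ← IntermediateField.adjoin_simple_toSubalgebra_of_isAlgebraic hi.isAlgebraic, hθ]
      trivial
    obtain ⟨g, rfl⟩ := hy'
    have e : ι (AdjoinRoot.mk _ g) = a ^ ringExpChar F ^ n := by
      rw [← hy]; simp [ι, aeval_def]
    refine ⟨AdjoinRoot.mk _ g, fun k => pow_ne_zero _ a0 (by rw [← e, k, map_zero]), ?_⟩
    have odd : ∀ p, ExpChar F p → Odd p := fun p hp => by
      cases hp with
      | zero => exact odd_one
      | prime hp =>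
        refine hp.odd_of_ne_two fun k => h2 ?_
        have := CharP.cast_eq_zero F p
        rw [k] at this
        exact_mod_cast this
    obtain ⟨j, hj⟩ := (odd (ringExpChar F) inferInstance).pow (n := n)
    rw [e, hj, pow_succ, two_mul, pow_add, map_mul, map_mul, c_sq (pow_ne_zero j a0), one_mul]
  choose! ρ hρ using hι
  refine le_bot_iff.1 fun x hx => pow_induction (p := fun x => x = 0) hx (fun u l hl hl' => ?_)
    fun x y hx hy => by rw [hx, hy, add_zero]
  have m := pf_mem (l := l.map ρ) (by simpa using fun a ha => (hρ a (hl' a ha)).1)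
  rw [List.length_map, hl, hq, Ideal.mem_bot] at m
  have := hom_pf (map ι ι.injective) ι (l := l.map ρ) fun a _ => map_c _ _ a
  rw [m, map_zero] at this
  have e : pf l = pf ((l.map ρ).map ι) := by
    simp only [pf, List.map_map]
    congr 1
    exact List.map_congr_left fun a ha => by simp [(hρ a (hl' a ha)).2]
  rw [e, ← this, mul_zero]

end Pool.Agent.Lib.MP_887a05_al.L3
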