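import Pool.Agent.Lib.MP_887a05_al.L3Res

/-! Milnor's theorem: an element over `F[X]` all of whose residues vanish is constant. -/

namespace Pool.Agent.Lib.MP_887a05_al.L3

open Polynomial

universe u

/-- Monic irreducible polynomials. -/
def Irr (F : Type u) [Field F] := {p : F[X] // Irreducible p ∧ p.Monic}

variable {F : Type u} [Field F]

instance (p : Irr F) : Fact (Irreducible p.1) := ⟨p.2.1⟩

namespace Irr

variable (p : Irr F)

/-- The place attached to `p`. -/
noncomputable def pl : Pl F[X] (AdjoinRoot p.1) :=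
  ⟨AdjoinRoot.mk p.1, p.1, p.2.1.ne_zero, fun _ => AdjoinRoot.mk_eq_zero⟩

theorem pos : 0 < p.1.natDegree := p.2.1.natDegree_pos

theorem ne_of_lt {g : F[X]} (g0 : g ≠ 0) (h : g.natDegree < p.1.natDegree) : p.pl.π g ≠ 0 :=
  fun k => (natDegree_le_of_dvd ((p.pl.hp g).1 k) g0).not_gt h

theorem eq_of_dvd {q : Irr F} (h : p.1 ∣ q.1) : p = q :=
  Subtype.ext (eq_of_monic_of_associated p.2.2 q.2.2 (p.2.1.associated_of_dvd q.2.1 h))

theorem ne_of_ne {q : Irr F} (h : p ≠ q) : p.pl.π q.1 ≠ 0 :=
  fun k => h (p.eq_of_dvd ((p.pl.hp _).1 k))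

/-- The reduced representative. -/
noncomputable def rep (a : AdjoinRoot p.1) : F[X] := AdjoinRoot.modByMonicHom p.2.2 a

theorem π_rep (a : AdjoinRoot p.1) : p.pl.π (p.rep a) = a := AdjoinRoot.mk_leftInverse p.2.2 a

theorem rep_lt (a : AdjoinRoot p.1) : (p.rep a).natDegree < p.1.natDegree := by
  obtain ⟨g, rfl⟩ := AdjoinRoot.mk_surjective a
  exact natDegree_modByMonic_lt _ p.2.2 p.2.1.ne_one

theorem rep_add (a b : AdjoinRoot p.1) : p.rep (a + b) = p.rep a + p.rep b := map_add _ a b

theorem rep_π {g : F[X]} (h : g.natDegree < p.1.natDegree) : p.rep (p.pl.π g) = g :=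
  (modByMonic_eq_self_iff p.2.2).2 (degree_lt_degree h)

theorem rep_ne {a : AdjoinRoot p.1} (h : a ≠ 0) : p.rep a ≠ 0 := fun k =>
  h (by rw [← p.π_rep a, k, map_zero])

end Irr

/-- The subring generated by the symbols of polynomials of degree less than `N`. -/
noncomputable def L (F : Type u) [Field F] (N : ℕ) : Subring (R F[X]) :=
  Subring.closure {x | ∃ g : F[X], g.natDegree < N ∧ x = c F[X] g}

theorem c_mem {N : ℕ} {g : F[X]} (h : g.natDegree < N) : c F[X] g ∈ L F N :=
  Subring.subset_closure ⟨g, h, rfl⟩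

theorem L_mono {M N : ℕ} (h : M ≤ N) : L F M ≤ L F N :=
  Subring.closure_mono fun _ ⟨g, hg, e⟩ => ⟨g, hg.trans_le h, e⟩

theorem dp_L {N : ℕ} {x : R F[X]} (hx : x ∈ L F N) (q : Irr F) (h : N ≤ q.1.natDegree) :
    q.pl.dp x = 0 := by
  induction hx using Subring.closure_induction with
  | mem x hx =>
    obtain ⟨g, hg, rfl⟩ := hx
    by_cases g0 : g = 0
    · rw [g0, c_zero, map_zero]
    · exact q.pl.dp_c (q.ne_of_lt g0 (hg.trans_le h))
  | zero => exact map_zero _
  | one => exact q.pl.dp_one
  | add _ _ _ _ a b => rw [map_add, a, b, add_zero]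
  | neg _ _ a => rw [map_neg, a, neg_zero]
  | mul _ _ _ _ a b => rw [q.pl.dp_mul_of a, b, mul_zero]

theorem mul_mem_of_sp (p : Irr F) {x : R F[X]} (hx : x ∈ L F p.1.natDegree) (h : p.pl.sp x = 0) :
    c F[X] p.1 * x ∈ L F p.1.natDegree := by
  set A := L F p.1.natDegree
  let I : Ideal A :=
    { carrier := {y | c F[X] p.1 * y ∈ A}
      add_mem' := fun {a b} ha hb => by
        simpa [mul_add] using add_mem ha hb
      zero_mem' := by simp
      smul_mem' := fun r y hy => by
        have := mul_mem r.2 hy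
        simpa [mul_left_comm] using this }
  let e : AdjoinRoot p.1 → A := fun a => ⟨c F[X] (p.rep a), c_mem (p.rep_lt a)⟩
  have e0 : e 0 = 0 := Subtype.ext (by simp [e, Irr.rep, c_zero])
  have eπ : ∀ {g : F[X]} (hg : g.natDegree < p.1.natDegree), e (p.pl.π g) = ⟨_, c_mem hg⟩ :=
    fun hg => Subtype.ext (by simp [e, p.rep_π hg])
  have e1 : e 1 = 1 := by
    have := eπ (g := 1) (by simpa using p.pos)
    rw [map_one] at this
    exact this.trans (Subtype.ext (map_one _))
  have em : ∀ a b, Ideal.Quotient.mk I (e (a * b)) =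
      Ideal.Quotient.mk I (e a) * Ideal.Quotient.mk I (e b) := fun a b => by
    by_cases ha : a = 0
    · simp [ha, e0]
    by_cases hb : b = 0
    · simp [hb, e0]
    rw [← map_mul, Ideal.Quotient.eq]
    change c F[X] p.1 * (c F[X] (p.rep (a * b)) - c F[X] (p.rep a) * c F[X] (p.rep b)) ∈ A
    obtain ⟨w, hw⟩ : p.1 ∣ p.rep a * p.rep b - p.rep (a * b) :=
      (p.pl.hp _).1 (by simp [p.π_rep])
    have hw' : p.rep a * p.rep b = p.rep (a * b) + p.1 * w := by linear_combination hw
    rw [← map_mul (c F[X]) (p.rep a), hw']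
    by_cases w0 : w = 0
    · simp [w0]
    have hd : w.natDegree < p.1.natDegree := by
      have h1 := natDegree_sub_le (p.rep a * p.rep b) (p.rep (a * b))
      have h2 := natDegree_mul_le (p := p.rep a) (q := p.rep b)
      rw [hw, natDegree_mul p.2.1.ne_zero w0] at h1
      have := p.rep_lt a
      have := p.rep_lt b
      have := p.rep_lt (a * b)
      omega
    have k := c_add (p.rep (a * b)) (p.1 * w)
    have k1 := c_sq (p.rep_ne (mul_ne_zero ha hb))
    have k2 := c_sq w0
    have m : c F[X] (p.rep (a * b) + p.1 * w) ∈ A := by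
      rw [← hw', map_mul]; exact mul_mem (c_mem (p.rep_lt a)) (c_mem (p.rep_lt b))
    rw [map_mul] at k
    set G := c F[X] (p.rep (a * b) + p.1 * w)
    set u := c F[X] (p.rep (a * b))
    have : c F[X] p.1 * (u - G) = c F[X] w * u * (G - u) := by
      linear_combination c F[X] w * u * k + c F[X] p.1 * (G * u * u - u) * k2 +
        c F[X] p.1 * G * k1
    rw [this]
    exact mul_mem (mul_mem (c_mem hd) (c_mem (p.rep_lt _))) (sub_mem m (c_mem (p.rep_lt _)))
  let f : AdjoinRoot p.1 →* A ⧸ I :=
    { toFun := fun a => Ideal.Quotient.mk I (e a)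
      map_one' := by rw [e1, map_one]
      map_mul' := em }
  have hf : IsSym f := by
    refine ⟨by simp [f, e0], ?_, fun a ha => ?_, fun a b => ?_⟩
    · have := eπ (g := -1) (by simpa using p.pos)
      rw [map_neg, map_one] at this
      change Ideal.Quotient.mk I (e (-1)) = _
      rw [this, ← map_one (Ideal.Quotient.mk I), ← map_neg]
      congr 1
      exact Subtype.ext (by simp [c_neg])
    · change Ideal.Quotient.mk I (e a) * Ideal.Quotient.mk I (e a) = _
      rw [← map_mul, ← map_one (Ideal.Quotient.mk I)]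
      congr 1
      exact Subtype.ext (c_sq (p.rep_ne ha))
    · change Ideal.Quotient.mk I (e a) + Ideal.Quotient.mk I (e b) = Ideal.Quotient.mk I (e (a + b)) *
        (1 + Ideal.Quotient.mk I (e a) * Ideal.Quotient.mk I (e b))
      rw [← map_mul, ← map_add, ← map_one (Ideal.Quotient.mk I), ← map_add, ← map_mul]
      congr 1
      exact Subtype.ext (by simpa [e, p.rep_add] using c_add (p.rep a) (p.rep b))
  have key : ∀ x (hx : x ∈ A), lift f hf (p.pl.sp x) = Ideal.Quotient.mk I ⟨x, hx⟩ := by
    intro x hx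
    induction hx using Subring.closure_induction with
    | mem x hx =>
      obtain ⟨g, hg, rfl⟩ := hx
      by_cases g0 : g = 0
      · subst g0
        simp only [c_zero, map_zero]
        rfl
      · rw [p.pl.sp_c (p.ne_of_lt g0 hg), lift_c]
        exact congrArg _ (eπ hg)
    | zero => simp only [map_zero]; rfl
    | one => simp only [map_one]; rfl
    | add _ _ _ _ a b => rw [map_add, map_add, a, b]; rfl
    | neg _ _ a => rw [map_neg, map_neg, a]; rfl
    | mul _ _ _ _ a b => rw [map_mul, map_mul, a, b]; rfl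
  have := key x hx
  rw [h, map_zero] at this
  exact Ideal.Quotient.eq_zero_iff_mem.1 this.symm

/-- Elements of the next step of the filtration, in normal form. -/
noncomputable def T (F : Type u) [Field F] (N : ℕ) : AddSubgroup (R F[X]) where
  carrier := {x | ∃ a : Irr F →₀ R F[X], (∀ p, a p ∈ L F N) ∧
    (∀ p, a p ≠ 0 → p.1.natDegree = N) ∧ x - a.sum (fun p y => c F[X] p.1 * y) ∈ L F N}
  zero_mem' := ⟨0, fun _ => zero_mem _, by simp, by simp⟩
  add_mem' := by
    rintro x y ⟨a, a1, a2, a3⟩ ⟨b, b1, b2, b3⟩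
    refine ⟨a + b, fun p => add_mem (a1 p) (b1 p), fun p h => ?_, ?_⟩
    · by_cases k : a p = 0
      exacts [b2 p (by simpa [k] using h), a2 p k]
    · rw [Finsupp.sum_add_index' (by simp) (by simp [mul_add]), add_sub_add_comm]
      exact add_mem a3 b3
  neg_mem' := by
    rintro x ⟨a, a1, a2, a3⟩
    refine ⟨-a, fun p => neg_mem (a1 p), fun p h => a2 p (by simpa using h), ?_⟩
    rw [Finsupp.sum_neg_index (by simp)]
    simp only [mul_neg, Finsupp.sum, Finset.sum_neg_distrib, ← neg_sub'] at a3 ⊢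
    exact neg_mem a3

theorem T_of_L {N : ℕ} {x : R F[X]} (hx : x ∈ L F N) : x ∈ T F N :=
  ⟨0, fun _ => zero_mem _, by simp, by simpa⟩

theorem T_single {N : ℕ} {x : R F[X]} (hx : x ∈ L F N) (p : Irr F) (hp : p.1.natDegree = N) :
    c F[X] p.1 * x ∈ T F N := by
  classical
  refine ⟨Finsupp.single p x, fun q => ?_, fun q h => ?_, by simp⟩
  · rw [Finsupp.single_apply]; split_ifs; exacts [hx, zero_mem _]
  · rw [Finsupp.single_apply] at h
    split_ifs at h with k
    exacts [k ▸ hp, (h rfl).elim]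

theorem T_mul {N : ℕ} {y : R F[X]} (h1 : ∀ x ∈ L F N, y * x ∈ T F N)
    (h2 : ∀ x ∈ L F N, ∀ p : Irr F, p.1.natDegree = N → y * (c F[X] p.1 * x) ∈ T F N)
    {x : R F[X]} (hx : x ∈ T F N) : y * x ∈ T F N := by
  obtain ⟨a, a1, a2, a3⟩ := hx
  have := add_mem (h1 _ a3) (sum_mem (t := a.support) fun p hp =>
    h2 _ (a1 p) p (a2 p (Finsupp.mem_support_iff.1 hp)))
  rwa [← Finset.mul_sum, ← mul_add, Finsupp.sum, sub_add_cancel] at this

theorem L_succ_le {N : ℕ} (hN : 0 < N) {x : R F[X]} (hx : x ∈ L F (N + 1)) : x ∈ T F N := by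
  have low : ∀ y ∈ L F N, ∀ x ∈ T F N, y * x ∈ T F N := fun y hy x hx =>
    T_mul (fun x hx => T_of_L (mul_mem hy hx))
      (fun x hx p hp => by rw [mul_left_comm]; exact T_single (mul_mem hy hx) p hp) hx
  have irr : ∀ q : Irr F, q.1.natDegree = N → ∀ x ∈ T F N, c F[X] q.1 * x ∈ T F N :=
    fun q hq x hx => T_mul (fun x hx => T_single hx q hq) (fun x hx p hp => by
      by_cases e : p = q
      · rw [e, ← mul_assoc, c_sq q.2.1.ne_zero, one_mul]; exact T_of_L hx
      have r0 : p.1 + -q.1 ≠ 0 := fun k => e (Subtype.ext (by linear_combination k))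
      have rd : (p.1 + -q.1).natDegree < N := by
        rw [← sub_eq_add_neg, ← hp]
        refine natDegree_lt_natDegree (by rwa [sub_eq_add_neg]) (degree_sub_lt_left ?_ p.2.1.ne_zero ?_)
        · rw [degree_eq_natDegree p.2.1.ne_zero, degree_eq_natDegree q.2.1.ne_zero, hp, hq]
        · rw [p.2.2.leadingCoeff, q.2.2.leadingCoeff]
      have k := c_add p.1 (-q.1)
      have k1 := c_sq r0
      have m := mul_mem (c_mem rd) hx
      rw [c_neg] at k
      set r := c F[X] (p.1 + -q.1)
      have : c F[X] q.1 * (c F[X] p.1 * x) = x - c F[X] p.1 * (r * x) + c F[X] q.1 * (r * x) := by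
        linear_combination r * x * k + (1 - c F[X] p.1 * c F[X] q.1) * x * k1
      rw [this]
      exact add_mem (sub_mem (T_of_L hx) (T_single m p hp)) (T_single m q hq)) hx
  have key : ∀ y ∈ T F N, x * y ∈ T F N := by
    induction hx using Subring.closure_induction with
    | mem x hx =>
      obtain ⟨g, hg, rfl⟩ := hx
      by_cases hg' : g.natDegree < N
      · exact low _ (c_mem hg')
      have g0 : g ≠ 0 := by rintro rfl; exact hg' (by simpa using hN)
      obtain ⟨q, hq, hq', w, rfl⟩ := exists_monic_irreducible_factor g fun h =>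
        hg' (by rw [natDegree_eq_zero_of_isUnit h]; exact hN)
      rw [natDegree_mul (left_ne_zero_of_mul g0) (right_ne_zero_of_mul g0)] at hg hg'
      have := hq'.natDegree_pos
      intro y hy
      rw [map_mul, mul_assoc]
      have hw := low _ (c_mem (g := w) (by omega)) y hy
      by_cases e : q.natDegree = N
      · exact irr ⟨q, hq', hq⟩ e _ hw
      · exact low _ (c_mem (by omega)) _ hw
    | zero => simp
    | one => simp
    | add _ _ _ _ a b => intro y hy; rw [add_mul]; exact add_mem (a y hy) (b y hy)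
    | neg _ _ a => intro y hy; rw [neg_mul]; exact neg_mem (a y hy)
    | mul _ _ _ _ a b => intro y hy; rw [mul_assoc]; exact a _ (b y hy)
  simpa using key 1 (T_of_L (one_mem _))

theorem L_of_res {x : R F[X]} (h : ∀ q : Irr F, q.pl.dp x = 0) : x ∈ L F 1 := by
  obtain ⟨N, hN⟩ : ∃ N, x ∈ L F (N + 1) := by
    clear h
    induction x using induction_on with
    | h1 a => exact ⟨_, c_mem (Nat.lt_succ_self _)⟩
    | hadd x y hx hy =>
      obtain ⟨M, hM⟩ := hx
      obtain ⟨N, hN⟩ := hy
      exact ⟨M + N, add_mem (L_mono (by omega) hM) (L_mono (by omega) hN)⟩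
  induction N with
  | zero => exact hN
  | succ N ih =>
    refine ih ?_
    obtain ⟨a, a1, a2, a3⟩ := L_succ_le N.succ_pos hN
    have : a.sum (fun p y => c F[X] p.1 * y) ∈ L F (N + 1) := sum_mem fun q hq => by
      have hq := a2 q (Finsupp.mem_support_iff.1 hq)
      have k := dp_L a3 q hq.ge
      rw [map_sub, h, zero_sub, neg_eq_zero, Finsupp.sum, map_sum, Finset.sum_eq_single q] at k
      · rw [mul_comm, q.pl.dp_mul_of (dp_L (a1 q) q hq.ge)] at k
        have e : q.pl.dp (c F[X] q.1) = 1 := q.pl.dp_p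
        rw [e, mul_one] at k
        have := mul_mem_of_sp q (by rw [hq]; exact a1 q) k
        rwa [hq] at this
      · intro p _ hp
        rw [q.pl.dp_mul_of (q.pl.dp_c (q.ne_of_ne hp.symm)), dp_L (a1 p) q hq.ge, mul_zero]
      · intro hp
        simp [Finsupp.notMem_support_iff.1 hp]
    simpa using add_mem a3 this

theorem zero_of_res {m : ℕ} (hF : J F ^ m = ⊥) {x : R F[X]} (hx : x ∈ J F[X] ^ m)
    (h : ∀ q : Irr F, q.pl.dp x = 0) : x = 0 := by
  let P : Pl F[X] F := ⟨constantCoeff, X, X_ne_zero, fun a => X_dvd_iff.symm⟩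
  have key : ∀ x ∈ L F 1, map C C_injective (P.sp x) = x := fun x hx => by
    induction hx using Subring.closure_induction with
    | mem x hx =>
      obtain ⟨g, hg, rfl⟩ := hx
      obtain ⟨a, rfl⟩ := natDegree_eq_zero.1 (Nat.lt_one_iff.1 hg)
      by_cases a0 : a = 0
      · simp [a0, c_zero]
      · rw [P.sp_c (by simpa [P] using a0), map_c]
        simp [P]
    | zero => simp
    | one => simp
    | add _ _ _ _ a b => rw [map_add, map_add, a, b]
    | neg _ _ a => rw [map_neg, map_neg, a]
    | mul _ _ _ _ a b => rw [map_mul, map_mul, a, b]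
  have z := (P.res_mem hx).1
  rw [hF, Ideal.mem_bot] at z
  rw [← key x (L_of_res h), z, map_zero]

theorem res_finite (x : R F[X]) : {q : Irr F | q.pl.dp x ≠ 0}.Finite := by
  classical
  induction x using induction_on with
  | h1 a =>
    by_cases a0 : a = 0
    · simp [a0, c_zero]
    refine Set.Finite.of_finite_image (f := Subtype.val) ?_ Subtype.val_injective.injOn
    refine (UniqueFactorizationMonoid.normalizedFactors a).finite_toSet.subset ?_
    rintro _ ⟨q, hq, rfl⟩
    exact (Polynomial.mem_normalizedFactors_iff a0).2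
      ⟨q.2.1, q.2.2, (q.pl.hp a).1 (of_not_not fun k => hq (q.pl.dp_c k))⟩
  | hadd x y hx hy =>
    refine (hx.union hy).subset fun q hq => ?_
    by_contra k
    simp only [Set.mem_union, Set.mem_ofPred_eq, not_or, not_not] at k
    exact hq (by rw [map_add, k.1, k.2, add_zero])

end Pool.Agent.Lib.MP_887a05_al.L3
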