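import Pool.Agent.Lib.MP_887a05_al.L3Link

/-! Specialisation and second residue maps at a prime element with given residue map. -/

namespace Pool.Agent.Lib.MP_887a05_al.L3

universe u

/-- A ring map to a field whose kernel is generated by a nonzero element. -/
structure Pl (D k : Type u) [CommRing D] [Field k] where
  π : D →+* k
  p : D
  p0 : p ≠ 0
  hp : ∀ a, π a = 0 ↔ p ∣ a

namespace Pl

variable {D k : Type u} [CommRing D] [IsDomain D] [WfDvdMonoid D] [Field k] (P : Pl D k)

omit [IsDomain D] in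
theorem dec {a : D} (ha : a ≠ 0) : ∃ (n : ℕ) (b : D), P.π b ≠ 0 ∧ a = P.p ^ n * b := by
  obtain ⟨n, b, h, e⟩ := WfDvdMonoid.max_power_factor' (x := P.p) ha fun h =>
    one_ne_zero ((map_one P.π).symm.trans ((P.hp 1).2 h.dvd))
  exact ⟨n, b, fun k => h ((P.hp b).1 k), e⟩

omit [IsDomain D] [WfDvdMonoid D] in
theorem πp : P.π P.p = 0 := (P.hp _).2 dvd_rfl

omit [WfDvdMonoid D] in
theorem uniq {n m : ℕ} {a b : D} (ha : P.π a ≠ 0) (hb : P.π b ≠ 0)
    (e : P.p ^ n * a = P.p ^ m * b) : n = m ∧ a = b := by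
  wlog h : n ≤ m generalizing n m a b
  · exact (this hb ha e.symm (le_of_not_ge h)).imp Eq.symm Eq.symm
  obtain ⟨j, rfl⟩ := Nat.exists_eq_add_of_le h
  rw [pow_add, mul_assoc] at e
  have e' := mul_left_cancel₀ (pow_ne_zero n P.p0) e
  obtain _ | j := j
  · simpa using e'
  · exact (ha (by rw [e', pow_succ]; simp [P.πp])).elim

/-- The target ring. -/
abbrev B (k : Type u) [Field k] := QuadraticAlgebra (R k) 1 0

/-- The generator. -/
noncomputable def τ (k : Type u) [Field k] : B k := ⟨0, 1⟩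

theorem τ_sq : τ k * τ k = 1 := by ext <;> simp [τ, QuadraticAlgebra.re_one, QuadraticAlgebra.im_one]

open Classical in
/-- The symbol of an element. -/
noncomputable def S0 (a : D) : B k :=
  if h : a = 0 then 0 else τ k ^ (P.dec h).choose * algebraMap _ _ (c k (P.π (P.dec h).choose_spec.choose))

omit [IsDomain D] in
theorem S0_zero : P.S0 0 = 0 := by simp [S0]

theorem S0_eq (n : ℕ) {b : D} (hb : P.π b ≠ 0) :
    P.S0 (P.p ^ n * b) = τ k ^ n * algebraMap _ _ (c k (P.π b)) := by
  have h : P.p ^ n * b ≠ 0 := mul_ne_zero (pow_ne_zero n P.p0) (by rintro rfl; simp at hb)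
  obtain ⟨k1, k2⟩ := (P.dec h).choose_spec.choose_spec
  obtain ⟨e1, e2⟩ := P.uniq hb k1 k2
  rw [S0, dif_neg h, ← e2, ← e1]

theorem S0_unit {b : D} (hb : P.π b ≠ 0) : P.S0 b = algebraMap _ _ (c k (P.π b)) := by
  simpa using P.S0_eq 0 hb

/-- The symbol as a monoid map. -/
noncomputable def S1 : D →* B k where
  toFun := P.S0
  map_one' := by simpa using P.S0_unit (b := 1) (by simp)
  map_mul' a b := by
    by_cases ha' : a = 0
    · simp [ha', S0_zero]
    by_cases hb' : b = 0
    · simp [hb', S0_zero]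
    obtain ⟨n, a, ha, rfl⟩ := P.dec ha'
    obtain ⟨m, b, hb, rfl⟩ := P.dec hb'
    rw [P.S0_eq n ha, P.S0_eq m hb, show P.p ^ n * a * (P.p ^ m * b) = P.p ^ (n + m) * (a * b) by ring,
      P.S0_eq _ (by simp [ha, hb])]
    simp only [map_mul]
    ring

theorem S1_apply (a : D) : P.S1 a = P.S0 a := rfl

theorem S1_sym : IsSym P.S1 := by
  have sq : ∀ a, a ≠ 0 → P.S1 a * P.S1 a = 1 := fun a ha' => by
    obtain ⟨n, a, ha, rfl⟩ := P.dec ha'
    rw [S1_apply, P.S0_eq n ha, mul_mul_mul_comm, ← mul_pow, τ_sq, ← map_mul, c_sq ha]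
    simp
  have neg : P.S1 (-1) = -1 := by
    rw [S1_apply, P.S0_unit (by simp)]; simp [c_neg]
  refine ⟨P.S0_zero, neg, sq, fun a b => ?_⟩
  by_cases ha' : a = 0
  · simp [ha', S1_apply, S0_zero]
  by_cases hb' : b = 0
  · simp [hb', S1_apply, S0_zero]
  obtain ⟨n, a, ha, rfl⟩ := P.dec ha'
  obtain ⟨m, b, hb, rfl⟩ := P.dec hb'
  clear ha' hb'
  wlog h : n ≤ m generalizing n m a b
  · have := this m b hb n a ha (le_of_not_ge h)
    rw [add_comm, this, add_comm (P.p ^ m * b), mul_comm (P.S1 (P.p ^ m * b))]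
  obtain ⟨j, rfl⟩ := Nat.exists_eq_add_of_le h
  have key : P.S1 a + P.S1 (P.p ^ j * b) =
      P.S1 (a + P.p ^ j * b) * (1 + P.S1 a * P.S1 (P.p ^ j * b)) := by
    have a0 : a ≠ 0 := by rintro rfl; simp at ha
    obtain _ | j := j
    · rw [pow_zero, one_mul]
      by_cases hab : P.π (a + b) = 0
      · have e : P.π b = - P.π a := by rw [map_add] at hab; linear_combination hab
        have e' : P.S1 b = - P.S1 a := by
          rw [S1_apply, S1_apply, P.S0_unit ha, P.S0_unit hb, e, c_neg, map_neg]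
        rw [e']
        linear_combination P.S1 (a + b) * sq a a0
      · simp only [S1_apply]
        rw [P.S0_unit ha, P.S0_unit hb, P.S0_unit hab, ← map_add, c_add]
        simp
    · have e : P.π (a + P.p ^ (j + 1) * b) = P.π a := by simp [pow_succ, P.πp]
      have e' : P.S1 (a + P.p ^ (j + 1) * b) = P.S1 a := by
        rw [S1_apply, S1_apply, P.S0_unit ha, P.S0_unit (e ▸ ha), e]
      rw [e']
      linear_combination - P.S1 (P.p ^ (j + 1) * b) * sq a a0
  rw [pow_add, mul_assoc, ← mul_add, map_mul, map_mul, map_mul _ (P.p ^ n)]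
  have t := sq _ (pow_ne_zero n P.p0)
  linear_combination P.S1 (P.p ^ n) * key -
    P.S1 (P.p ^ n) * P.S1 (a + P.p ^ j * b) * P.S1 a * P.S1 (P.p ^ j * b) * t

/-- The combined residue map. -/
noncomputable def S : R D →+* B k := lift _ P.S1_sym

/-- The specialisation map. -/
noncomputable def sp : R D →+* R k where
  toFun x := (P.S x).re + (P.S x).im
  map_one' := by simp [QuadraticAlgebra.re_one, QuadraticAlgebra.im_one]
  map_mul' x y := by simp; ring
  map_zero' := by simp
  map_add' x y := by simp; ring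

/-- The second residue map. -/
noncomputable def dp : R D →+ R k where
  toFun x := (P.S x).im
  map_zero' := by simp
  map_add' x y := by simp

theorem dp_mul (x y : R D) :
    P.dp (x * y) = P.sp x * P.dp y + P.dp x * P.sp y - 2 * P.dp x * P.dp y := by
  change (P.S (x * y)).im = ((P.S x).re + (P.S x).im) * (P.S y).im +
    (P.S x).im * ((P.S y).re + (P.S y).im) - 2 * (P.S x).im * (P.S y).im
  simp
  ring

theorem sp_c' (n : ℕ) {b : D} (hb : P.π b ≠ 0) : P.sp (c D (P.p ^ n * b)) = c k (P.π b) := by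
  have : P.sp (c D P.p) = 1 := by
    change (P.S _).re + (P.S _).im = _
    have := P.S0_eq 1 (b := 1) (by simp)
    rw [S, lift_c, S1_apply]
    simp only [pow_one, mul_one, map_one] at this
    simp [this, τ]
  rw [map_mul, map_mul, map_pow, map_pow, this, one_pow, one_mul]
  change (P.S _).re + (P.S _).im = _
  rw [S, lift_c, S1_apply, P.S0_unit hb]
  simp

theorem sp_c {b : D} (hb : P.π b ≠ 0) : P.sp (c D b) = c k (P.π b) := by simpa using P.sp_c' 0 hb

theorem dp_c {b : D} (hb : P.π b ≠ 0) : P.dp (c D b) = 0 := by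
  change (P.S _).im = _
  rw [S, lift_c, S1_apply, P.S0_unit hb]
  simp

theorem dp_one : P.dp 1 = 0 := by simpa using P.dp_c (b := 1) (by simp)

theorem dp_p : P.dp (c D P.p) = 1 := by
  change (P.S _).im = _
  have := P.S0_eq 1 (b := 1) (by simp)
  rw [S, lift_c, S1_apply]
  simp only [pow_one, mul_one, map_one] at this
  simp [this, τ]

theorem dp_mul_of {x : R D} (hx : P.dp x = 0) (y : R D) : P.dp (x * y) = P.sp x * P.dp y := by
  rw [dp_mul, hx]; ring

theorem dp_pf {l : List D} (hl : ∀ a ∈ l, P.π a ≠ 0) : P.dp (pf l) = 0 := by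
  induction l with
  | nil => exact P.dp_one
  | cons a l ih =>
    rw [pf_cons, P.dp_mul_of (by rw [map_sub, dp_one, P.dp_c (hl a (by simp)), sub_zero]),
      ih fun b hb => hl b (by simp [hb]), mul_zero]

theorem sp_pf {l : List D} (hl : ∀ a ∈ l, P.π a ≠ 0) : P.sp (pf l) = pf (l.map P.π) :=
  hom_pf _ _ fun a ha => P.sp_c (hl a ha)

theorem res_mem {m : ℕ} {x : R D} (hx : x ∈ J D ^ m) :
    P.sp x ∈ J k ^ m ∧ P.dp x ∈ J k ^ (m - 1) := by
  have two : (2 : R k) ∈ J k := by
    have := one_sub_mem (D := k) (a := -1) (by simp)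
    rwa [c_neg, map_one, sub_neg_eq_add, one_add_one_eq_two] at this
  have gen : ∀ l : List D, (∀ a ∈ l, a ≠ 0) →
      P.sp (pf l) ∈ J k ^ l.length ∧ P.dp (pf l) ∈ J k ^ (l.length - 1) ∧
        2 * P.dp (pf l) ∈ J k ^ l.length := fun l hl => by
    induction l with
    | nil => simp
    | cons a l ih =>
      obtain ⟨i1, i2, i3⟩ := ih fun b hb => hl b (by simp [hb])
      have ha : P.sp (1 - c D a) ∈ J k := by
        obtain ⟨n, b, hb, rfl⟩ := P.dec (hl a (by simp))
        rw [map_sub, map_one, P.sp_c' n hb]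
        exact one_sub_mem hb
      have e : P.dp (pf (a :: l)) ∈ J k ^ l.length := by
        rw [pf_cons, dp_mul]
        refine sub_mem (add_mem ?_ (Ideal.mul_mem_left _ _ i1)) ?_
        · obtain _ | ⟨a', l⟩ := l
          · simp
          · rw [List.length_cons, pow_succ']
            exact Ideal.mul_mem_mul ha i2
        · rw [mul_right_comm]; exact Ideal.mul_mem_right _ _ i3
      refine ⟨?_, e, ?_⟩ <;> rw [List.length_cons, pow_succ']
      · rw [pf_cons, map_mul]; exact Ideal.mul_mem_mul ha i1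
      · exact Ideal.mul_mem_mul two e
  refine pow_induction (p := fun x => P.sp x ∈ J k ^ m ∧ P.dp x ∈ J k ^ (m - 1)) hx
    (fun u l hl hl' => ?_) fun x y hx hy => by
      rw [map_add, map_add]; exact ⟨add_mem hx.1 hy.1, add_mem hx.2 hy.2⟩
  obtain ⟨i1, i2, i3⟩ := gen l hl'
  rw [hl] at i1 i2 i3
  have le : J k ^ m ≤ J k ^ (m - 1) := Ideal.pow_le_pow_right (Nat.sub_le _ _)
  rw [map_mul, dp_mul]
  refine ⟨Ideal.mul_mem_left _ _ i1, sub_mem (add_mem (Ideal.mul_mem_left _ _ i2)
    (Ideal.mul_mem_left _ _ (le i1))) (Ideal.mul_mem_left _ _ i2)⟩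

end Pl

end Pool.Agent.Lib.MP_887a05_al.L3
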