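import Pool.Agent.Lib.MP_887a05_al.FSWitt

/-!
The universal ring of quadratic symbols of a commutative ring `D` (for a field it is the Witt ring),
Pfister elements, their roundness and the pure subform theorem.
-/

namespace Pool.Agent.Lib.MP_887a05_al.L3

universe u

/-- The relations between one-dimensional forms. -/
structure IsSym {D A : Type*} [CommRing D] [CommRing A] (f : D →* A) : Prop where
  zero : f 0 = 0
  neg : f (-1) = -1
  sq : ∀ a, a ≠ 0 → f a * f a = 1
  add : ∀ a b, f a + f b = f (a + b) * (1 + f a * f b)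

section Def

variable (D : Type u) [CommRing D]

open MonoidAlgebra in
/-- The ideal of relations. -/
noncomputable def rel : Ideal (MonoidAlgebra ℤ D) := Ideal.span
  ({x | x = of ℤ D 0 ∨ x = of ℤ D (-1) + 1 ∨ (∃ a, a ≠ 0 ∧ x = of ℤ D a * of ℤ D a - 1) ∨
    ∃ a b, x = of ℤ D a + of ℤ D b - of ℤ D (a + b) * (1 + of ℤ D a * of ℤ D b)})

/-- The universal ring of symbols. -/
def R : Type u := MonoidAlgebra ℤ D ⧸ rel D

noncomputable instance : CommRing (R D) := inferInstanceAs (CommRing (MonoidAlgebra ℤ D ⧸ rel D))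

/-- The quotient map. -/
noncomputable def mk : MonoidAlgebra ℤ D →+* R D := Ideal.Quotient.mk (rel D)

/-- The universal symbol. -/
noncomputable def c : D →* R D := (mk D).toMonoidHom.comp (MonoidAlgebra.of ℤ D)

/-- The fundamental ideal. -/
noncomputable def J : Ideal (R D) := Ideal.span {x | ∃ a : D, a ≠ 0 ∧ x = 1 - c D a}

end Def

variable {D : Type u} [CommRing D]

theorem c_eq (a : D) : c D a = mk D (MonoidAlgebra.of ℤ D a) := rfl

theorem mk_rel {x : MonoidAlgebra ℤ D} (h : x ∈ rel D) : mk D x = 0 :=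
  Ideal.Quotient.eq_zero_iff_mem.2 h

theorem c_sym : IsSym (c D) where
  zero := mk_rel (Ideal.subset_span (.inl rfl))
  neg := by
    have := mk_rel (D := D) (Ideal.subset_span (.inr (.inl rfl)))
    rw [map_add, map_one, ← c_eq] at this
    linear_combination this
  sq a ha := by
    have := mk_rel (D := D) (Ideal.subset_span (.inr (.inr (.inl ⟨a, ha, rfl⟩))))
    rw [map_sub, map_mul, map_one, ← c_eq] at this
    linear_combination this
  add a b := by
    have := mk_rel (D := D) (Ideal.subset_span (.inr (.inr (.inr ⟨a, b, rfl⟩))))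
    simp only [map_sub, map_mul, map_one, map_add, ← c_eq] at this
    linear_combination this

/-- The universal property. -/
noncomputable def lift {A : Type*} [CommRing A] (f : D →* A) (hf : IsSym f) : R D →+* A :=
  Ideal.Quotient.lift (rel D) (MonoidAlgebra.lift ℤ A D f).toRingHom fun x hx => by
    have : rel D ≤ RingHom.ker (MonoidAlgebra.lift ℤ A D f).toRingHom := by
      refine Ideal.span_le.2 ?_
      rintro _ (rfl | rfl | ⟨a, ha, rfl⟩ | ⟨a, b, rfl⟩) <;>
        simp only [SetLike.mem_coe, RingHom.mem_ker, AlgHom.toRingHom_eq_coe, RingHom.coe_coe,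
          map_add, map_sub, map_mul, map_one, MonoidAlgebra.lift_of]
      · exact hf.zero
      · rw [hf.neg]; ring
      · rw [hf.sq a ha]; ring
      · rw [hf.add a b]; ring
    exact this hx

theorem lift_c {A : Type*} [CommRing A] (f : D →* A) (hf : IsSym f) (a : D) :
    lift f hf (c D a) = f a := by
  change (MonoidAlgebra.lift ℤ A D f).toRingHom (MonoidAlgebra.of ℤ D a) = _
  simp

theorem c_zero : c D 0 = 0 := c_sym.zero

theorem c_neg (a : D) : c D (-a) = - c D a := by
  rw [← neg_one_mul a, map_mul, c_sym.neg, neg_one_mul]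

theorem c_sq {a : D} (ha : a ≠ 0) : c D a * c D a = 1 := c_sym.sq a ha

theorem c_add (a b : D) : c D a + c D b = c D (a + b) * (1 + c D a * c D b) := c_sym.add a b

theorem induction_on {p : R D → Prop} (x : R D) (h1 : ∀ a, p (c D a))
    (hadd : ∀ x y, p x → p y → p (x + y)) : p x := by
  have h0 : p 0 := c_zero (D := D) ▸ h1 0
  obtain ⟨z, rfl⟩ : ∃ z, mk D z = x := Ideal.Quotient.mk_surjective x
  induction z using MonoidAlgebra.induction_linear with
  | zero => simpa using h0
  | add f g hf hg => rw [map_add]; exact hadd _ _ hf hg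
  | single a n =>
    have e : MonoidAlgebra.single a n = n • MonoidAlgebra.of ℤ D a := by simp
    rw [e, map_zsmul, ← c_eq]
    have k : ∀ (m : ℕ) (b : D), p (m • c D b) := fun m b => by
      induction m with
      | zero => simpa using h0
      | succ m ih => rw [succ_nsmul]; exact hadd _ _ ih (h1 b)
    obtain ⟨m, rfl | rfl⟩ := n.eq_nat_or_neg
    · simpa using k m a
    · have := k m (-a)
      rw [c_neg] at this
      simpa using this

theorem steinberg (a b : D) :
    (1 - c D a) * (1 - c D b) = (1 - c D (a + b)) * (1 + c D a * c D b) := by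
  linear_combination - c_add a b

/-- The Pfister element with slots `l`. -/
noncomputable def pf (l : List D) : R D := (l.map fun a => 1 - c D a).prod

@[simp] theorem pf_nil : pf ([] : List D) = 1 := rfl

theorem pf_cons (a : D) (l : List D) : pf (a :: l) = (1 - c D a) * pf l := by simp [pf]

theorem one_sub_mem {a : D} (ha : a ≠ 0) : 1 - c D a ∈ J D := Ideal.subset_span ⟨a, ha, rfl⟩

theorem pf_mem {l : List D} (hl : ∀ a ∈ l, a ≠ 0) : pf l ∈ J D ^ l.length := by
  induction l with
  | nil => simp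
  | cons a l ih =>
    rw [pf_cons, List.length_cons, pow_succ']
    exact Ideal.mul_mem_mul (one_sub_mem (hl a (by simp))) (ih fun b hb => hl b (by simp [hb]))

theorem pow_induction [Nontrivial D] {m : ℕ} {p : R D → Prop} {x : R D} (hx : x ∈ J D ^ m)
    (h1 : ∀ (u : D) (l : List D), l.length = m → (∀ a ∈ l, a ≠ 0) → p (c D u * pf l))
    (hadd : ∀ x y, p x → p y → p (x + y)) : p x := by
  have h0 : p 0 := by simpa [c_zero] using h1 0 (List.replicate m 1) (by simp) (by simp)
  have : J D ^ m ≤ Ideal.span {x | ∃ l : List D, l.length = m ∧ (∀ a ∈ l, a ≠ 0) ∧ x = pf l} := by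
    clear hx h1 h0
    induction m with
    | zero =>
      refine le_top.trans ((Ideal.eq_top_iff_one _).2 (Ideal.subset_span ?_)).ge
      exact ⟨[], rfl, by simp, rfl⟩
    | succ m ih =>
      rw [pow_succ']
      refine (Ideal.mul_mono le_rfl ih).trans ?_
      rw [J, Ideal.span_mul_span', Ideal.span_le]
      rintro _ ⟨_, ⟨a, ha, rfl⟩, _, ⟨l, hl, hl', rfl⟩, rfl⟩
      exact Ideal.subset_span ⟨a :: l, by simp [hl], by simpa [ha] using hl', (pf_cons a l).symm⟩
  have key : ∀ r, p (r * x) := by
    refine Submodule.span_induction (p := fun x _ => ∀ r, p (r * x)) ?_ ?_ ?_ ?_ (this hx)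
    · rintro _ ⟨l, hl, hl', rfl⟩ r
      induction r using induction_on with
      | h1 a => exact h1 a l hl hl'
      | hadd x y hx hy => rw [add_mul]; exact hadd _ _ hx hy
    · simpa using h0
    · intro x y _ _ hx hy r
      rw [mul_add]; exact hadd _ _ (hx r) (hy r)
    · intro s x _ hx r
      rw [smul_eq_mul, ← mul_assoc]; exact hx _
  simpa using key 1

/-- Values of the pure part of the Pfister form with slots `l`. -/
def PV : List D → D → Prop
  | [], y => y = 0
  | a :: l, y => ∃ y₁ x y₂, PV l y₁ ∧ PV l y₂ ∧ y = y₁ - a * (x ^ 2 + y₂)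

theorem PV.zero (l : List D) : PV l 0 := by
  induction l with
  | nil => rfl
  | cons a l ih => exact ⟨0, 0, 0, ih, ih, by ring⟩

theorem PV.smul {l : List D} {y : D} (h : PV l y) (s : D) : PV l (s ^ 2 * y) := by
  induction l generalizing y with
  | nil => obtain rfl := h; exact mul_zero _
  | cons a l ih =>
    obtain ⟨y₁, x, y₂, h1, h2, rfl⟩ := h
    exact ⟨_, s * x, _, ih h1, ih h2, by ring⟩

theorem PV.map {D' : Type u} [CommRing D'] (f : D →+* D') {l : List D} {y : D} (h : PV l y) :
    PV (l.map f) (f y) := by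
  induction l generalizing y with
  | nil => obtain rfl := h; exact map_zero f
  | cons a l ih =>
    obtain ⟨y₁, x, y₂, h1, h2, rfl⟩ := h
    exact ⟨_, f x, _, ih h1, ih h2, by simp⟩

theorem round {l : List D} (hl : ∀ a ∈ l, a ≠ 0) {x y : D} (h : PV l y) (h0 : x ^ 2 + y ≠ 0) :
    c D (x ^ 2 + y) * pf l = pf l := by
  induction l generalizing x y with
  | nil =>
    obtain rfl := h
    rw [add_zero, sq, map_mul, c_sq (by rintro rfl; simp at h0), one_mul]
  | cons a l ih =>
    obtain ⟨y₁, z, y₂, h1, h2, rfl⟩ := h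
    have ih := fun {x y} => @ih (fun b hb => hl b (by simp [hb])) x y
    have ha := c_sq (hl a (by simp))
    rw [pf_cons]
    have e : x ^ 2 + (y₁ - a * (z ^ 2 + y₂)) = (x ^ 2 + y₁) + -(a * (z ^ 2 + y₂)) := by ring
    rw [e]
    by_cases hv : z ^ 2 + y₂ = 0
    · rw [e, hv, mul_zero, neg_zero, add_zero] at h0
      rw [hv, mul_zero, neg_zero, add_zero]
      linear_combination (1 - c D a) * ih h1 h0
    have i2 := ih h2 hv
    by_cases hu : x ^ 2 + y₁ = 0
    · rw [hu, zero_add, c_neg, map_mul]
      linear_combination (c D a * c D a - c D a) * i2 + pf l * ha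
    have i1 := ih h1 hu
    have k := c_add (x ^ 2 + y₁) (-(a * (z ^ 2 + y₂)))
    rw [c_neg, map_mul] at k
    set w := c D (x ^ 2 + y₁ + -(a * (z ^ 2 + y₂)))
    linear_combination -pf l * k + (1 + w * c D a * c D (z ^ 2 + y₂)) * i1 + (w - 1) * c D a * i2

theorem slot [IsDomain D] {l : List D} (hl : ∀ a ∈ l, a ≠ 0) {y : D} (h : PV l y) (h0 : y ≠ 0) :
    ∃ ψ ∈ J D ^ (l.length - 1), pf l = (1 - c D (-y)) * ψ := by
  induction l generalizing y with
  | nil => exact (h0 h).elim
  | cons a l ih =>
    obtain ⟨y₁, z, y₂, h1, h2, rfl⟩ := h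
    have hl' : ∀ b ∈ l, b ≠ 0 := fun b hb => hl b (by simp [hb])
    have ha := hl a (by simp)
    have up : ∀ {b : D} {ψ : R D}, y₁ ≠ 0 → b ≠ 0 → ψ ∈ J D ^ (l.length - 1) →
        (1 - c D b) * ψ ∈ J D ^ l.length := fun {b ψ} k hb hψ => by
      obtain _ | ⟨a', l⟩ := l
      · exact (k h1).elim
      · rw [List.length_cons, pow_succ']
        exact Ideal.mul_mem_mul (one_sub_mem hb) hψ
    rw [pf_cons, List.length_cons, Nat.add_sub_cancel]
    by_cases hv : z ^ 2 + y₂ = 0
    · rw [hv, mul_zero, sub_zero] at h0 ⊢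
      obtain ⟨ψ, hψ, e⟩ := ih hl' h1 h0
      exact ⟨_, up h0 ha hψ, by rw [e]; ring⟩
    have i2 := round hl' h2 hv
    by_cases hu : y₁ = 0
    · refine ⟨pf l, pf_mem hl', ?_⟩
      rw [hu, zero_sub, neg_neg, map_mul]
      linear_combination c D a * i2
    obtain ⟨ψ, hψ, e⟩ := ih hl' h1 hu
    have e' : -(y₁ - a * (z ^ 2 + y₂)) = a * (z ^ 2 + y₂) + -y₁ := by ring
    have k := steinberg (a * (z ^ 2 + y₂)) (-y₁)
    refine ⟨_, up (b := a * (z ^ 2 + y₂) * y₁) hu (mul_ne_zero (mul_ne_zero ha hv) hu) hψ, ?_⟩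
    rw [e']
    rw [c_neg] at k e
    rw [map_mul (c D) _ y₁]
    rw [map_mul (c D) a] at k ⊢
    rw [e] at i2 ⊢
    linear_combination ψ * k + c D a * i2

/-- Functoriality for injective maps. -/
noncomputable def map {D' : Type u} [CommRing D'] (f : D →+* D') (hf : Function.Injective f) :
    R D →+* R D' :=
  lift ((c D').comp f.toMonoidHom)
    ⟨by simp [c_zero], by simp [c_neg],
      fun a ha => c_sq (D := D') ((map_ne_zero_iff f hf).2 ha), fun a b => by simpa using c_add _ _⟩

theorem map_c {D' : Type u} [CommRing D'] (f : D →+* D') (hf : Function.Injective f) (a : D) :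
    map f hf (c D a) = c D' (f a) := lift_c _ _ a

theorem hom_pf {D' : Type u} [CommRing D'] (g : R D →+* R D') (f : D → D') {l : List D}
    (h : ∀ a ∈ l, g (c D a) = c D' (f a)) : g (pf l) = pf (l.map f) := by
  induction l with
  | nil => simp
  | cons a l ih =>
    rw [List.map_cons, pf_cons, pf_cons, map_mul, map_sub, map_one, h a (by simp),
      ih fun b hb => h b (by simp [hb])]

theorem dvd_or {k : Type u} [Field k] (π : D →+* k) {p : D} (hp : ∀ a, π a = 0 ↔ p ∣ a)
    {l : List D} (hl : ∀ a ∈ l, π a ≠ 0) {x y : D} (h : PV l y) (h0 : π (x ^ 2 + y) = 0) :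
    pf (l.map π) = 0 ∨ ∃ x' y', PV l y' ∧ x = p * x' ∧ y = p ^ 2 * y' := by
  induction l generalizing x y with
  | nil =>
    obtain rfl := h
    obtain ⟨x', rfl⟩ := (hp x).1 (by simpa using h0)
    exact .inr ⟨x', 0, rfl, rfl, by simp⟩
  | cons a l ih =>
    obtain ⟨y₁, z, y₂, h1, h2, rfl⟩ := h
    have hl' : ∀ b ∈ l, π b ≠ 0 := fun b hb => hl b (by simp [hb])
    have ha := hl a (by simp)
    have e : π (x ^ 2 + y₁) = π a * π (z ^ 2 + y₂) := by
      rw [← map_mul, ← sub_eq_zero, ← map_sub, ← h0]; congr 1; ring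
    rw [List.map_cons, pf_cons]
    by_cases hv : π (z ^ 2 + y₂) = 0
    · rcases ih hl' h1 (by rw [e, hv, mul_zero]) with k | ⟨x', y₁', k1, rfl, rfl⟩
      · exact .inl (by rw [k, mul_zero])
      rcases ih hl' h2 hv with k | ⟨z', y₂', k2, rfl, rfl⟩
      · exact .inl (by rw [k, mul_zero])
      exact .inr ⟨x', _, ⟨_, z', _, k1, k2, rfl⟩, rfl, by ring⟩
    · have hl'' : ∀ b ∈ l.map π, b ≠ 0 := by simpa using hl'
      have i1 := round hl'' (x := π x) (h1.map π) (by
        rw [← map_pow, ← map_add, e]; exact mul_ne_zero ha hv)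
      have i2 := round hl'' (x := π z) (h2.map π) (by rwa [← map_pow, ← map_add])
      rw [← map_pow, ← map_add] at i1 i2
      rw [e, map_mul] at i1
      exact .inl (by linear_combination c k (π a) * i2 - i1)

end Pool.Agent.Lib.MP_887a05_al.L3
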