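import Mathlib

/-!
Elementary calculus with the norm forms `X ^ 2 - y Y ^ 2`.
-/

namespace Pool.Agent.Lib.MP_887a05_al

open Module

universe u

/-- `z` is represented by the form `X ^ 2 - y Y ^ 2`. -/
def Nm {K : Type*} [Field K] (y z : K) : Prop := ∃ X Y : K, z = X ^ 2 - y * Y ^ 2

/-- Every binary form `⟨1, -a⟩` is universal. -/
def Univ (K : Type*) [Field K] : Prop := ∀ a b : K, a ≠ 0 → Nm a b

section basic

variable {K : Type*} [Field K]

lemma Nm.mul {y a b : K} (ha : Nm y a) (hb : Nm y b) : Nm y (a * b) := by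
  obtain ⟨X, Y, rfl⟩ := ha
  obtain ⟨Z, T, rfl⟩ := hb
  exact ⟨X * Z + y * Y * T, X * T + Y * Z, by ring⟩

lemma Nm.sq (y x : K) : Nm y (x ^ 2) := ⟨x, 0, by ring⟩

lemma Nm.zero (y : K) : Nm y 0 := ⟨0, 0, by ring⟩

lemma Nm.of_isSquare {y x : K} (h : IsSquare x) : Nm y x := by
  obtain ⟨s, rfl⟩ := h
  exact ⟨s, 0, by ring⟩

lemma Nm.inv {y a : K} (ha : Nm y a) : Nm y a⁻¹ := by
  rcases eq_or_ne a 0 with rfl | h0
  · simpa using ha
  · have : a⁻¹ = a * (a⁻¹) ^ 2 := by field_simp
    rw [this]; exact ha.mul (Nm.sq _ _)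

lemma Nm.neg_self (y : K) : Nm y (-y) := ⟨0, 1, by ring⟩

lemma Nm.of_mul {y a b : K} (hab : Nm y (a * b)) (hb : Nm y b) (h0 : b ≠ 0) : Nm y a := by
  have : a = a * b * b⁻¹ := by field_simp
  rw [this]; exact hab.mul hb.inv

lemma Nm.of_isSquare_left (h2 : (2 : K) ≠ 0) {y : K} (hy : IsSquare y) (h0 : y ≠ 0) (z : K) :
    Nm y z := by
  obtain ⟨s, rfl⟩ := hy
  have hs : s ≠ 0 := by rintro rfl; simp at h0
  exact ⟨(z + 1) / 2, (z - 1) / (2 * s), by field_simp; ring⟩

lemma Nm.symm (h2 : (2 : K) ≠ 0) {a b : K} (h : Nm a b) (hb : b ≠ 0) : Nm b a := by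
  obtain ⟨X, Y, h⟩ := h
  rcases eq_or_ne Y 0 with rfl | hY
  · exact Nm.of_isSquare_left h2 ⟨X, by rw [h]; ring⟩ hb a
  · exact ⟨X / Y, 1 / Y, by rw [h]; field_simp; ring⟩

lemma Nm.map {L : Type*} [Field L] (φ : L →+* K) {a b : L} (h : Nm a b) : Nm (φ a) (φ b) := by
  obtain ⟨X, Y, rfl⟩ := h
  exact ⟨φ X, φ Y, by simp⟩

/-- The curve lemma. -/
lemma Nm.of_curve (h2 : (2 : K) ≠ 0) {y u B Xa Ya Xc Yc : K} (hy : y ≠ 0) (hB : B ≠ 0)
    (hm : IsSquare (-2 : K))
    (h : (Xa ^ 2 - y * Ya ^ 2) * u ^ 2 + B * u + (Xc ^ 2 - y * Yc ^ 2) = 0)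
    (hT : Nm y (2 * (Xa * Xc - y * Ya * Yc))) (hTB : Nm y (2 * (Xa * Xc - y * Ya * Yc) - B)) :
    Nm y u := by
  have key : u * (2 * (Xa * Xc - y * Ya * Yc) - B) = (Xa * u + Xc) ^ 2 - y * (Ya * u + Yc) ^ 2 := by
    linear_combination -h
  rcases eq_or_ne (2 * (Xa * Xc - y * Ya * Yc) - B) 0 with h0 | h0
  · rw [h0, mul_zero] at key
    rcases eq_or_ne (Ya * u + Yc) 0 with h1 | h1
    · have h3 : Xa * u + Xc = 0 := by
        rw [h1] at key
        exact pow_eq_zero_iff two_ne_zero |>.1 (by linear_combination -key)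
      have h4 : u * ((-2) * (Xa ^ 2 - y * Ya ^ 2)) = 2 * (Xa * Xc - y * Ya * Yc) := by
        linear_combination (-2 * Xa) * h3 + (2 * y * Ya) * h1
      refine Nm.of_mul (b := (-2) * (Xa ^ 2 - y * Ya ^ 2)) (h4 ▸ hT)
        ((Nm.of_isSquare hm).mul ⟨Xa, Ya, rfl⟩) ?_
      intro h5
      rw [h5, mul_zero] at h4
      apply hB
      linear_combination -h0 - h4
    · refine Nm.of_isSquare_left h2 ⟨(Xa * u + Xc) / (Ya * u + Yc), ?_⟩ hy u
      rw [div_mul_div_comm, eq_div_iff (mul_ne_zero h1 h1)]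
      linear_combination key
  · exact Nm.of_mul ⟨_, _, key⟩ hTB h0

end basic

section dep

variable {L K : Type*} [Field L] [Field K] [Algebra L K]

lemma exists_dep4 [Module.Finite L K] (h : finrank L K ≤ 3) (a b c d : K) :
    ∃ c0 c1 c2 c3 : L, (c0 ≠ 0 ∨ c1 ≠ 0 ∨ c2 ≠ 0 ∨ c3 ≠ 0) ∧
      algebraMap L K c0 * a + algebraMap L K c1 * b + algebraMap L K c2 * c +
        algebraMap L K c3 * d = 0 := by
  have hn : ¬ LinearIndependent L ![a, b, c, d] := by
    intro hl
    have := hl.fintype_card_le_finrank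
    simp at this
    omega
  obtain ⟨g, hg, i, hi⟩ := Fintype.not_linearIndependent_iff.1 hn
  refine ⟨g 0, g 1, g 2, g 3, ?_, ?_⟩
  · fin_cases i <;> simp_all
  · simpa [Fin.sum_univ_four, Algebra.smul_def] using hg

lemma exists_dep3 [Module.Finite L K] (h : finrank L K ≤ 2) (a b c : K) :
    ∃ c0 c1 c2 : L, (c0 ≠ 0 ∨ c1 ≠ 0 ∨ c2 ≠ 0) ∧
      algebraMap L K c0 * a + algebraMap L K c1 * b + algebraMap L K c2 * c = 0 := by
  have hn : ¬ LinearIndependent L ![a, b, c] := by
    intro hl
    have := hl.fintype_card_le_finrank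
    simp at this
    omega
  obtain ⟨g, hg, i, hi⟩ := Fintype.not_linearIndependent_iff.1 hn
  refine ⟨g 0, g 1, g 2, ?_, ?_⟩
  · fin_cases i <;> simp_all
  · simpa [Fin.sum_univ_three, Algebra.smul_def] using hg

/-- A Steinberg-type relation that holds for pairs with one entry in the base field holds for all
pairs in an extension of degree at most three. -/
lemma steinberg_cubic [Module.Finite L K] (h : finrank L K ≤ 3) (R : K → K → Prop)
    (symm : ∀ a b, a ≠ 0 → b ≠ 0 → R a b → R b a)
    (mul : ∀ a b c, a ≠ 0 → b ≠ 0 → c ≠ 0 → R a b → R a c → R a (b * c))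
    (inv : ∀ a b, a ≠ 0 → b ≠ 0 → R a b → R a b⁻¹)
    (neg : ∀ a, a ≠ 0 → R a (-a))
    (st : ∀ a, a ≠ 0 → 1 - a ≠ 0 → R a (1 - a))
    (base : ∀ (t : L) (a : K), t ≠ 0 → a ≠ 0 → R (algebraMap L K t) a)
    (a b : K) (ha : a ≠ 0) (hb : b ≠ 0) : R a b := by
  have inj : ∀ t : L, t ≠ 0 → algebraMap L K t ≠ 0 := fun t ht => by simpa using ht
  have base' : ∀ (t : L) (a : K), t ≠ 0 → a ≠ 0 → R a (algebraMap L K t) :=
    fun t a ht ha => symm _ _ (inj t ht) ha (base t a ht ha)
  have lin : ∀ c0 c1 : L, algebraMap L K c0 + algebraMap L K c1 * a ≠ 0 →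
      R a (algebraMap L K c0 + algebraMap L K c1 * a) := by
    intro c0 c1 hne
    rcases eq_or_ne c1 0 with rfl | h1
    · simp only [map_zero, zero_mul, add_zero] at hne ⊢
      exact base' _ _ (by simpa using hne) ha
    rcases eq_or_ne c0 0 with rfl | h0
    · have : algebraMap L K 0 + algebraMap L K c1 * a = algebraMap L K (-c1) * (-a) := by simp
      rw [this]
      exact mul _ _ _ ha (inj _ (neg_ne_zero.2 h1)) (neg_ne_zero.2 ha)
        (base' _ _ (neg_ne_zero.2 h1) ha) (neg a ha)
    · set s : L := -c1 / c0 with hs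
      have hs0 : s ≠ 0 := div_ne_zero (neg_ne_zero.2 h1) h0
      have e1 : algebraMap L K c0 + algebraMap L K c1 * a =
          algebraMap L K c0 * (1 - algebraMap L K s * a) := by
        have := inj c0 h0
        rw [hs, map_div₀, map_neg]; field_simp; ring
      rw [e1] at hne ⊢
      have hne' : 1 - algebraMap L K s * a ≠ 0 := right_ne_zero_of_mul hne
      have hsa : algebraMap L K s * a ≠ 0 := mul_ne_zero (inj s hs0) ha
      refine mul _ _ _ ha (inj _ h0) hne' (base' _ _ h0 ha) (symm _ _ hne' ha ?_)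
      have e2 : a = algebraMap L K s⁻¹ * (algebraMap L K s * a) := by
        have := inj s hs0
        rw [map_inv₀]; field_simp
      have r1 := mul _ _ _ hne' (inj _ (inv_ne_zero hs0)) hsa (base' _ _ (inv_ne_zero hs0) hne')
        (symm _ _ hsa hne' (st _ hsa hne'))
      rwa [← e2] at r1
  obtain ⟨c0, c1, c2, c3, hne, hc⟩ := exists_dep4 h 1 a b (a * b)
  rcases eq_or_ne (algebraMap L K c2 + algebraMap L K c3 * a) 0 with h0 | h0
  · have : ∃ t : L, a = algebraMap L K t := by
      rcases eq_or_ne c3 0 with rfl | h3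
      · have h2 : c2 = 0 := by simpa using h0
        subst h2
        have h1 : c1 ≠ 0 := by
          rintro rfl
          simp at hc hne
          exact hne hc
        have := inj c1 h1
        refine ⟨-c0 / c1, ?_⟩
        rw [map_div₀, map_neg]; field_simp
        simp only [map_zero] at hc
        linear_combination hc
      · have := inj c3 h3
        refine ⟨-c2 / c3, ?_⟩
        rw [map_div₀, map_neg]; field_simp
        linear_combination h0
    obtain ⟨t, rfl⟩ := this
    exact base t b (by simpa using ha) hb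
  · have e : b = (algebraMap L K (-c0) + algebraMap L K (-c1) * a) *
        (algebraMap L K c2 + algebraMap L K c3 * a)⁻¹ := by
      rw [eq_mul_inv_iff_mul_eq₀ h0, map_neg, map_neg]
      linear_combination hc
    have h1 : algebraMap L K (-c0) + algebraMap L K (-c1) * a ≠ 0 := by
      intro h1; rw [h1, zero_mul] at e; exact hb e
    rw [e]
    exact mul _ _ _ ha h1 (inv_ne_zero h0) (lin _ _ h1) (inv _ _ ha h0 (lin _ _ h0))

lemma univ_of_base [Module.Finite L K] (h : finrank L K ≤ 3) (h2 : (2 : K) ≠ 0)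
    (base : ∀ (t : L) (a : K), t ≠ 0 → a ≠ 0 → Nm (algebraMap L K t) a) : Univ K := by
  intro a b ha
  rcases eq_or_ne b 0 with rfl | hb
  · exact Nm.zero a
  exact steinberg_cubic h Nm (fun a b _ hb h => h.symm h2 hb) (fun _ _ _ _ _ _ h1 h2 => h1.mul h2)
    (fun _ _ _ _ h => h.inv) (fun a _ => Nm.neg_self a) (fun a _ _ => ⟨1, 1, by ring⟩) base a b ha hb

/-- Going up in a quadratic extension. -/
lemma univ_quadratic [Module.Finite L K] (h : finrank L K ≤ 2) (h2 : (2 : K) ≠ 0) (hL : Univ L) :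
    Univ K := by
  refine univ_of_base (L := L) (by omega) h2 fun t b ht hb => ?_
  have inj : ∀ t : L, t ≠ 0 → algebraMap L K t ≠ 0 := fun t ht => by simpa using ht
  have easy : ∀ s : L, Nm (algebraMap L K t) (algebraMap L K s) := fun s => (hL t s ht).map _
  obtain ⟨c0, c1, c2, hne, hc⟩ := exists_dep3 h 1 b (b ^ 2)
  rcases eq_or_ne c2 0 with rfl | h2'
  · have h1 : c1 ≠ 0 := by
      rintro rfl
      simp at hc hne
      exact hne hc
    have := inj c1 h1
    have e : b = algebraMap L K (-c0 / c1) := by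
      rw [map_div₀, map_neg]; field_simp
      simp only [map_zero] at hc
      linear_combination hc
    rw [e]; exact easy _
  · obtain ⟨x, y, hxy⟩ := hL t (c0 / c2) ht
    have h3 := inj c2 h2'
    have hxy' := congrArg (algebraMap L K) hxy
    simp only [map_div₀, map_sub, map_mul, map_pow] at hxy'
    rw [div_eq_iff h3] at hxy'
    have key : b * algebraMap L K (2 * x - c1 / c2) =
        (b + algebraMap L K x) ^ 2 - algebraMap L K t * algebraMap L K y ^ 2 := by
      simp only [map_div₀, map_sub, map_mul, map_ofNat]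
      field_simp
      linear_combination hxy' - hc
    rcases eq_or_ne (algebraMap L K (2 * x - c1 / c2)) 0 with h0 | h0
    · rw [h0, mul_zero] at key
      rcases eq_or_ne (algebraMap L K y) 0 with hy | hy
      · have e : b = algebraMap L K (-x) := by
          rw [hy] at key
          have : b + algebraMap L K x = 0 :=
            pow_eq_zero_iff two_ne_zero |>.1 (by linear_combination -key)
          rw [map_neg]; linear_combination this
        rw [e]; exact easy _
      · refine Nm.of_isSquare_left h2 ⟨(b + algebraMap L K x) / algebraMap L K y, ?_⟩ (inj t ht) b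
        field_simp
        linear_combination key
    · exact Nm.of_mul ⟨_, _, key⟩ (easy _) h0

lemma univ_two_power (n : ℕ) : ∀ (L K : Type u) [Field L] [Field K] [Algebra L K]
    [Module.Finite L K] [IsGalois L K], finrank L K = 2 ^ n → (2 : K) ≠ 0 → Univ L → Univ K := by
  induction n with
  | zero =>
    intro L K _ _ _ _ _ h h2 hL
    exact univ_quadratic (L := L) (by omega) h2 hL
  | succ n ih =>
    intro L K _ _ _ _ _ h h2 hL
    obtain ⟨H, hH⟩ := Sylow.exists_subgroup_card_pow_prime (G := Gal(K / L)) 2 (n := n)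
      (by rw [IsGalois.card_aut_eq_finrank, h]; exact pow_dvd_pow 2 n.le_succ)
    have h1 : finrank (IntermediateField.fixedField H) K = 2 ^ n := by
      rw [IntermediateField.finrank_fixedField_eq_card, hH]
    have h3 : finrank L (IntermediateField.fixedField H) = 2 := by
      have := Module.finrank_mul_finrank L (IntermediateField.fixedField H) K
      rw [h1, h, pow_succ, mul_comm] at this
      exact Nat.eq_of_mul_eq_mul_left (by positivity) this
    refine ih (IntermediateField.fixedField H) K h1 h2 (univ_quadratic h3.le ?_ hL)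
    intro h0; apply h2
    have := congrArg (algebraMap (IntermediateField.fixedField H) K) h0
    rwa [map_ofNat, map_zero] at this

lemma nm_det {n : Type*} [Fintype n] [DecidableEq n] (a : L) (A B : Matrix n n L)
    (hc : A * B = B * A) : Nm a (A * A - a • (B * B)).det := by
  have h1 : ∀ r : L, starRingEnd (QuadraticAlgebra L a 0) (algebraMap L _ r) = algebraMap L _ r :=
    fun r => by ext <;> simp [starRingEnd_apply]
  obtain ⟨w, hw, hs⟩ : ∃ w : QuadraticAlgebra L a 0, w * w = algebraMap L _ a ∧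
      starRingEnd _ w = -w :=
    ⟨QuadraticAlgebra.omega, by ext <;> simp, by ext <;> simp [starRingEnd_apply]⟩
  obtain ⟨MX, hX⟩ : ∃ M, M = A.map (algebraMap L (QuadraticAlgebra L a 0)) := ⟨_, rfl⟩
  obtain ⟨MY, hY⟩ : ∃ M, M = B.map (algebraMap L (QuadraticAlgebra L a 0)) := ⟨_, rfl⟩
  have hz : star (MX + w • MY).det = (MX - w • MY).det := by
    rw [← starRingEnd_apply, RingHom.map_det]
    congr 1
    ext1 i j
    simp [hX, hY, hs, h1, sub_eq_add_neg]
  have hc' : MX * MY = MY * MX := by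
    simp only [hX, hY, ← Matrix.map_mul, hc]
  have hprod : (MX + w • MY) * (MX - w • MY) =
      (A * A - a • (B * B)).map (algebraMap L (QuadraticAlgebra L a 0)) := by
    have : (MX + w • MY) * (MX - w • MY) = MX * MX - (w * w) • (MY * MY) := by
      simp only [add_mul, mul_sub, Matrix.mul_smul, Matrix.smul_mul, hc', smul_smul]
      abel
    rw [this, hw]
    ext1 i j
    simp only [hX, hY, ← Matrix.map_mul, Matrix.sub_apply, Matrix.smul_apply, Matrix.map_apply,
      smul_eq_mul, map_sub, map_mul]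
  have hn : algebraMap L (QuadraticAlgebra L a 0) (A * A - a • (B * B)).det =
      algebraMap L _ (QuadraticAlgebra.norm (MX + w • MY).det) := by
    rw [QuadraticAlgebra.algebraMap_norm_eq_mul_star, hz, ← Matrix.det_mul, hprod, RingHom.map_det]
    rfl
  have := congrArg QuadraticAlgebra.re hn
  simp only [QuadraticAlgebra.norm_def, QuadraticAlgebra.algebraMap_re] at this
  exact ⟨(MX + w • MY).det.re, (MX + w • MY).det.im, by rw [this]; ring⟩

/-- Descent along an extension of odd degree. -/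
lemma univ_odd_descent (h : Odd (finrank L K)) (hK : Univ K) : Univ L := by
  have : Module.Finite L K := Module.finite_of_finrank_pos h.pos
  intro a b ha
  rcases eq_or_ne b 0 with rfl | hb
  · exact Nm.zero a
  obtain ⟨X, Y, hXY⟩ := hK (algebraMap L K a) (algebraMap L K b) (by simpa using ha)
  have h1 := nm_det a (Algebra.leftMulMatrix (Module.finBasis L K) X)
    (Algebra.leftMulMatrix (Module.finBasis L K) Y) (by rw [← map_mul, mul_comm, map_mul])
  rw [← map_mul, ← map_mul, ← map_smul, ← map_sub, ← Algebra.norm_eq_matrix_det, Algebra.smul_def,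
    ← sq, ← sq, ← hXY, Algebra.norm_algebraMap] at h1
  obtain ⟨k, hk⟩ := h
  refine Nm.of_mul (b := (b ^ k) ^ 2) ?_ (Nm.sq _ _) (by simp [hb])
  convert h1 using 1
  rw [hk]; ring

end dep

section closed

variable {F K : Type*} [Field F] [Field K] [Algebra F K]

lemma exists_sq (hF : ∀ a : F, IsSquare a) (a : F) : ∃ s : F, s ^ 2 = a := by
  obtain ⟨s, hs⟩ := hF a
  exact ⟨s, by rw [hs, sq]⟩

lemma isSquare_algebraMap (hF : ∀ a : F, IsSquare a) (a : F) : IsSquare (algebraMap F K a) :=
  (hF a).map _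

lemma isSquare_of_quad (hF : ∀ a : F, IsSquare a) (h2 : (2 : K) ≠ 0) {y : K} {c0 c1 c2 : F}
    (hne : c0 ≠ 0 ∨ c1 ≠ 0 ∨ c2 ≠ 0)
    (hc : algebraMap F K c0 + algebraMap F K c1 * y + algebraMap F K c2 * y ^ 2 = 0) :
    IsSquare y := by
  have inj : ∀ t : F, t ≠ 0 → algebraMap F K t ≠ 0 := fun t ht => by simpa using ht
  suffices ∃ t : F, y = algebraMap F K t by
    obtain ⟨t, rfl⟩ := this; exact isSquare_algebraMap hF t
  rcases eq_or_ne c2 0 with rfl | h2'
  · have h1 : c1 ≠ 0 := by
      rintro rfl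
      simp at hc hne
      exact hne hc
    have := inj c1 h1
    refine ⟨-c0 / c1, ?_⟩
    rw [map_div₀, map_neg]; field_simp
    simp only [map_zero] at hc
    linear_combination hc
  · obtain ⟨d, hd⟩ := exists_sq hF (c1 ^ 2 - 4 * c0 * c2)
    have hd' := congrArg (algebraMap F K) hd
    simp only [map_sub, map_mul, map_pow, map_ofNat] at hd'
    have h3 := inj c2 h2'
    have : (2 * algebraMap F K c2 * y + algebraMap F K c1 - algebraMap F K d) *
        (2 * algebraMap F K c2 * y + algebraMap F K c1 + algebraMap F K d) = 0 := by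
      linear_combination 4 * algebraMap F K c2 * hc - hd'
    rcases mul_eq_zero.1 this with h | h
    · refine ⟨(d - c1) / (2 * c2), ?_⟩
      simp only [map_div₀, map_sub, map_mul, map_ofNat]
      field_simp
      linear_combination h
    · refine ⟨(-d - c1) / (2 * c2), ?_⟩
      simp only [map_div₀, map_sub, map_mul, map_ofNat, map_neg]
      field_simp
      linear_combination h

lemma exists_quad (hF : ∀ a : F, IsSquare a) (c0 c1 c2 : F) : ∃ a0 a1 a2 : F, ∀ y : K,
    algebraMap F K c0 + algebraMap F K c1 * y + algebraMap F K c2 * y ^ 2 =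
      (algebraMap F K a0 + algebraMap F K a2 * y) ^ 2 - y * algebraMap F K a1 ^ 2 := by
  obtain ⟨a0, rfl⟩ := exists_sq hF c0
  obtain ⟨a2, rfl⟩ := exists_sq hF c2
  obtain ⟨a1, h⟩ := exists_sq hF (2 * a0 * a2 - c1)
  refine ⟨a0, a1, a2, fun y => ?_⟩
  have : c1 = 2 * a0 * a2 - a1 ^ 2 := by rw [h]; ring
  rw [this]
  simp only [map_sub, map_mul, map_pow, map_ofNat]
  ring

lemma nm_quad (hF : ∀ a : F, IsSquare a) (c0 c1 c2 : F) (y : K) :
    Nm y (algebraMap F K c0 + algebraMap F K c1 * y + algebraMap F K c2 * y ^ 2) := by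
  obtain ⟨a0, a1, a2, h⟩ := exists_quad (K := K) hF c0 c1 c2
  exact ⟨_, _, h y⟩

lemma quad_or_isSquare (hF : ∀ a : F, IsSquare a) (h2 : (2 : K) ≠ 0) [Module.Finite F K]
    (h : finrank F K ≤ 3) (u a : K) :
    (∃ p0 p1 p2 : F, a = algebraMap F K p0 + algebraMap F K p1 * u + algebraMap F K p2 * u ^ 2) ∨
      IsSquare u := by
  obtain ⟨c0, c1, c2, c3, hne, hc⟩ := exists_dep4 h 1 u (u ^ 2) a
  rcases eq_or_ne c3 0 with rfl | h3
  · right
    refine isSquare_of_quad hF h2 (c0 := c0) (c1 := c1) (c2 := c2) (by simpa using hne) ?_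
    simpa using hc
  · left
    have : algebraMap F K c3 ≠ 0 := by simpa using h3
    refine ⟨-c0 / c3, -c1 / c3, -c2 / c3, ?_⟩
    simp only [map_div₀, map_neg]
    field_simp
    linear_combination hc

lemma univ_cubic (hF : ∀ a : F, IsSquare a) (h2 : (2 : K) ≠ 0) [Module.Finite F K]
    (h : finrank F K ≤ 3) : Univ K := by
  intro a b ha
  rcases quad_or_isSquare hF h2 h a b with ⟨p0, p1, p2, rfl⟩ | hs
  · exact nm_quad hF _ _ _ _
  · exact Nm.of_isSquare_left h2 hs ha b

/-- The key step: a relation of the toric shape forces `u` to be a norm. -/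
lemma nm_of_toric (hF : ∀ a : F, IsSquare a) (h2 : (2 : K) ≠ 0) {y u : K} (hy : y ≠ 0)
    (p0 p1 p2 q0 q1 q2 : F)
    (h : y ^ 3 + (algebraMap F K p0 + algebraMap F K p1 * u + algebraMap F K p2 * u ^ 2) * y ^ 2 +
      (algebraMap F K q0 + algebraMap F K q1 * u + algebraMap F K q2 * u ^ 2) * y - u = 0) :
    Nm y u := by
  rcases eq_or_ne (algebraMap F K (-1) + algebraMap F K q1 * y + algebraMap F K p1 * y ^ 2) 0
    with hB | hB
  · exact Nm.of_isSquare_left h2 (isSquare_of_quad hF h2 (Or.inl (by simp)) hB) hy u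
  obtain ⟨a0, a1, a2, ha⟩ := exists_quad (K := K) hF 0 q2 p2
  obtain ⟨g0, g1, g2, hg⟩ := exists_quad (K := K) hF q0 p0 1
  obtain ⟨i, hi⟩ := exists_sq hF (-1)
  have hi' := congrArg (algebraMap F K) hi
  have ha' := ha y
  have hg' := hg y
  simp only [map_pow, map_neg, map_one, map_zero] at hi' ha' hg'
  have hm : IsSquare (-2 : K) := by
    have := isSquare_algebraMap (K := K) hF (-2)
    rwa [map_neg, map_ofNat] at this
  refine Nm.of_curve h2 hy hB hm (Xa := algebraMap F K a0 + algebraMap F K a2 * y)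
    (Ya := algebraMap F K a1) (Xc := algebraMap F K i * algebraMap F K g1 * y)
    (Yc := algebraMap F K i * (algebraMap F K g0 + algebraMap F K g2 * y)) ?_ ?_ ?_
  · simp only [map_neg, map_one]
    linear_combination h - u ^ 2 * ha' - y * hg' +
      (algebraMap F K g1 ^ 2 * y ^ 2 - y * (algebraMap F K g0 + algebraMap F K g2 * y) ^ 2) * hi'
  · convert nm_quad hF 0 (2 * i * (a0 * g1 - a1 * g0)) (2 * i * (a2 * g1 - a1 * g2)) y using 1
    simp only [map_sub, map_mul, map_ofNat, map_zero]
    ring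
  · convert nm_quad hF 1 (2 * i * (a0 * g1 - a1 * g0) - q1) (2 * i * (a2 * g1 - a1 * g2) - p1) y
      using 1
    simp only [map_sub, map_mul, map_ofNat, map_neg, map_one]
    ring

omit [Algebra F K] in
/-- Towers of two cubic extensions over a quadratically closed field. -/
lemma univ_cubic_tower (hF : ∀ a : F, IsSquare a) (L : Type*) [Field L] [Algebra F L]
    [Algebra L K] (h2 : (2 : K) ≠ 0) [Module.Finite F L] (hL : finrank F L ≤ 3)
    (hK : finrank L K = 3) : Univ K := by
  have : Module.Finite L K := Module.finite_of_finrank_pos (by omega)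
  let _ : Algebra F K := ((algebraMap L K).comp (algebraMap F L)).toAlgebra
  have hcomp : ∀ x : F, algebraMap F K x = algebraMap L K (algebraMap F L x) := fun _ => rfl
  have h2L : (2 : L) ≠ 0 := by
    intro h; apply h2
    have := congrArg (algebraMap L K) h
    rwa [map_ofNat, map_zero] at this
  have hU : Univ L := univ_cubic hF h2L hL
  refine univ_of_base hK.le h2 fun t b ht hb => ?_
  have inj : ∀ t : L, t ≠ 0 → algebraMap L K t ≠ 0 := fun t ht => by simpa using ht
  have hn : Algebra.norm L b ≠ 0 := Algebra.norm_ne_zero_iff.2 hb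
  set n := Algebra.norm L b with hnd
  set y : K := algebraMap L K (t / n) * b ^ 3 with hyd
  have hy : y ≠ 0 := mul_ne_zero (inj _ (div_ne_zero ht hn)) (pow_ne_zero _ hb)
  have hNy : Algebra.norm L y = t ^ 3 := by
    rw [hyd, map_mul, map_pow, Algebra.norm_algebraMap, hK, ← hnd]; field_simp
  obtain ⟨a1, a2, hch⟩ : ∃ a1 a2 : L,
      y ^ 3 + algebraMap L K a2 * y ^ 2 + algebraMap L K a1 * y - algebraMap L K (t ^ 3) = 0 := by
    set χ := (Algebra.lmul L K y).charpoly with hχ
    have h0 : Polynomial.aeval y χ = 0 := Algebra.aeval_self_charpoly_lmul y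
    have hd : χ.natDegree = 3 := by rw [hχ, LinearMap.charpoly_natDegree, hK]
    have hm : χ.coeff 3 = 1 := by rw [← hd]; exact LinearMap.charpoly_monic _
    have hc : χ.coeff 0 = - t ^ 3 := by
      have := LinearMap.det_eq_sign_charpoly_coeff (Algebra.lmul L K y)
      rw [hK, ← hχ, ← Algebra.norm_apply, hNy] at this
      linear_combination this
    rw [Polynomial.aeval_eq_sum_range, hd] at h0
    simp only [Finset.sum_range_succ, Finset.sum_range_zero, hm, hc, Algebra.smul_def, map_neg,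
      map_one] at h0
    exact ⟨χ.coeff 1, χ.coeff 2, by linear_combination h0⟩
  have hsq : IsSquare (t ^ 3) → Nm (algebraMap L K t) b := by
    rintro ⟨s, hs⟩
    refine Nm.of_isSquare_left h2 (IsSquare.map (algebraMap L K) ⟨s / t, ?_⟩) (inj t ht) b
    field_simp
    linear_combination hs
  rcases quad_or_isSquare hF h2L hL (t ^ 3) a1 with ⟨q0, q1, q2, hq⟩ | hs
  swap
  · exact hsq hs
  rcases quad_or_isSquare hF h2L hL (t ^ 3) a2 with ⟨p0, p1, p2, hp⟩ | hs
  swap
  · exact hsq hs
  have h1 : Nm y (algebraMap L K (t ^ 3)) := by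
    refine nm_of_toric hF h2 hy p0 p1 p2 q0 q1 q2 ?_
    rw [hp, hq] at hch
    simpa only [map_add, map_mul, map_pow, hcomp] using hch
  have h3 : Nm y (algebraMap L K t) := by
    refine Nm.of_mul (b := algebraMap L K t ^ 2) ?_ (Nm.sq _ _) (pow_ne_zero _ (inj t ht))
    convert h1 using 1
    rw [map_pow]; ring
  have h4 : Nm (algebraMap L K t) y := h3.symm h2 (inj t ht)
  refine Nm.of_mul (b := algebraMap L K (t / n) * b ^ 2) ?_ (((hU t _ ht).map _).mul (Nm.sq _ _))
    (mul_ne_zero (inj _ (div_ne_zero ht hn)) (pow_ne_zero _ hb))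
  convert h4 using 1
  rw [hyd]; ring

end closed

end Pool.Agent.Lib.MP_887a05_al
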