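import Pool.Agent.Lib.MP_887a05_al.Transfer

/-!
The square of the fundamental ideal: extensions of degree at most eight of a quadratically closed
field, and the reduction for `C_p × C_p`.
-/

namespace Pool.Agent.Lib.MP_887a05_al

open Module Matrix
open Pool.Agent.Shared.WittRing

universe u

lemma Nm.of_curve' {K : Type*} [Field K] (h2 : (2 : K) ≠ 0) {y u B Xa Ya Xc Yc : K} (hy : y ≠ 0)
    (hB : B ≠ 0 ∨ Xa ^ 2 - y * Ya ^ 2 ≠ 0) (hm : IsSquare (-2 : K))
    (h : (Xa ^ 2 - y * Ya ^ 2) * u ^ 2 + B * u + (Xc ^ 2 - y * Yc ^ 2) = 0)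
    (hT : Nm y (2 * (Xa * Xc - y * Ya * Yc))) (hTB : Nm y (2 * (Xa * Xc - y * Ya * Yc) - B)) :
    Nm y u := by
  rcases eq_or_ne B 0 with rfl | hB0
  swap
  · exact Nm.of_curve h2 hy hB0 hm h hT hTB
  have hA : Xa ^ 2 - y * Ya ^ 2 ≠ 0 := by simpa using hB
  have key : u * (2 * (Xa * Xc - y * Ya * Yc)) = (Xa * u + Xc) ^ 2 - y * (Ya * u + Yc) ^ 2 := by
    linear_combination -h
  rcases eq_or_ne (2 * (Xa * Xc - y * Ya * Yc)) 0 with h0 | h0
  · rw [h0, mul_zero] at key
    rcases eq_or_ne (Ya * u + Yc) 0 with h1 | h1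
    · have h3 : Xa * u + Xc = 0 := by
        rw [h1] at key
        exact pow_eq_zero_iff two_ne_zero |>.1 (by linear_combination -key)
      have h4 : u * (2 * (Xa ^ 2 - y * Ya ^ 2)) = 0 := by
        linear_combination (2 * Xa) * h3 - (2 * y * Ya) * h1 - h0
      rw [(mul_eq_zero.1 h4).resolve_right (mul_ne_zero h2 hA)]
      exact Nm.zero y
    · refine Nm.of_isSquare_left h2 ⟨(Xa * u + Xc) / (Ya * u + Yc), ?_⟩ hy u
      rw [div_mul_div_comm, eq_div_iff (mul_ne_zero h1 h1)]
      linear_combination key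
  · exact Nm.of_mul ⟨_, _, key⟩ hT h0

lemma univ_of_le_eight {F K : Type*} [Field F] [Field K] [Algebra F K] [Module.Finite F K]
    (hF : ∀ a : F, IsSquare a) (h2 : (2 : K) ≠ 0) (h : finrank F K ≤ 8) : Univ K := by
  intro y u hy
  by_cases hs : IsSquare y
  · exact Nm.of_isSquare_left h2 hs hy u
  have hn : ¬ LinearIndependent F (fun p : Fin 3 × Fin 3 => y ^ (p.1 : ℕ) * u ^ (p.2 : ℕ)) := by
    intro hl
    have := hl.fintype_card_le_finrank
    simp at this
    omega
  obtain ⟨g, hg, p, hp⟩ := Fintype.not_linearIndependent_iff.1 hn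
  simp only [Fintype.sum_prod_type, Fin.sum_univ_three, Algebra.smul_def, Fin.val_zero,
    Fin.val_one, Fin.val_two] at hg
  have hz : ∀ j, algebraMap F K (g (0, j)) + algebraMap F K (g (1, j)) * y +
      algebraMap F K (g (2, j)) * y ^ 2 = 0 → ∀ i, g (i, j) = 0 := by
    intro j hj i
    by_contra hne
    refine hs (isSquare_of_quad hF h2 ?_ hj)
    fin_cases i <;> simp_all
  obtain ⟨a0, a1, a2, ha⟩ := exists_quad (K := K) hF (g (0, 2)) (g (1, 2)) (g (2, 2))
  obtain ⟨c0, c1, c2, hc⟩ := exists_quad (K := K) hF (g (0, 0)) (g (1, 0)) (g (2, 0))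
  have ha' := ha y
  have hc' := hc y
  have hm : IsSquare (-2 : K) := by
    have := isSquare_algebraMap (K := K) hF (-2)
    rwa [map_neg, map_ofNat] at this
  refine Nm.of_curve' h2 hy (B := algebraMap F K (g (0, 1)) + algebraMap F K (g (1, 1)) * y +
    algebraMap F K (g (2, 1)) * y ^ 2) (Xa := algebraMap F K a0 + algebraMap F K a2 * y)
    (Ya := algebraMap F K a1) (Xc := algebraMap F K c0 + algebraMap F K c2 * y)
    (Yc := algebraMap F K c1) ?_ hm ?_ ?_ ?_
  · by_contra hcon
    push Not at hcon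
    obtain ⟨hB, hA⟩ := hcon
    rw [← ha'] at hA
    have hC : algebraMap F K (g (0, 0)) + algebraMap F K (g (1, 0)) * y +
        algebraMap F K (g (2, 0)) * y ^ 2 = 0 := by
      linear_combination hg - u * hB - u ^ 2 * hA
    obtain ⟨i, j⟩ := p
    apply hp
    fin_cases j
    · exact hz 0 hC i
    · exact hz 1 hB i
    · exact hz 2 hA i
  · linear_combination hg - u ^ 2 * ha' - hc'
  · convert nm_quad hF (2 * a0 * c0) (2 * (a0 * c2 + a2 * c0 - a1 * c1)) (2 * a2 * c2) y using 1
    simp only [map_sub, map_mul, map_ofNat, map_add]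
    ring
  · convert nm_quad hF (2 * a0 * c0 - g (0, 1)) (2 * (a0 * c2 + a2 * c0 - a1 * c1) - g (1, 1))
      (2 * a2 * c2 - g (2, 1)) y using 1
    simp only [map_sub, map_mul, map_ofNat, map_add]
    ring

section transfer

variable {E K : Type u} [Field E] [Field K] [Algebra E K]

lemma sum_cls_of_sq_eq_bot (hE : fundIdeal E ^ 2 = ⊥) {n : ℕ} (c : Fin n → Eˣ) :
    ∑ i, cls (c i) = n - 1 + cls (∏ i, c i) := by
  induction n with
  | zero => simp [cls_one]
  | succ n ih =>
    have : (1 - cls (c 0)) * (1 - cls (∏ i : Fin n, c i.succ)) = 0 := by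
      rw [← Ideal.mem_bot, ← hE, sq]
      exact Ideal.mul_mem_mul (one_sub_cls_mem _) (one_sub_cls_mem _)
    rw [Fin.sum_univ_succ, Fin.prod_univ_succ, ih, cls_mul]
    push_cast
    linear_combination - this

lemma sum_conj_cls_of_sq_eq_bot [Module.Finite E K] [IsGalois E K] (h2 : (2 : E) ≠ 0)
    (hE : fundIdeal E ^ 2 = ⊥) (a : Kˣ) :
    ∑ σ : Gal(K / E), cls (Units.map (σ : K →+* K).toMonoidHom a) = (finrank E K : W K) - 1 +
      map (algebraMap E K) h2 (cls (Units.map (Algebra.norm E) a)) := by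
  let _ : Invertible (2 : E) := invertibleOfNonzero h2
  let B : LinearMap.BilinForm E K := (Algebra.traceForm E K).compl₂ (LinearMap.mulLeft E (a : K))
  have hB : ∀ x y, B x y = Algebra.trace E K (x * (a * y)) := fun _ _ => rfl
  obtain ⟨e, he⟩ := LinearMap.BilinForm.exists_orthogonal_basis (B := B)
    ⟨fun x y => by simp only [hB, RingHom.id_apply]; congr 1; ring⟩
  have hsep : B.SeparatingLeft := by
    intro x hx
    refine (traceForm_nondegenerate E K).1 x fun y => ?_
    have := hx ((a⁻¹ : Kˣ) * y)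
    rwa [hB, Units.mul_inv_cancel_left] at this
  have hd := he.not_isOrtho_basis_self_of_separatingLeft hsep
  have hcard : Fintype.card Gal(K / E) = finrank E K := by
    rw [← Nat.card_eq_fintype_card, IsGalois.card_aut_eq_finrank]
  let ε : Fin (finrank E K) ≃ Gal(K / E) := (Fintype.equivFinOfCardEq hcard).symm
  let d : Fin (finrank E K) → Eˣ := fun i => Units.mk0 _ (hd i)
  let P : Matrix (Fin (finrank E K)) (Fin (finrank E K)) K := Matrix.of fun s i => ε s (e i)
  have hP : Pᵀ * (diagonal fun s => ((Units.map ((ε s : K →+* K)).toMonoidHom a : Kˣ) : K)) * P =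
      diagonal fun i => ((Units.map (algebraMap E K).toMonoidHom (d i) : Kˣ) : K) := by
    ext i j
    have : (Pᵀ * (diagonal fun s => ((Units.map ((ε s : K →+* K)).toMonoidHom a : Kˣ) : K)) * P)
        i j = algebraMap E K (B (e i) (e j)) := by
      rw [hB, trace_eq_sum_automorphisms, ← Equiv.sum_comp ε, Matrix.mul_apply]
      refine Finset.sum_congr rfl fun s _ => ?_
      simp [P, Matrix.mul_diagonal, mul_assoc]
    rw [this]
    by_cases hij : i = j
    · subst hij; simp [d]
    · rw [he hij, map_zero, diagonal_apply_ne _ hij]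
  have hdet := congrArg Matrix.det hP
  simp only [det_mul, det_transpose, det_diagonal] at hdet
  have h0 : P.det ≠ 0 := by
    intro h0
    rw [h0] at hdet
    simp only [zero_mul] at hdet
    exact (Finset.prod_ne_zero_iff.2 fun i _ => Units.ne_zero _) hdet.symm
  have hu : Units.map (algebraMap E K).toMonoidHom (∏ i, d i) =
      Units.map (algebraMap E K).toMonoidHom (Units.map (Algebra.norm E) a) *
        (Units.mk0 _ h0 * Units.mk0 _ h0) := by
    ext
    have h1 : algebraMap E K (Algebra.norm E (a : K)) = ∏ s, ε s a := by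
      rw [Algebra.norm_eq_prod_automorphisms, ← Equiv.prod_comp ε]
    simp only [Units.coe_map, RingHom.toMonoidHom_eq_coe, MonoidHom.coe_coe, Units.coe_prod,
      map_prod, Units.val_mul, Units.val_mk0, h1] at hdet ⊢
    rw [← hdet, mul_comm P.det, mul_assoc]
    rfl
  rw [← Equiv.sum_comp ε, ← sum_cls_eq_of_matrix _ _ P hP]
  simp only [← map_cls (algebraMap E K) h2]
  rw [← map_sum, sum_cls_of_sq_eq_bot hE, map_add, map_sub, map_natCast, map_one, map_cls, hu,
    cls_mul, cls_mul_self, mul_one, map_cls]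

lemma sum_conj_eq_zero_of_sq [Module.Finite E K] [IsGalois E K] (h2 : (2 : E) ≠ 0)
    (hE : fundIdeal E ^ 2 = ⊥) (φ : W K) (hφ : φ ∈ fundIdeal K ^ 2) :
    ∑ σ : Gal(K / E), map (σ : K →+* K) (two_ne_zero_of_algebra h2) φ = 0 := by
  have h2K : (2 : K) ≠ 0 := two_ne_zero_of_algebra h2
  let N : W K →+ W K := ∑ σ : Gal(K / E), (map (σ : K →+* K) h2K).toAddMonoidHom
  have hN : ∀ x, N x = ∑ σ : Gal(K / E), map (σ : K →+* K) h2K x := fun x => by
    simp [N]
  have hc : ∀ a : Kˣ, N (cls a) = (finrank E K : W K) - 1 +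
      map (algebraMap E K) h2 (cls (Units.map (Algebra.norm E) a)) := by
    intro a
    rw [hN, ← sum_conj_cls_of_sq_eq_bot h2 hE a]
    simp only [map_cls]
  rw [← hN]
  suffices ∀ w, N (w * φ) = 0 by simpa using this 1
  rw [sq, fundIdeal_eq, Ideal.span_mul_span] at hφ
  induction hφ using Submodule.span_induction with
  | mem z hz =>
    obtain ⟨_, ⟨a, rfl⟩, _, ⟨b, rfl⟩, rfl⟩ := hz
    intro w
    induction w using Pool.Agent.Shared.WittRing.induction_on with
    | h1 c =>
      have e1 : cls c * ((1 - cls a) * (1 - cls b)) =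
          cls c - cls (c * a) - cls (c * b) + cls (c * a * b) := by
        simp only [cls_mul]; ring
      have e2 : (1 - cls (Units.map (Algebra.norm E) a)) *
          (1 - cls (Units.map (Algebra.norm E) b)) = 0 := by
        rw [← Ideal.mem_bot, ← hE, sq]
        exact Ideal.mul_mem_mul (one_sub_cls_mem _) (one_sub_cls_mem _)
      have e3 := congrArg (map (algebraMap E K) h2) e2
      simp only [map_mul, map_sub, map_one, map_zero] at e3
      change N (cls c * ((1 - cls a) * (1 - cls b))) = 0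
      rw [e1, map_add, map_sub, map_sub, hc, hc, hc, hc]
      simp only [map_mul, cls_mul]
      linear_combination map (algebraMap E K) h2 (cls (Units.map (Algebra.norm E) c)) * e3
    | h0 => simp
    | hadd x y hx hy => rw [add_mul, map_add, hx, hy, add_zero]
  | zero => intro w; simp
  | add x y _ _ hx hy => intro w; rw [mul_add, map_add, hx, hy, add_zero]
  | smul c x _ hx => intro w; rw [smul_eq_mul, ← mul_assoc, hx]

end transfer

section abelian

variable {F K : Type u} [Field F] [Field K] [Algebra F K]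

lemma finrank_fixedField_zpowers' [Module.Finite F K] {p : ℕ} [Fact p.Prime] {ρ : Gal(K / F)}
    (h1 : ρ ≠ 1) (h3 : ρ ^ p = 1) :
    finrank (IntermediateField.fixedField (Subgroup.zpowers ρ)) K = p := by
  rw [IntermediateField.finrank_fixedField_eq_card, Nat.card_zpowers, orderOf_eq_prime h3 h1]

lemma norm_prime_eq_zero [Module.Finite F K] [IsGalois F K] (h2 : (2 : K) ≠ 0) {p : ℕ}
    [Fact p.Prime] {ρ : Gal(K / F)} (h1 : ρ ≠ 1) (h3 : ρ ^ p = 1)
    (hk : fundIdeal (IntermediateField.fixedField (Subgroup.zpowers ρ)) ^ 2 = ⊥)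
    (φ : W K) (hφ : φ ∈ fundIdeal K ^ 2) :
    ∑ i : Fin p, act h2 (ρ ^ (i : ℕ)) φ = 0 := by
  classical
  set E := IntermediateField.fixedField (Subgroup.zpowers ρ) with hE
  have hr : finrank E K = p := finrank_fixedField_zpowers' h1 h3
  have h2E : (2 : E) ≠ 0 := by
    intro h; apply h2
    have := congrArg (algebraMap E K) h
    rwa [map_ofNat, map_zero] at this
  have key := sum_conj_eq_zero_of_sq h2E hk φ hφ
  let ρ' : Gal(K / E) := AlgEquiv.ofRingEquiv (f := ρ.toRingEquiv)
    (fun x => x.2 ⟨ρ, Subgroup.mem_zpowers ρ⟩)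
  have h1' : ρ' ≠ 1 := by
    intro h; apply h1
    ext x
    exact congrArg (fun f : Gal(K / E) => f x) h
  have hcard : Fintype.card Gal(K / E) = p := by
    rw [← Nat.card_eq_fintype_card, IsGalois.card_aut_eq_finrank, hr]
  have ho : orderOf ρ' = p := orderOf_eq_prime (by rw [← hcard]; exact pow_card_eq_one) h1'
  have hbij : Function.Bijective fun i : Fin p => ρ' ^ (i : ℕ) := by
    rw [Fintype.bijective_iff_injective_and_card]
    refine ⟨fun i j hij => Fin.ext (pow_injOn_Iio_orderOf ?_ ?_ hij), by simp [hcard]⟩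
    · simp [ho]
    · simp [ho]
  rw [← key, ← hbij.sum_comp]
  refine Finset.sum_congr rfl fun i _ => ?_
  have : ((ρ ^ (i : ℕ) : Gal(K / F)) : K →+* K) = ((ρ' ^ (i : ℕ) : Gal(K / E)) : K →+* K) := by
    ext x
    simp only [RingHom.coe_coe, AlgEquiv.coe_pow]
    rfl
  rw [act, this]

/-- The reduction for `C_p × C_p`. -/
lemma sq_eq_bot_of_pair [Module.Finite F K] [IsGalois F K] (h2 : (2 : K) ≠ 0) {p : ℕ}
    [hp : Fact p.Prime] (hodd : Odd p) {σ τ : Gal(K / F)}
    (hc : σ * τ = τ * σ) (hσ : σ ^ p = 1) (hτ : τ ^ p = 1) (h1 : τ ≠ 1)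
    (h3 : ∀ j : Fin p, σ * τ ^ (j : ℕ) ≠ 1)
    (hk : ∀ ρ : Gal(K / F), ρ ≠ 1 → ρ ^ p = 1 →
      fundIdeal (IntermediateField.fixedField (Subgroup.zpowers ρ)) ^ 2 = ⊥) :
    fundIdeal K ^ 2 = ⊥ := by
  have hcm : Commute σ τ := hc
  have : NeZero p := ⟨hp.out.ne_zero⟩
  rw [eq_bot_iff]
  intro φ hφ
  have n1 : ∑ j : Fin p, ∑ i : Fin p, act h2 ((σ * τ ^ (j : ℕ)) ^ (i : ℕ)) φ = 0 := by
    refine Finset.sum_eq_zero fun j _ => ?_
    have e : (σ * τ ^ (j : ℕ)) ^ p = 1 := by
      rw [(hcm.pow_right _).mul_pow, hσ, ← pow_mul, mul_comm, pow_mul, hτ]; simp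
    exact norm_prime_eq_zero h2 (h3 j) e (hk _ (h3 j) e) φ hφ
  rw [Finset.sum_comm, Finset.sum_eq_single (0 : Fin p) ?_ (by simp)] at n1
  · simp only [Fin.val_zero, pow_zero, act_one, Finset.sum_const, Finset.card_univ,
      Fintype.card_fin, nsmul_eq_mul] at n1
    have hnil : (2 : W K) ^ 2 = 0 := by
      set E := IntermediateField.fixedField (Subgroup.zpowers τ)
      have h2E : (2 : E) ≠ 0 := by
        intro h; apply h2
        have := congrArg (algebraMap E K) h
        rwa [map_ofNat, map_zero] at this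
      have : (2 : W E) ^ 2 = 0 := by
        rw [← Ideal.mem_bot, ← hk _ h1 hτ]
        exact Ideal.pow_mem_pow two_mem _
      have := congrArg (map (algebraMap E K) h2E) this
      rwa [map_pow, map_ofNat, map_zero] at this
    obtain ⟨m, hm⟩ := hodd
    have hu : IsUnit (1 + 2 * m : W K) :=
      IsNilpotent.isUnit_one_add ⟨2, by rw [mul_pow, hnil, zero_mul]⟩
    rw [Ideal.mem_bot]
    apply hu.mul_left_cancel
    have : (p : W K) = 2 * m + 1 := by rw [hm]; push_cast; rfl
    rw [this] at n1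
    linear_combination n1
  · intro i _ hi
    have e1 : τ ^ (i : ℕ) ≠ 1 := by
      refine pow_ne_one_of_lt_orderOf (fun h => hi (Fin.ext h)) ?_
      rw [orderOf_eq_prime hτ h1]; exact i.2
    have e2 : (τ ^ (i : ℕ)) ^ p = 1 := by rw [← pow_mul, mul_comm, pow_mul, hτ, one_pow]
    have n2 := congrArg (act h2 (σ ^ (i : ℕ))) (norm_prime_eq_zero h2 e1 e2 (hk _ e1 e2) φ hφ)
    rw [map_sum, map_zero] at n2
    rw [← n2]
    refine Finset.sum_congr rfl fun j _ => ?_
    rw [← act_mul, (hcm.pow_right _).mul_pow, ← pow_mul, ← pow_mul, mul_comm (j : ℕ)]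

/-- Induction over abelian extensions of exponent dividing `e`. -/
lemma sq_eq_bot_of_abelian (F : Type u) [Field F] (h2 : (2 : F) ≠ 0) (p e : ℕ)
    [hp : Fact p.Prime] (hodd : Odd p)
    (base : ∀ (K : Type u) [Field K] [Algebra F K] [Module.Finite F K] [IsAbelianGalois F K],
      (∀ σ : Gal(K / F), σ ^ e = 1) → Nat.card {σ : Gal(K / F) // σ ^ p = 1} ≤ p →
        fundIdeal K ^ 2 = ⊥)
    (n : ℕ) : ∀ (K : Type u) [Field K] [Algebra F K] [Module.Finite F K] [IsAbelianGalois F K],
      finrank F K = n → (∀ σ : Gal(K / F), σ ^ e = 1) → fundIdeal K ^ 2 = ⊥ := by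
  induction n using Nat.strong_induction_on with
  | _ n ih =>
  intro K _ _ _ _ hn he
  by_cases hT : Nat.card {σ : Gal(K / F) // σ ^ p = 1} ≤ p
  · exact base K he hT
  classical
  have hex : ∀ s : Finset Gal(K / F), s.card ≤ p → ∃ τ : Gal(K / F), τ ^ p = 1 ∧ τ ∉ s := by
    intro s hs
    by_contra hcon
    push Not at hcon
    apply hT
    refine le_trans ?_ hs
    rw [← Nat.card_eq_finsetCard s]
    exact Nat.card_le_card_of_injective (fun x => (⟨x.1, hcon x.1 x.2⟩ : s))
      (fun x y hxy => Subtype.ext (congrArg (fun z : s => z.1) hxy))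
  obtain ⟨τ, hτ, h1⟩ := hex {1} (by simpa using hp.out.one_le)
  obtain ⟨σ, hσ, h3⟩ := hex (Finset.univ.image fun j : Fin p => (τ ^ (j : ℕ))⁻¹)
    (Finset.card_image_le.trans (by simp))
  refine sq_eq_bot_of_pair (two_ne_zero_of_algebra h2) hodd (IsMulCommutative.is_comm.comm σ τ)
    hσ hτ (by simpa using h1)
    (fun j h => h3 (Finset.mem_image.2 ⟨j, Finset.mem_univ _,
      (eq_inv_of_mul_eq_one_left h).symm⟩)) ?_
  intro ρ hρ1 hρ3
  have hr := finrank_fixedField_zpowers' hρ1 hρ3
  set E := IntermediateField.fixedField (Subgroup.zpowers ρ)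
  have hm := Module.finrank_mul_finrank F E K
  have hpos : 0 < finrank F E := Module.finrank_pos
  have h1p := hp.out.one_lt
  refine ih (finrank F E) (by rw [hr, hn] at hm; nlinarith) E rfl fun g => ?_
  obtain ⟨g, rfl⟩ := AlgEquiv.restrictNormalHom_surjective K g
  rw [← map_pow, he, map_one]

end abelian

end Pool.Agent.Lib.MP_887a05_al
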