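import Pool.Agent.Shared.WittRing
import Pool.Agent.Lib.MP_887a05_al.Norms

/-!
Powers of the fundamental ideal in cubic extensions and the reduction for `C₃ × C₃`.
-/

namespace Pool.Agent.Lib.MP_887a05_al

open Module Matrix
open Pool.Agent.Shared.WittRing

universe u

section cubic

variable {E K : Type u} [Field E] [Field K] [Algebra E K]

lemma two_ne_zero_of_algebra (h : (2 : E) ≠ 0) : (2 : K) ≠ 0 := by
  intro hB
  apply h
  apply (algebraMap E K).injective
  rwa [map_ofNat, map_zero]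

lemma sq_le_of_cubic [Module.Finite E K] (h : finrank E K ≤ 3) (h2 : (2 : E) ≠ 0) :
    fundIdeal K * fundIdeal K ≤ (fundIdeal E).map (map (algebraMap E K) h2) * fundIdeal K := by
  set J := (fundIdeal E).map (map (algebraMap E K) h2) * fundIdeal K with hJ
  have key := steinberg_cubic h
    (fun a b : K => ∀ x y : Kˣ, (x : K) = a → (y : K) = b → (1 - cls x) * (1 - cls y) ∈ J)
    (fun a b _ _ hab x y hx hy => by rw [mul_comm]; exact hab y x hy hx)
    (fun a b c _ hb hc hab hac x y hx hy => by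
      have : y = Units.mk0 b hb * Units.mk0 c hc := by ext; simp [hy]
      have e : (1 - cls x) * (1 - cls y) = (1 - cls x) * (1 - cls (Units.mk0 b hb)) +
          cls (Units.mk0 b hb) * ((1 - cls x) * (1 - cls (Units.mk0 c hc))) := by
        rw [this, cls_mul]; ring
      rw [e]
      exact J.add_mem (hab _ _ hx rfl) (J.mul_mem_left _ (hac _ _ hx rfl)))
    (fun a b _ _ hab x y hx hy => by
      rw [← cls_inv y]
      exact hab x y⁻¹ hx (by simp [hy]))
    (fun a _ x y hx hy => by
      rw [cls_norm x y 0 1 (by rw [hx, hy]; ring)]; exact J.zero_mem)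
    (fun a _ _ x y hx hy => by
      rw [cls_norm x y 1 1 (by rw [hx, hy]; ring)]; exact J.zero_mem)
    (fun t a ht _ x y hx _ => by
      refine Ideal.mul_mem_mul ?_ (one_sub_cls_mem y)
      have : 1 - cls x = map (algebraMap E K) h2 (1 - cls (Units.mk0 t ht)) := by
        rw [map_sub, map_one, map_cls]
        congr 2
        ext; simp [hx]
      rw [this]
      exact Ideal.mem_map_of_mem _ (one_sub_cls_mem _))
  conv_lhs => rw [fundIdeal_eq, Ideal.span_mul_span]
  rw [Ideal.span_le]
  rintro _ ⟨_, ⟨a, rfl⟩, _, ⟨b, rfl⟩, rfl⟩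
  exact key a b a.ne_zero b.ne_zero a b rfl rfl

lemma pow_succ_le_of_cubic [Module.Finite E K] (h : finrank E K ≤ 3) (h2 : (2 : E) ≠ 0) (k : ℕ) :
    fundIdeal K ^ (k + 1) ≤ (fundIdeal E ^ k).map (map (algebraMap E K) h2) * fundIdeal K := by
  induction k with
  | zero => simp [Ideal.map_top]
  | succ k ih =>
    calc fundIdeal K ^ (k + 1 + 1) = fundIdeal K ^ (k + 1) * fundIdeal K := pow_succ _ _
      _ ≤ (fundIdeal E ^ k).map (map (algebraMap E K) h2) * fundIdeal K * fundIdeal K :=
        Ideal.mul_mono_left ih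
      _ ≤ (fundIdeal E ^ k).map (map (algebraMap E K) h2) *
          ((fundIdeal E).map (map (algebraMap E K) h2) * fundIdeal K) := by
        rw [mul_assoc]; exact Ideal.mul_mono_right (sq_le_of_cubic h h2)
      _ = _ := by rw [← mul_assoc, ← Ideal.map_mul, ← pow_succ]

lemma pow_succ_eq_bot_of_cubic [Module.Finite E K] (h : finrank E K ≤ 3) (h2 : (2 : E) ≠ 0)
    {k : ℕ} (hk : fundIdeal E ^ k = ⊥) : fundIdeal K ^ (k + 1) = ⊥ := by
  have := pow_succ_le_of_cubic h h2 k
  rwa [hk, Ideal.map_bot, Ideal.bot_mul, le_bot_iff] at this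

/-- The sum of the conjugates of a one-dimensional form is the scalar extension of a trace form. -/
lemma sum_conj_cls [Module.Finite E K] [IsGalois E K] (h2 : (2 : E) ≠ 0) (a : Kˣ) :
    ∃ d : Fin (finrank E K) → Eˣ,
      ∑ σ : Gal(K / E), cls (Units.map (σ : K →+* K).toMonoidHom a) =
        ∑ i, map (algebraMap E K) h2 (cls (d i)) := by
  let _ : Invertible (2 : E) := invertibleOfNonzero h2
  let B : LinearMap.BilinForm E K := (Algebra.traceForm E K).compl₂ (LinearMap.mulLeft E (a : K))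
  have hB : ∀ x y, B x y = Algebra.trace E K (x * (a * y)) := fun _ _ => rfl
  obtain ⟨e, he⟩ := LinearMap.BilinForm.exists_orthogonal_basis (B := B)
    ⟨fun x y => by simp only [hB, RingHom.id_apply]; congr 1; ring⟩
  have hsep : B.SeparatingLeft := by
    intro x hx
    refine (traceForm_nondegenerate E K).1 x fun y => ?_
    have := hx ((a⁻¹ : Kˣ) * y)
    rwa [hB, Units.mul_inv_cancel_left] at this
  have hd := he.not_isOrtho_basis_self_of_separatingLeft hsep
  have hcard : Fintype.card Gal(K / E) = finrank E K := by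
    rw [← Nat.card_eq_fintype_card, IsGalois.card_aut_eq_finrank]
  let ε : Fin (finrank E K) ≃ Gal(K / E) := (Fintype.equivFinOfCardEq hcard).symm
  refine ⟨fun i => Units.mk0 _ (hd i), ?_⟩
  rw [← Equiv.sum_comp ε]
  simp only [map_cls]
  symm
  apply sum_cls_eq_of_matrix _ _ (Matrix.of fun s i => ε s (e i))
  ext i j
  have : ((Matrix.of fun s i => ε s (e i))ᵀ *
      (diagonal fun s => ((Units.map ((ε s : K →+* K)).toMonoidHom a : Kˣ) : K)) *
      Matrix.of fun s i => ε s (e i)) i j = algebraMap E K (B (e i) (e j)) := by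
    rw [hB, trace_eq_sum_automorphisms, ← Equiv.sum_comp ε, Matrix.mul_apply]
    refine Finset.sum_congr rfl fun s _ => ?_
    simp [Matrix.mul_diagonal, mul_assoc]
  rw [this]
  by_cases hij : i = j
  · subst hij; simp
  · rw [he hij, map_zero, diagonal_apply_ne _ hij]

lemma map_map {A B C : Type u} [Field A] [Field B] [Field C] (f : A →+* B) (g : B →+* C)
    (hA : (2 : A) ≠ 0) (hB : (2 : B) ≠ 0) (x : W A) :
    map g hB (map f hA x) = map (g.comp f) hA x := by
  induction x using Pool.Agent.Shared.WittRing.induction_on with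
  | h1 a => simp only [map_cls]; rfl
  | h0 => simp
  | hadd x y hx hy => simp only [map_add, hx, hy]

lemma map_id' {A : Type u} [Field A] (hA : (2 : A) ≠ 0) (x : W A) :
    map (RingHom.id A) hA x = x := by
  induction x using Pool.Agent.Shared.WittRing.induction_on with
  | h1 a => simp only [map_cls]; rfl
  | h0 => simp
  | hadd x y hx hy => simp only [map_add, hx, hy]

/-- For a Galois extension of degree three, the sum of the conjugates of an element of
`I ^ (k + 1)` vanishes as soon as `I ^ (k + 1)` vanishes over the base. -/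
lemma sum_conj_eq_zero [Module.Finite E K] [IsGalois E K] (h : finrank E K ≤ 3) (h2 : (2 : E) ≠ 0)
    {k : ℕ} (hk : fundIdeal E ^ (k + 1) = ⊥) (φ : W K) (hφ : φ ∈ fundIdeal K ^ (k + 1)) :
    ∑ σ : Gal(K / E), map (σ : K →+* K) (two_ne_zero_of_algebra h2) φ = 0 := by
  have h2K : (2 : K) ≠ 0 := two_ne_zero_of_algebra h2
  let N : W K →+ W K := ∑ σ : Gal(K / E), (map (σ : K →+* K) h2K).toAddMonoidHom
  have hN : ∀ x, N x = ∑ σ : Gal(K / E), map (σ : K →+* K) h2K x := fun x => by
    simp [N]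
  have hlin : ∀ (e : W E) (x : W K), N (map (algebraMap E K) h2 e * x) =
      map (algebraMap E K) h2 e * N x := by
    intro e x
    rw [hN, hN, Finset.mul_sum]
    refine Finset.sum_congr rfl fun σ _ => ?_
    have : (σ : K →+* K).comp (algebraMap E K) = algebraMap E K := by ext; simp
    rw [map_mul, map_map, this]
  have hI : ∀ z ∈ fundIdeal K, ∀ w : W K, ∃ e ∈ fundIdeal E, N (w * z) = map (algebraMap E K) h2 e := by
    intro z hz
    rw [fundIdeal_eq] at hz
    induction hz using Submodule.span_induction with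
    | mem z hz =>
      obtain ⟨b, rfl⟩ := hz
      intro w
      induction w using Pool.Agent.Shared.WittRing.induction_on with
      | h1 a =>
        obtain ⟨d, hd⟩ := sum_conj_cls h2 a
        obtain ⟨d', hd'⟩ := sum_conj_cls h2 (a * b)
        refine ⟨∑ i, ((1 - cls (d' i)) - (1 - cls (d i))), Ideal.sum_mem _ fun i _ =>
          Ideal.sub_mem _ (one_sub_cls_mem _) (one_sub_cls_mem _), ?_⟩
        rw [mul_sub, mul_one, ← cls_mul, map_sub, hN, hN]
        simp only [map_cls] at hd hd' ⊢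
        rw [hd, hd', ← Finset.sum_sub_distrib, map_sum]
        refine Finset.sum_congr rfl fun i _ => ?_
        simp only [map_sub, map_cls, map_one]
        ring
      | h0 => exact ⟨0, Ideal.zero_mem _, by simp⟩
      | hadd x y hx hy =>
        obtain ⟨e, he, hx⟩ := hx
        obtain ⟨e', he', hy⟩ := hy
        exact ⟨e + e', Ideal.add_mem _ he he', by rw [add_mul, map_add, hx, hy, map_add]⟩
    | zero => exact fun w => ⟨0, Ideal.zero_mem _, by simp⟩
    | add x y _ _ hx hy =>
      intro w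
      obtain ⟨e, he, hx⟩ := hx w
      obtain ⟨e', he', hy⟩ := hy w
      exact ⟨e + e', Ideal.add_mem _ he he', by rw [mul_add, map_add, hx, hy, map_add]⟩
    | smul c x _ hx =>
      intro w
      obtain ⟨e, he, hx⟩ := hx (w * c)
      exact ⟨e, he, by rw [smul_eq_mul, ← mul_assoc, hx]⟩
  rw [← hN]
  refine Submodule.mul_induction_on (pow_succ_le_of_cubic h h2 k hφ) ?_
    (fun x y hx hy => by rw [map_add, hx, hy, add_zero])
  intro x hx
  induction hx using Submodule.span_induction with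
  | mem x hx =>
    obtain ⟨e, he, rfl⟩ := hx
    intro y hy
    obtain ⟨e', he', hy⟩ := hI y hy 1
    rw [one_mul] at hy
    have : e * e' = 0 := by
      rw [← Ideal.mem_bot, ← hk, pow_succ]
      exact Ideal.mul_mem_mul he he'
    rw [hlin, hy, ← map_mul, this, map_zero]
  | zero => intro y _; simp
  | add x x' _ _ hx hx' => intro y hy; rw [add_mul, map_add, hx y hy, hx' y hy, add_zero]
  | smul c x _ hx =>
    intro y hy
    rw [smul_eq_mul, mul_comm c, mul_assoc]
    exact hx _ (Ideal.mul_mem_left _ _ hy)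

end cubic

section abelian

variable {F K : Type u} [Field F] [Field K] [Algebra F K]

/-- The action of an automorphism on the Witt ring. -/
noncomputable def act (h2 : (2 : K) ≠ 0) (σ : Gal(K / F)) : W K →+* W K := map (σ : K →+* K) h2

lemma act_mul (h2 : (2 : K) ≠ 0) (σ τ : Gal(K / F)) (x : W K) :
    act h2 (σ * τ) x = act h2 σ (act h2 τ x) := by
  rw [act, act, act, map_map]; rfl

lemma act_one (h2 : (2 : K) ≠ 0) (x : W K) : act h2 (1 : Gal(K / F)) x = x := map_id' h2 x

lemma orderOf_eq_three {G : Type*} [Group G] {ρ : G} (h1 : ρ ≠ 1) (h3 : ρ ^ 3 = 1) :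
    orderOf ρ = 3 := orderOf_eq_prime h3 h1

lemma finrank_fixedField_zpowers [Module.Finite F K] {ρ : Gal(K / F)} (h1 : ρ ≠ 1)
    (h3 : ρ ^ 3 = 1) : finrank (IntermediateField.fixedField (Subgroup.zpowers ρ)) K = 3 := by
  rw [IntermediateField.finrank_fixedField_eq_card, Nat.card_zpowers, orderOf_eq_three h1 h3]

lemma norm_three_eq_zero [Module.Finite F K] [IsGalois F K] (h2 : (2 : K) ≠ 0) {ρ : Gal(K / F)}
    (h1 : ρ ≠ 1) (h3 : ρ ^ 3 = 1) {k : ℕ}
    (hk : fundIdeal (IntermediateField.fixedField (Subgroup.zpowers ρ)) ^ (k + 1) = ⊥)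
    (φ : W K) (hφ : φ ∈ fundIdeal K ^ (k + 1)) :
    φ + act h2 ρ φ + act h2 (ρ * ρ) φ = 0 := by
  classical
  set E := IntermediateField.fixedField (Subgroup.zpowers ρ) with hE
  have hr : finrank E K = 3 := finrank_fixedField_zpowers h1 h3
  have h2E : (2 : E) ≠ 0 := by
    intro h; apply h2
    have := congrArg (algebraMap E K) h
    rwa [map_ofNat, map_zero] at this
  have key := sum_conj_eq_zero hr.le h2E hk φ hφ
  let ρ' : Gal(K / E) := AlgEquiv.ofRingEquiv (f := ρ.toRingEquiv)
    (fun x => x.2 ⟨ρ, Subgroup.mem_zpowers ρ⟩)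
  have h1' : ρ' ≠ 1 := by
    intro h; apply h1
    ext x
    exact congrArg (fun f : Gal(K / E) => f x) h
  have hcard : Fintype.card Gal(K / E) = 3 := by
    rw [← Nat.card_eq_fintype_card, IsGalois.card_aut_eq_finrank, hr]
  have h3' : ρ' ^ 3 = 1 := by rw [← hcard]; exact pow_card_eq_one
  have h4 : ρ' * ρ' ≠ 1 := by
    intro h; apply h1'
    rw [pow_succ, sq, h, one_mul] at h3'
    exact h3'
  have h5 : ρ' ≠ ρ' * ρ' := by
    intro h; exact h1' (by simpa using h)
  have huniv : (Finset.univ : Finset Gal(K / E)) = {1, ρ', ρ' * ρ'} := by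
    symm
    apply Finset.eq_univ_of_card
    rw [hcard, Finset.card_eq_three]
    exact ⟨1, ρ', ρ' * ρ', h1'.symm, h4.symm, h5, rfl⟩
  rw [huniv, Finset.sum_insert (by simp [h1'.symm, h4.symm]), Finset.sum_pair h5] at key
  rw [← key, add_assoc]
  congr 1
  exact (map_id' h2 φ).symm

/-- The reduction for `C₃ × C₃`. -/
lemma pow_eq_bot_of_pair [Module.Finite F K] [IsGalois F K] (h2 : (2 : K) ≠ 0) {σ τ : Gal(K / F)}
    (hc : σ * τ = τ * σ) (hσ : σ ^ 3 = 1) (hτ : τ ^ 3 = 1) (h1 : σ ≠ 1) (h1' : τ ≠ 1)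
    (h3 : σ * τ ≠ 1) (h4 : σ * (τ * τ) ≠ 1) {k : ℕ}
    (hk : ∀ ρ : Gal(K / F), ρ ≠ 1 → ρ ^ 3 = 1 →
      fundIdeal (IntermediateField.fixedField (Subgroup.zpowers ρ)) ^ (k + 1) = ⊥) :
    fundIdeal K ^ (k + 1) = ⊥ := by
  have hcm : Commute σ τ := hc
  have e3 : (σ * τ) ^ 3 = 1 := by rw [hcm.mul_pow, hσ, hτ, one_mul]
  have e4 : (σ * (τ * τ)) ^ 3 = 1 := by
    rw [(hcm.mul_right hcm).mul_pow, (Commute.refl τ).mul_pow, hσ, hτ]; simp
  rw [eq_bot_iff]
  intro φ hφ
  have n1 := norm_three_eq_zero h2 h1 hσ (hk _ h1 hσ) φ hφ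
  have n2 := norm_three_eq_zero h2 h1' hτ (hk _ h1' hτ) φ hφ
  have n3 := norm_three_eq_zero h2 h3 e3 (hk _ h3 e3) φ hφ
  have n4 := norm_three_eq_zero h2 h4 e4 (hk _ h4 e4) φ hφ
  have n5 := congrArg (act h2 τ) n1
  have n6 := congrArg (act h2 (τ * τ)) n1
  simp only [map_add, map_zero, ← act_mul] at n5 n6
  have q1 : σ * τ = τ * σ := hc
  have q2 : σ * τ * (σ * τ) = τ * τ * (σ * σ) := by
    rw [q1, mul_assoc, ← mul_assoc σ, q1, mul_assoc, mul_assoc]
  have q3 : σ * (τ * τ) = τ * τ * σ := (hcm.mul_right hcm).eq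
  have q4 : σ * (τ * τ) * (σ * (τ * τ)) = τ * (σ * σ) := by
    have : τ * τ * τ = 1 := by rw [← hτ, pow_succ, sq]
    calc σ * (τ * τ) * (σ * (τ * τ)) = σ * ((τ * τ) * σ) * (τ * τ) := by simp only [mul_assoc]
      _ = (σ * σ) * τ * (τ * τ * τ) := by rw [← q3]; simp only [mul_assoc]
      _ = τ * (σ * σ) := by rw [this, mul_one]; exact (hcm.mul_left hcm).eq
  rw [q2, q1] at n3
  rw [q4, q3] at n4
  have three : 3 * φ = 0 := by linear_combination n2 + n3 + n4 - n5 - n6
  have hnil : (2 : W K) ^ (k + 1) = 0 := by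
    set E := IntermediateField.fixedField (Subgroup.zpowers σ)
    have h2E : (2 : E) ≠ 0 := by
      intro h; apply h2
      have := congrArg (algebraMap E K) h
      rwa [map_ofNat, map_zero] at this
    have : (2 : W E) ^ (k + 1) = 0 := by
      rw [← Ideal.mem_bot, ← hk _ h1 hσ]
      exact Ideal.pow_mem_pow two_mem _
    have := congrArg (map (algebraMap E K) h2E) this
    rwa [map_pow, map_ofNat, map_zero] at this
  have hu : IsUnit (1 + 2 : W K) := IsNilpotent.isUnit_one_add ⟨_, hnil⟩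
  rw [Ideal.mem_bot]
  apply hu.mul_left_cancel
  linear_combination three

/-- Induction over abelian extensions of exponent dividing `e`. -/
lemma pow_eq_bot_of_abelian (F : Type u) [Field F] (h2 : (2 : F) ≠ 0) (e k : ℕ)
    (base : ∀ (K : Type u) [Field K] [Algebra F K] [Module.Finite F K] [IsAbelianGalois F K],
      (∀ σ : Gal(K / F), σ ^ e = 1) → Nat.card {σ : Gal(K / F) // σ ^ 3 = 1} ≤ 3 →
        fundIdeal K ^ (k + 1) = ⊥)
    (n : ℕ) : ∀ (K : Type u) [Field K] [Algebra F K] [Module.Finite F K] [IsAbelianGalois F K],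
      finrank F K = n → (∀ σ : Gal(K / F), σ ^ e = 1) → fundIdeal K ^ (k + 1) = ⊥ := by
  induction n using Nat.strong_induction_on with
  | _ n ih =>
  intro K _ _ _ _ hn he
  by_cases hT : Nat.card {σ : Gal(K / F) // σ ^ 3 = 1} ≤ 3
  · exact base K he hT
  classical
  have hex : ∀ s : Finset Gal(K / F), s.card ≤ 3 → ∃ τ : Gal(K / F), τ ^ 3 = 1 ∧ τ ∉ s := by
    intro s hs
    by_contra hcon
    push Not at hcon
    apply hT
    refine le_trans ?_ hs
    rw [← Nat.card_eq_finsetCard s]
    exact Nat.card_le_card_of_injective (fun x => (⟨x.1, hcon x.1 x.2⟩ : s))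
      (fun x y hxy => Subtype.ext (congrArg (fun z : s => z.1) hxy))
  obtain ⟨σ, hσ, h1⟩ := hex {1} (by simp)
  obtain ⟨τ, hτ, h3⟩ := hex {1, σ⁻¹, σ} Finset.card_le_three
  simp only [Finset.mem_insert, Finset.mem_singleton, not_or] at h1 h3
  refine pow_eq_bot_of_pair (two_ne_zero_of_algebra h2) (IsMulCommutative.is_comm.comm σ τ) hσ hτ
    h1 h3.1 (fun h => h3.2.1 (eq_inv_of_mul_eq_one_right h)) (fun h => h3.2.2 ?_) ?_
  · have : τ * (τ * τ) = 1 := by rw [← hτ, pow_succ', sq]
    exact mul_right_cancel (this.trans h.symm)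
  · intro ρ hρ1 hρ3
    have hr := finrank_fixedField_zpowers hρ1 hρ3
    set E := IntermediateField.fixedField (Subgroup.zpowers ρ)
    have hm := Module.finrank_mul_finrank F E K
    have hpos : 0 < finrank F E := Module.finrank_pos
    refine ih (finrank F E) (by rw [hr, hn] at hm; omega) E rfl fun g => ?_
    obtain ⟨g, rfl⟩ := AlgEquiv.restrictNormalHom_surjective K g
    rw [← map_pow, he, map_one]

end abelian

end Pool.Agent.Lib.MP_887a05_al
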